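import Pool.Agent.H496.R6.Arith

/-! Counting elements of norm one with denominators in a congruence subgroup. -/

set_option autoImplicit false

namespace Pool.Agent.H496.R7

open Function
open Pool.Agent.H496.R6
open scoped NumberField

section arith
variable {K : Type} [Field K] [NumberField K] {W V : Type} [Fintype W] [DecidableEq W] [Fintype V] [DecidableEq V]

/-- the possible values of the first coordinate -/
theorem count_re2 (ψ : W → K →+* ℝ) (φ : V → K →+* ℝ) (hinj : Injective (Sum.elim ψ φ))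
    (hcard : Fintype.card W + Fintype.card V = Module.finrank ℚ K) {𝔟₂ : Ideal (𝓞 K)} (h𝔟₂ : 𝔟₂ ≠ ⊥) {t : ℕ} (ht : 0 < t) (w₀ : W)
    {A : W → ℝ} (hA1 : ∀ w, 1 ≤ A w) {s : V → ℝ} (S : Finset (𝓞 K))
    (hS : ∀ x ∈ S, 2 * (x - t) ∈ 𝔟₂) (hA : ∀ x ∈ S, ∀ w, |ψ w (x : K)| ≤ t * A w)
    (hV : ∀ x ∈ S, ∀ v, φ v (x : K) ^ 2 ≤ t ^ 2 ∧ t ^ 2 - φ v (x : K) ^ 2 ≤ t ^ 2 * s v ^ 2) :
    (S.card : ℝ) ≤ 2 ^ Fintype.card V *
      (2 + (4 * t) ^ Module.finrank ℚ K * (∏ w, A w) * (∏ v, s v ^ 2) / Ideal.absNorm 𝔟₂) := by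
  classical
  have ht0 : (0 : ℝ) < t := by exact_mod_cast ht
  set c : 𝓞 K → V → Bool := fun x v => decide (0 ≤ φ v (x : K)) with hc
  set R : ℝ := 2 + (4 * t) ^ Module.finrank ℚ K * (∏ w, A w) * (∏ v, s v ^ 2) / Ideal.absNorm 𝔟₂ with hR
  have hR0 : 0 ≤ R := by
    have : 0 ≤ ∏ w, A w := Finset.prod_nonneg fun w _ => by linarith [hA1 w]
    have h2 : 0 ≤ ∏ v, s v ^ 2 := Finset.prod_nonneg fun v _ => sq_nonneg _
    positivity
  have h1 := card_le_mul S c (r := R) ?_
  · refine h1.trans ?_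
    refine mul_le_mul_of_nonneg_right ?_ hR0
    have h2 : (S.image c).card ≤ Fintype.card (V → Bool) := Finset.card_le_univ _
    rw [Fintype.card_fun, Fintype.card_bool] at h2
    exact_mod_cast h2
  · intro e _
    set T := S.filter fun x => c x = e with hT
    have hinj2 : Injective fun x : 𝓞 K => 2 * x := mul_right_injective₀ two_ne_zero
    have key := box_count ψ φ hinj hcard (𝔟 := 𝔟₂) h𝔟₂ w₀ (T.image fun x => 2 * x)
      (A := fun w => 2 * (t * A w)) (B := fun v => 2 * (t * s v ^ 2)) (c := fun v => if e v then 2 * t else -(2 * t)) ?_ ?_ ?_ ?_ ?_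
    · rw [Finset.card_image_of_injective _ hinj2] at key
      refine key.trans (le_of_eq ?_)
      rw [hR]
      congr 2
      rw [← hcard, pow_add]
      have e1 : ∏ w, (2 * (2 * (t * A w))) = (4 * t : ℝ) ^ Fintype.card W * ∏ w, A w := by
        rw [← Finset.card_univ, ← Finset.prod_const, ← Finset.prod_mul_distrib]
        exact Finset.prod_congr rfl fun w _ => by ring
      have e2 : ∏ v, (2 * (2 * (t * s v ^ 2))) = (4 * t : ℝ) ^ Fintype.card V * ∏ v, s v ^ 2 := by
        rw [← Finset.card_univ, ← Finset.prod_const, ← Finset.prod_mul_distrib]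
        exact Finset.prod_congr rfl fun w _ => by ring
      rw [e1, e2]
      ring
    · intro x hx y hy
      obtain ⟨x', hx', rfl⟩ := Finset.mem_image.1 hx
      obtain ⟨y', hy', rfl⟩ := Finset.mem_image.1 hy
      have h2 := hS x' (Finset.mem_filter.1 hx').1
      have h3 := hS y' (Finset.mem_filter.1 hy').1
      have := Ideal.sub_mem _ h2 h3
      convert this using 1
      ring
    · intro w
      have := hA1 w
      positivity
    · intro v
      positivity
    · intro x hx w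
      obtain ⟨x', hx', rfl⟩ := Finset.mem_image.1 hx
      have h2 := hA x' (Finset.mem_filter.1 hx').1 w
      rw [coe_two_mul, map_mul, map_ofNat, abs_mul, abs_two]
      linarith
    · intro x hx v
      obtain ⟨x', hx', rfl⟩ := Finset.mem_image.1 hx
      obtain ⟨hx1, hx2⟩ := Finset.mem_filter.1 hx'
      obtain ⟨h2, h3⟩ := hV x' hx1 v
      have h4 := congrFun hx2 v
      rw [coe_two_mul, map_mul, map_ofNat]
      set y := φ v (x' : K) with hy
      have h5 : |y| ≤ t := abs_le_of_sq_le_sq h2 ht0.le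
      have h6 := abs_le.1 h5
      rw [← h4, hc]
      simp only [decide_eq_true_eq]
      split_ifs with h7
      · have h8 : t - y ≤ t * s v ^ 2 := by
          have : 0 ≤ (t - y) * y := mul_nonneg (by linarith) h7
          have h9 : t * (t - y) ≤ t * (t * s v ^ 2) := by nlinarith
          exact le_of_mul_le_mul_left h9 ht0
        rw [abs_le]
        constructor <;> linarith
      · push Not at h7
        have h8 : t + y ≤ t * s v ^ 2 := by
          have : 0 ≤ (t + y) * (-y) := mul_nonneg (by linarith) (by linarith)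
          have h9 : t * (t + y) ≤ t * (t * s v ^ 2) := by nlinarith
          exact le_of_mul_le_mul_left h9 ht0
        rw [abs_le]
        constructor <;> linarith

end arith

theorem count_arith2 (d : ℕ) {δ : ℝ} (hδ : 0 < δ) : ∃ C : ℝ, 0 < C ∧
    ∀ (K : Type) [Field K] [NumberField K], Module.finrank ℚ K = d →
    ∀ (W V : Type) [Fintype W] [DecidableEq W] [Fintype V] [DecidableEq V] (ψ : W → K →+* ℝ) (φ : V → K →+* ℝ),
    Injective (Sum.elim ψ φ) → Fintype.card W + Fintype.card V = Module.finrank ℚ K →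
    ∀ (w₀ : W) (v₀ : V) (a b : 𝓞 K), (∀ w, 0 < ψ w a) → (∀ v, φ v a < 0 ∧ φ v b < 0) →
    ∀ (𝔟₁ 𝔟₂ : Ideal (𝓞 K)), 𝔟₁ ≠ ⊥ → 𝔟₂ ≠ ⊥ → ∀ (t : ℕ), 0 < t → ∀ (A : W → ℝ), (∀ w, 1 ≤ A w) → ∀ (s : V → ℝ), (∀ v, 0 ≤ s v) →
    ∀ (H : ℝ), 1 ≤ H → (∀ v, 1 ≤ H * √(-φ v a)) → (∀ v, 1 ≤ H * √(-φ v b)) → (∀ w, 1 + √(ψ w a) ≤ H) →
    ∀ (S : Finset (𝓞 K × 𝓞 K × 𝓞 K × 𝓞 K)),
    (∀ p ∈ S, p.1 ^ 2 - a * p.2.1 ^ 2 - b * p.2.2.1 ^ 2 + a * b * p.2.2.2 ^ 2 = t ^ 2) →
    (∀ p ∈ S, 2 * (p.1 - t) ∈ 𝔟₂ ∧ p.2.1 ∈ 𝔟₁) →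
    (∀ p ∈ S, ∀ w, |ψ w p.1| ≤ t * A w ∧ |ψ w p.2.1| ≤ t * A w ∧ |ψ w p.2.2.1| ≤ t * A w ∧ |ψ w p.2.2.2| ≤ t * A w) →
    (∀ p ∈ S, ∀ v, t ^ 2 - φ v p.1 ^ 2 ≤ t ^ 2 * s v ^ 2) →
    (S.card : ℝ) ≤ (2 ^ Fintype.card V *
      (2 + (4 * t) ^ Module.finrank ℚ K * (∏ w, A w) * (∏ v, s v ^ 2) / Ideal.absNorm 𝔟₂)) *
      ((2 + (2 * H * t) ^ Module.finrank ℚ K * (∏ w, A w) * (∏ v, s v) / (Ideal.absNorm 𝔟₁ : ℝ)) *
      (C * (2 * H * t * ∏ w, A w) ^ δ + 1)) := by
  obtain ⟨C, hC, hnorm⟩ := norm_eq d hδ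
  refine ⟨C, hC, ?_⟩
  intro K _ _ hd W V _ _ _ _ ψ φ hinj hcard w₀ v₀ a b ha hab 𝔟₁ 𝔟₂ h𝔟₁ h𝔟₂ t ht A hA1 s hs H hH hHa hHb hHw S hnrd hcong hW hV
  classical
  have ht0 : (0 : ℝ) < t := by exact_mod_cast ht
  have ht1 : (1 : ℝ) ≤ t := by exact_mod_cast ht
  have hN : (0 : ℝ) < Ideal.absNorm 𝔟₁ := by
    have : Ideal.absNorm 𝔟₁ ≠ 0 := by rwa [Ne, Ideal.absNorm_eq_zero_iff]
    positivity
  have hAp : 1 ≤ ∏ w, A w := by
    calc (1 : ℝ) = ∏ _w : W, (1 : ℝ) := by simp
      _ ≤ _ := Finset.prod_le_prod (fun _ _ => zero_le_one) fun w _ => hA1 w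
  have hAw : ∀ w, A w ≤ ∏ w, A w := by
    intro w
    rw [← Finset.mul_prod_erase Finset.univ _ (Finset.mem_univ w)]
    have h1 : (1 : ℝ) ≤ ∏ x ∈ Finset.univ.erase w, A x := by
      calc (1 : ℝ) = ∏ _w ∈ Finset.univ.erase w, (1 : ℝ) := by simp
        _ ≤ _ := Finset.prod_le_prod (fun _ _ => zero_le_one) fun w _ => hA1 w
    nlinarith [hA1 w]
  have hsp : 0 ≤ ∏ v, s v := Finset.prod_nonneg fun v _ => hs v
  -- the equation at a place of `V`
  have hreal : ∀ p ∈ S, ∀ v, φ v (p.1 : K) ^ 2 + (-φ v a) * φ v (p.2.1 : K) ^ 2 + (-φ v b) * φ v (p.2.2.1 : K) ^ 2 +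
      (φ v a * φ v b) * φ v (p.2.2.2 : K) ^ 2 = t ^ 2 := by
    intro p hp v
    have h1 := congrArg (fun t : 𝓞 K => φ v (t : K)) (hnrd p hp)
    push_cast at h1
    simp only [map_add, map_sub, map_mul, map_pow, map_natCast] at h1
    linarith
  have hpos : ∀ p ∈ S, ∀ v, 0 ≤ (-φ v a) * φ v (p.2.1 : K) ^ 2 ∧ 0 ≤ (-φ v b) * φ v (p.2.2.1 : K) ^ 2 ∧
      0 ≤ (φ v a * φ v b) * φ v (p.2.2.2 : K) ^ 2 ∧ 0 ≤ φ v (p.1 : K) ^ 2 := by
    intro p _ v
    obtain ⟨h1, h2⟩ := hab v
    exact ⟨mul_nonneg (by linarith) (sq_nonneg _), mul_nonneg (by linarith) (sq_nonneg _),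
      mul_nonneg (by nlinarith) (sq_nonneg _), sq_nonneg _⟩
  set r2 : ℝ := C * (2 * H * t * ∏ w, A w) ^ δ + 1 with hr2
  have hHt : 1 ≤ 2 * H * t := by nlinarith
  have hX1 : 1 ≤ 2 * H * t * ∏ w, A w := one_le_mul_of_one_le_of_one_le hHt hAp
  have hr20 : 0 ≤ r2 := by
    have : 0 ≤ (2 * H * t * ∏ w, A w) ^ δ := Real.rpow_nonneg (by linarith) _
    positivity
  set r1 : ℝ := 2 + (2 * H * t) ^ Module.finrank ℚ K * (∏ w, A w) * (∏ v, s v) / (Ideal.absNorm 𝔟₁ : ℝ) with hr1
  have hr10 : 0 ≤ r1 := by positivity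
  have h0 := card_le_mul S (fun p => p.1) (r := r1 * r2) ?_
  · refine h0.trans ?_
    refine mul_le_mul_of_nonneg_right ?_ (mul_nonneg hr10 hr20)
    refine count_re2 ψ φ hinj hcard h𝔟₂ ht w₀ hA1 (S.image fun p => p.1) ?_ ?_ ?_
    · intro x hx
      obtain ⟨p, hp, rfl⟩ := Finset.mem_image.1 hx
      exact (hcong p hp).1
    · intro x hx w
      obtain ⟨p, hp, rfl⟩ := Finset.mem_image.1 hx
      exact (hW p hp w).1
    · intro x hx v
      obtain ⟨p, hp, rfl⟩ := Finset.mem_image.1 hx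
      obtain ⟨q1, q2, q3, q4⟩ := hpos p hp v
      have := hreal p hp v
      exact ⟨by linarith, hV p hp v⟩
  · intro x0 hx0
    set S1 := S.filter fun p => p.1 = x0 with hS1
    have hS1S : ∀ p ∈ S1, p ∈ S := fun p hp => (Finset.mem_filter.1 hp).1
    have h1 := card_le_mul S1 (fun p => p.2.1) (r := r2) ?_
    · refine h1.trans ?_
      refine mul_le_mul_of_nonneg_right ?_ hr20
      have key := box_count ψ φ hinj hcard (𝔟 := 𝔟₁) h𝔟₁ w₀ (S1.image fun p => p.2.1)
        (A := fun w => t * A w) (B := fun v => H * (t * s v)) (c := fun v => 0) ?_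
        (fun w => by have := hA1 w; positivity)
        (fun v => mul_nonneg (by linarith) (mul_nonneg ht0.le (hs v))) ?_ ?_
      · refine key.trans ?_
        rw [hr1]
        have e1 : ∏ w, (2 * (t * A w)) = (2 * t : ℝ) ^ Fintype.card W * ∏ w, A w := by
          rw [← Finset.card_univ, ← Finset.prod_const, ← Finset.prod_mul_distrib]
          exact Finset.prod_congr rfl fun w _ => by ring
        have e2 : ∏ v, (2 * (H * (t * s v))) = (2 * H * t) ^ Fintype.card V * ∏ v, s v := by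
          rw [← Finset.card_univ, ← Finset.prod_const, ← Finset.prod_mul_distrib]
          exact Finset.prod_congr rfl fun w _ => by ring
        rw [e1, e2, ← hcard, pow_add]
        have h3 : (2 * t : ℝ) ^ Fintype.card W ≤ (2 * H * t) ^ Fintype.card W := by
          gcongr
          nlinarith
        have h4 : (2 * t : ℝ) ^ Fintype.card W * (∏ w, A w) * ((2 * H * t) ^ Fintype.card V * ∏ v, s v) ≤
            (2 * H * t) ^ Fintype.card W * (2 * H * t) ^ Fintype.card V * (∏ w, A w) * ∏ v, s v := by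
          calc (2 * t : ℝ) ^ Fintype.card W * (∏ w, A w) * ((2 * H * t) ^ Fintype.card V * ∏ v, s v) =
              (2 * t : ℝ) ^ Fintype.card W * ((∏ w, A w) * ((2 * H * t) ^ Fintype.card V * ∏ v, s v)) := by ring
            _ ≤ (2 * H * t) ^ Fintype.card W * ((∏ w, A w) * ((2 * H * t) ^ Fintype.card V * ∏ v, s v)) :=
                mul_le_mul_of_nonneg_right h3 (by positivity)
            _ = _ := by ring
        have h5 := div_le_div_of_nonneg_right h4 hN.le
        linarith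
      · intro x hx y hy
        obtain ⟨p, hp, rfl⟩ := Finset.mem_image.1 hx
        obtain ⟨q, hq, rfl⟩ := Finset.mem_image.1 hy
        exact Ideal.sub_mem _ (hcong p (hS1S p hp)).2 (hcong q (hS1S q hq)).2
      · intro x hx w
        obtain ⟨p, hp, rfl⟩ := Finset.mem_image.1 hx
        exact (hW p (hS1S p hp) w).2.1
      · intro x hx v
        obtain ⟨p, hp, rfl⟩ := Finset.mem_image.1 hx
        rw [sub_zero]
        have hp' := hS1S p hp
        obtain ⟨q1, q2, q3, q4⟩ := hpos p hp' v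
        have h3 := hreal p hp' v
        have h4 := hV p hp' v
        have h5 : (√(-φ v a) * |φ v (p.2.1 : K)|) ^ 2 ≤ (t * s v) ^ 2 := by
          rw [mul_pow, Real.sq_sqrt (by linarith [(hab v).1]), sq_abs]
          linarith
        have h6 := abs_le_of_sq_le_sq h5 (mul_nonneg ht0.le (hs v))
        rw [abs_of_nonneg (by positivity)] at h6
        have h7 := hHa v
        have h8 := abs_nonneg (φ v (p.2.1 : K))
        calc |φ v (p.2.1 : K)| = 1 * |φ v (p.2.1 : K)| := (one_mul _).symm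
          _ ≤ (H * √(-φ v a)) * |φ v (p.2.1 : K)| := mul_le_mul_of_nonneg_right h7 h8
          _ = H * (√(-φ v a) * |φ v (p.2.1 : K)|) := by ring
          _ ≤ H * (t * s v) := mul_le_mul_of_nonneg_left h6 (by linarith)
    · intro x1 hx1
      set S2 := S1.filter fun p => p.2.1 = x1 with hS2
      have hS2S : ∀ p ∈ S2, p ∈ S ∧ p.1 = x0 ∧ p.2.1 = x1 := fun p hp =>
        ⟨hS1S p (Finset.mem_filter.1 hp).1, (Finset.mem_filter.1 (Finset.mem_filter.1 hp).1).2, (Finset.mem_filter.1 hp).2⟩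
      have hinj2 : Set.InjOn (fun p : 𝓞 K × 𝓞 K × 𝓞 K × 𝓞 K => p.2.2) S2 := by
        intro p hp q hq hpq
        obtain ⟨-, p1, p2⟩ := hS2S p hp
        obtain ⟨-, q1, q2⟩ := hS2S q hq
        exact Prod.ext (p1.trans q1.symm) (Prod.ext (p2.trans q2.symm) hpq)
      have hc2 : S2.card = (S2.image fun p => p.2.2).card := (Finset.card_image_of_injOn hinj2).symm
      rw [hc2]
      rcases S2.eq_empty_or_nonempty with he | ⟨p0, hp0⟩
      · rw [he]
        simpa using hr20
      have hb0 : b ≠ 0 := by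
        rintro rfl
        have := (hab v₀).2
        simp at this
      set m : 𝓞 K := p0.2.2.1 ^ 2 - a * p0.2.2.2 ^ 2 with hm
      have hall : ∀ p ∈ S2, p.2.2.1 ^ 2 - a * p.2.2.2 ^ 2 = m := by
        intro p hp
        obtain ⟨p1, p2, p3⟩ := hS2S p hp
        obtain ⟨q1, q2, q3⟩ := hS2S p0 hp0
        have e1 := hnrd p p1
        have e2 := hnrd p0 q1
        rw [p2, p3] at e1
        rw [q2, q3] at e2
        apply mul_left_cancel₀ hb0
        rw [hm]
        linear_combination e2 - e1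
      by_cases hm0 : m = 0
      · have hzero : ∀ p ∈ S2, p.2.2 = (0, 0) := by
          intro p hp
          have h1 := hall p hp
          rw [hm0] at h1
          have h2 := congrArg (fun t : 𝓞 K => φ v₀ (t : K)) h1
          push_cast at h2
          simp only [map_sub, map_mul, map_pow, map_zero] at h2
          have ha0 := (hab v₀).1
          have h3 : φ v₀ (p.2.2.1 : K) ^ 2 = 0 := by nlinarith [sq_nonneg (φ v₀ (p.2.2.1 : K)), sq_nonneg (φ v₀ (p.2.2.2 : K))]
          have h4 : φ v₀ (p.2.2.2 : K) ^ 2 = 0 := by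
            rw [h3] at h2
            have : φ v₀ (a : K) * φ v₀ (p.2.2.2 : K) ^ 2 = 0 := by linarith
            exact (mul_eq_zero.1 this).resolve_left ha0.ne
          have h5 : p.2.2.1 = 0 := NumberField.RingOfIntegers.ext ((map_eq_zero (φ v₀)).1 (pow_eq_zero_iff two_ne_zero |>.1 h3))
          have h6 : p.2.2.2 = 0 := NumberField.RingOfIntegers.ext ((map_eq_zero (φ v₀)).1 (pow_eq_zero_iff two_ne_zero |>.1 h4))
          exact Prod.ext h5 h6
        have h1 : (S2.image fun p => p.2.2) ⊆ {(0, 0)} := by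
          intro q hq
          obtain ⟨p, hp, rfl⟩ := Finset.mem_image.1 hq
          rw [Finset.mem_singleton]
          exact hzero p hp
        have h2 := Finset.card_le_card h1
        rw [Finset.card_singleton] at h2
        have h3 : ((S2.image fun p => p.2.2).card : ℝ) ≤ 1 := by exact_mod_cast h2
        have h4 : 0 ≤ C * (2 * H * t * ∏ w, A w) ^ δ := mul_nonneg hC.le (Real.rpow_nonneg (by linarith) _)
        rw [hr2]
        linarith
      · have key := hnorm K hd a ?_ m hm0 (2 * H * t * ∏ w, A w) hX1 (S2.image fun p => p.2.2) ?_ ?_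
        · rw [hr2]
          linarith
        · intro x hx
          have h1 : φ v₀ x ^ 2 = φ v₀ a := by rw [← map_pow, hx]
          have := (hab v₀).1
          nlinarith [sq_nonneg (φ v₀ x)]
        · intro q hq
          obtain ⟨p, hp, rfl⟩ := Finset.mem_image.1 hq
          exact hall p hp
        · intro q hq σ
          obtain ⟨p, hp, rfl⟩ := Finset.mem_image.1 hq
          obtain ⟨pS, -, -⟩ := hS2S p hp
          obtain ⟨i, hi⟩ := exists_place ψ φ hinj hcard σ
          rw [hi, hi, hi, Complex.norm_real, Complex.norm_real, Complex.norm_real, Real.norm_eq_abs, Real.norm_eq_abs,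
            Real.norm_eq_abs]
          rcases i with w | v
          · simp only [Sum.elim_inl]
            obtain ⟨-, -, h2, h3⟩ := hW p pS w
            have h4 := hHw w
            have h5 := Real.sqrt_nonneg (ψ w (a : K))
            rw [abs_of_pos (ha w)]
            have h6 := hAw w
            have h7 := hA1 w
            calc |ψ w (p.2.2.1 : K)| + |ψ w (p.2.2.2 : K)| * √(ψ w a) ≤ t * A w + t * A w * √(ψ w a) :=
                  add_le_add h2 (mul_le_mul_of_nonneg_right h3 h5)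
              _ = t * A w * (1 + √(ψ w a)) := by ring
              _ ≤ t * A w * H := mul_le_mul_of_nonneg_left h4 (by positivity)
              _ ≤ t * (∏ w, A w) * H := by gcongr
              _ ≤ t * (∏ w, A w) * H * 2 := le_mul_of_one_le_right (by positivity) (by norm_num)
              _ = 2 * H * t * ∏ w, A w := by ring
          · simp only [Sum.elim_inr]
            obtain ⟨q1, q2, q3, q4⟩ := hpos p pS v
            have h3 := hreal p pS v
            obtain ⟨ha1, hb1⟩ := hab v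
            have h7 := hHb v
            have hsb := Real.sqrt_nonneg (-φ v b)
            have h4 : (√(-φ v b) * |φ v (p.2.2.1 : K)|) ^ 2 ≤ (t : ℝ) ^ 2 := by
              rw [mul_pow, Real.sq_sqrt (by linarith), sq_abs]
              linarith
            have h5 : (√(-φ v b) * (|φ v (p.2.2.2 : K)| * √|φ v a|)) ^ 2 ≤ (t : ℝ) ^ 2 := by
              rw [mul_pow, mul_pow, Real.sq_sqrt (by linarith), Real.sq_sqrt (abs_nonneg _), sq_abs, abs_of_neg ha1]
              nlinarith
            have h4' := abs_le_of_sq_le_sq h4 ht0.le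
            have h5' := abs_le_of_sq_le_sq h5 ht0.le
            rw [abs_of_nonneg (by positivity)] at h4' h5'
            have h8 : ∀ y : ℝ, 0 ≤ y → √(-φ v b) * y ≤ t → y ≤ H * t := by
              intro y hy h9
              calc y = 1 * y := (one_mul _).symm
                _ ≤ (H * √(-φ v b)) * y := mul_le_mul_of_nonneg_right h7 hy
                _ = H * (√(-φ v b) * y) := by ring
                _ ≤ H * t := mul_le_mul_of_nonneg_left h9 (by linarith)
            have h9 := h8 _ (abs_nonneg _) h4'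
            have h10 := h8 _ (by positivity) h5'
            calc |φ v (p.2.2.1 : K)| + |φ v (p.2.2.2 : K)| * √|φ v a| ≤ H * t + H * t := add_le_add h9 h10
              _ = 2 * H * t * 1 := by ring
              _ ≤ 2 * H * t * ∏ w, A w := mul_le_mul_of_nonneg_left hAp (by linarith)

end Pool.Agent.H496.R7
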