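import Pool.Agent.H496.R7.Kern

/-! The main estimate with several exceptional places and a discrete factor. -/

set_option autoImplicit false

namespace Pool.Agent.H496.R7

open MeasureTheory Set Function
open UpperHalfPlane hiding I
open scoped ENNReal NNReal ComplexConjugate MatrixGroups
open Pool.Agent.H496 Pool.Agent.H496.R4 Pool.Agent.H496.R6
open Pool.Agent.T2H31 (rad EB)

section split
variable {W : Type*} [Fintype W] [DecidableEq W] (p : W → Prop) [DecidablePred p]

/-- the places with `p` -/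
abbrev WP (p : W → Prop) := {w : W // p w}

/-- the places without `p` -/
abbrev WQ (p : W → Prop) := {w : W // ¬ p w}

/-- a point with given coordinates at the places with and without `p` -/
def glue (u : WP p → ℍ) (z' : WQ p → ℍ) : W → ℍ := fun w => if h : p w then u ⟨w, h⟩ else z' ⟨w, h⟩

omit [Fintype W] [DecidableEq W] in
theorem glue_P (u : WP p → ℍ) (z' : WQ p → ℍ) (w : WP p) : glue p u z' w = u w := by
  rw [glue, dif_pos w.2]

omit [Fintype W] [DecidableEq W] in
theorem glue_Q (u : WP p → ℍ) (z' : WQ p → ℍ) (w : WQ p) : glue p u z' w = z' w := by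
  rw [glue, dif_neg w.2]

omit [Fintype W] [DecidableEq W] in
theorem glue_eta (z : W → ℍ) : glue p (fun w : WP p => z w) (fun w : WQ p => z w) = z := by
  funext w
  by_cases h : p w
  · rw [glue, dif_pos h]
  · rw [glue, dif_neg h]

omit [Fintype W] in
theorem update_glue_P (u : WP p → ℍ) (z' : WQ p → ℍ) (w : WP p) (v : ℍ) :
    update (glue p u z') w v = glue p (update u w v) z' := by
  funext x
  by_cases hx : p x
  · by_cases hw : x = w
    · subst hw
      rw [update_self, glue_P, update_self]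
    · rw [update_of_ne hw, glue, dif_pos hx, glue, dif_pos hx, update_of_ne]
      intro h
      exact hw (congrArg Subtype.val h)
  · rw [update_of_ne, glue, dif_neg hx, glue, dif_neg hx]
    rintro rfl
    exact hx w.2

omit [Fintype W] in
theorem update_glue_Q (u : WP p → ℍ) (z' : WQ p → ℍ) (w : WQ p) (v : ℍ) :
    update (glue p u z') w v = glue p u (update z' w v) := by
  funext x
  by_cases hx : p x
  · rw [update_of_ne, glue, dif_pos hx, glue, dif_pos hx]
    rintro rfl
    exact w.2 hx
  · by_cases hw : x = w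
    · subst hw
      rw [update_self, glue_Q, update_self]
    · rw [update_of_ne hw, glue, dif_neg hx, glue, dif_neg hx, update_of_ne]
      intro h
      exact hw (congrArg Subtype.val h)

omit [DecidableEq W] in
theorem mp_glue : MeasurePreserving (fun t : (WP p → ℍ) × (WQ p → ℍ) => glue p t.1 t.2)
    ((volume : Measure (WP p → ℍ)).prod (volume : Measure (WQ p → ℍ))) (volume : Measure (W → ℍ)) := by
  have h := (volume_preserving_piEquivPiSubtypeProd (fun _ : W => ℍ) p).symm
    (MeasurableEquiv.piEquivPiSubtypeProd (fun _ : W => ℍ) p)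
  exact h

omit [Fintype W] [DecidableEq W] in
theorem continuous_glue : Continuous fun t : (WP p → ℍ) × (WQ p → ℍ) => glue p t.1 t.2 := by
  refine continuous_pi fun w => ?_
  by_cases h : p w
  · simp only [glue, dif_pos h]
    exact (continuous_apply _).comp continuous_fst
  · simp only [glue, dif_neg h]
    exact (continuous_apply _).comp continuous_snd

variable {Y : Type*} [Countable Y] [MeasurableSpace Y] [MeasurableSingletonClass Y]

/-- rearrangement -/
def rea (t : ((WP p → ℍ) × Y) × (WQ p → ℍ)) : (W → ℍ) × Y := (glue p t.1.1 t.2, t.1.2)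

omit [DecidableEq W] [MeasurableSingletonClass Y] in
theorem mp_rea : MeasurePreserving (rea (Y := Y) p)
    (((volume : Measure (WP p → ℍ)).prod (Measure.count : Measure Y)).prod (volume : Measure (WQ p → ℍ)))
    ((volume : Measure (W → ℍ)).prod (Measure.count : Measure Y)) := by
  have h1 := measurePreserving_prodAssoc (volume : Measure (WP p → ℍ)) (Measure.count : Measure Y)
    (volume : Measure (WQ p → ℍ))
  have h2 : MeasurePreserving (Prod.map (id : (WP p → ℍ) → _) (Prod.swap : Y × (WQ p → ℍ) → _))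
      ((volume : Measure (WP p → ℍ)).prod ((Measure.count : Measure Y).prod (volume : Measure (WQ p → ℍ))))
      ((volume : Measure (WP p → ℍ)).prod ((volume : Measure (WQ p → ℍ)).prod (Measure.count : Measure Y))) :=
    (MeasurePreserving.id (volume : Measure (WP p → ℍ))).prod Measure.measurePreserving_swap
  have h3 := (measurePreserving_prodAssoc (volume : Measure (WP p → ℍ)) (volume : Measure (WQ p → ℍ))
    (Measure.count : Measure Y)).symm MeasurableEquiv.prodAssoc
  have h4 : MeasurePreserving (Prod.map (fun t : (WP p → ℍ) × (WQ p → ℍ) => glue p t.1 t.2) (id : Y → Y))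
      (((volume : Measure (WP p → ℍ)).prod (volume : Measure (WQ p → ℍ))).prod (Measure.count : Measure Y))
      ((volume : Measure (W → ℍ)).prod (Measure.count : Measure Y)) :=
    (mp_glue p).prod (MeasurePreserving.id (Measure.count : Measure Y))
  exact h4.comp (h3.comp (h2.comp h1))

end split

theorem int_finset {A Y : Type*} [MeasurableSpace A] [MeasurableSpace Y] [MeasurableSingletonClass Y] [Countable Y]
    (μ : Measure A) [SigmaFinite μ] (B : Set A) (Bl : Finset Y) (g : A × Y → ℂ)
    (hg : ∀ y, IntegrableOn (fun u => g (u, y)) B μ) (hgm : Measurable g) :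
    ∫ t in B ×ˢ (Bl : Set Y), g t ∂(μ.prod Measure.count) = ∫ u in B, ∑ y ∈ Bl, g (u, y) ∂μ := by
  have hfin : ∀ {E : Type} [NormedAddCommGroup E] (f : Y → E), IntegrableOn f (Bl : Set Y) Measure.count := fun f => by
    rw [← (Bl : Set Y).biUnion_of_singleton]
    simp only [Finset.mem_coe]
    rw [integrableOn_finset_iUnion]
    intro y _
    exact integrableOn_singleton (by simp) (by rw [Measure.count_singleton]; exact ENNReal.one_lt_top)
  have hint : IntegrableOn g (B ×ˢ (Bl : Set Y)) (μ.prod Measure.count) := by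
    rw [IntegrableOn, ← Measure.prod_restrict, integrable_prod_iff' hgm.aestronglyMeasurable]
    exact ⟨Filter.Eventually.of_forall fun y => hg y, hfin _⟩
  rw [setIntegral_prod _ hint]
  refine integral_congr_ae (Filter.Eventually.of_forall fun u => ?_)
  simp only
  rw [setIntegral_finset Bl (hfin _)]
  refine Finset.sum_congr rfl fun y _ => ?_
  rw [Measure.real, Measure.count_singleton, ENNReal.toReal_one, one_smul]

section core
variable {W : Type} {V J G Y : Type*} [Fintype W] [DecidableEq W] [Fintype V] [DecidableEq V] [Fintype J] [DecidableEq J]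
  [Group G] [Countable G] [Countable Y] [MulAction G Y] [MeasurableSpace Y] [MeasurableSingletonClass Y]
  (p : W → Prop) [DecidablePred p]
  (r : W → G →* SL(2, ℝ)) (σ : V → G →* Quaternion ℝ) (hσ : ∀ v γ, ‖σ v γ‖ = 1)
  {U L : W → ℝ}
  (f : J → (W → ℍ) → Y → (V → Quaternion ℝ) → ℂ) {lam : J → W → ℝ} {n : V → ℕ}
  {F : Set ((W → ℍ) × Y)}

include hσ in
theorem coreZ (hU : ∀ w, 6 ≤ U w) (hL : ∀ w, 1 ≤ L w)
    (hF : MeasurableSet F) (hcov : ∀ᵐ q ∂((volume : Measure (W → ℍ)).prod (Measure.count : Measure Y)),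
      {γ : G | ((fun w => r w γ • q.1 w), γ • q.2) ∈ F}.Finite ∧ ∃ γ : G, ((fun w => r w γ • q.1 w), γ • q.2) ∈ F)
    (hfc : ∀ j y, Continuous (uncurry fun z x => f j z y x))
    (hinv : ∀ j γ z y x, f j (fun w => r w γ • z w) (γ • y) (fun v => σ v γ * x v) = f j z y x)
    (y0 : Y) (hE : ∀ j w z x, Eig (fun u => f j (update z w u) y0 x) (lam j w))
    (hn : ∀ j z y, f j z y ∈ harm n)
    (ho : ∀ i j, ∫ q : ((W → ℍ) × Y) × (V → S3), f i q.1.1 q.1.2 (fun v => q.2 v) *
      conj (f j q.1.1 q.1.2 (fun v => q.2 v))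
      ∂((((volume : Measure (W → ℍ)).prod (Measure.count : Measure Y)).restrict F).prod (sgV V)) = if i = j then 1 else 0)
    (hlam2 : ∀ j, ∀ w, ¬ p w → |lam j w| ≤ L w)
    {ϑ : J → W → ℝ} (hϑ : ∀ j w, p w → 0 ≤ ϑ j w) (hϑ2 : ∀ j w, p w → ϑ j w ≤ 1 / 2)
    (hlam : ∀ j w, p w → lam j w ≤ 1 / 4 - ϑ j w ^ 2)
    (Bl : Finset Y) {h' : J → ℝ} (hh'0 : ∀ j, 0 < h' j)
    (hball : ∀ j z x, ∑ y ∈ Bl, f j z y x = (h' j : ℂ) * f j z y0 x)
    (z : W → ℍ) {S : ℝ} (hS0 : 0 ≤ S)
    (hS : ∑' δ : G, ENNReal.ofReal |TH n (sS σ hσ δ)| *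
      (((volume : Measure (WP p → ℍ)) (BP (fun w : WP p => U w) (fun w => z w) ∩
        (fun (u : WP p → ℍ) (w : WP p) => r w δ • u w) ⁻¹' BP (fun w : WP p => U w) (fun w => z w)) *
        (Measure.count : Measure Y) ((Bl : Set Y) ∩ (fun y => δ • y) ⁻¹' Bl)) *
      {δ : G | ∃ z' ∈ EQ (fun w : WQ p => L w) (fun w => z w), (fun w : WQ p => r w δ • z' w) ∈
        EQ (fun w : WQ p => L w) (fun w => z w)}.indicator 1 δ) ≤ ENNReal.ofReal S) (x : V → S3) :
    ∑ j, ((∏ w : WP p, U w ^ (1 + 2 * ϑ j w)) * h' j ^ 2) * ‖f j z y0 (fun v => (x v : Quaternion ℝ))‖ ^ 2 ≤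
      (∏ w : WQ p, (17 * L w)) * S := by
  have hU0 : ∀ w, 0 < U w := fun w => by linarith [hU w]
  have hU1 : ∀ w, 1 ≤ U w := fun w => by linarith [hU w]
  have hLpos : ∀ w, 0 < L w := fun w => by linarith [hL w]
  set xx : V → Quaternion ℝ := fun v => (x v : Quaternion ℝ) with hxx
  set hT' : J → ℝ := fun j => (∏ w : WP p, hT (U w) (sp (lam j w))) * h' j with hhT'
  have hh1 : ∀ j, ∀ w : WP p, U w ^ (1 / 2 + ϑ j w) ≤ hT (U w) (sp (lam j w)) := fun j w =>
    hT_ge (hU w) (hϑ j w w.2) (hϑ2 j w w.2) (sp_ge (hlam j w w.2))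
  have hh10 : ∀ j, ∀ w : WP p, 0 < U w ^ (1 / 2 + ϑ j w) := fun j w => by
    have := hU0 w
    positivity
  have hh : ∀ j, (∏ w : WP p, U w ^ (1 / 2 + ϑ j w)) * h' j ≤ hT' j := fun j =>
    mul_le_mul_of_nonneg_right (Finset.prod_le_prod (fun w _ => (hh10 j w).le) fun w _ => hh1 j w) (hh'0 j).le
  have hh0 : ∀ j, 0 < hT' j := fun j => lt_of_lt_of_le (mul_pos (Finset.prod_pos fun w _ => hh10 j w) (hh'0 j)) (hh j)
  have hval : Continuous fun y : V → S3 => fun v => (y v : Quaternion ℝ) :=
    continuous_pi fun v => continuous_subtype_val.comp (continuous_apply v)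
  have hcm := continuous_glue (W := W) p
  -- the functions on the product
  set e : J → (WQ p → ℍ) → ((WP p → ℍ) × (V → Quaternion ℝ)) → ℂ := fun j z' y => f j (glue p y.1 z') y0 y.2 with he
  have hec : ∀ j y, Continuous fun z' => e j z' y := by
    intro j y
    have h1 : Continuous fun z' : WQ p → ℍ => (glue p y.1 z', y.2) :=
      (hcm.comp (continuous_const.prodMk continuous_id)).prodMk continuous_const
    exact (hfc j y0).comp h1
  have hmeas : ∀ c y, Measurable fun z' => NN e c z' y := by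
    intro c y
    have h1 : Continuous fun z' => ‖∑ j, c j * e j z' y‖ ^ 2 :=
      (continuous_finsetSum _ fun j _ => continuous_const.mul (hec j y)).norm.pow 2
    exact h1.measurable.ennreal_ofReal
  set A : WQ p → Fin 2 → ℝ≥0∞ := fun w t => if t = 0 then ENNReal.ofReal (16 * L w) else ENNReal.ofReal (1 / L w) with hA
  set m : WQ p → Fin 2 → J → ℝ := fun w t j => if t = 0 then 1 else lam j w with hm
  set Bs : WQ p → ℍ → Set ℍ := fun w u => EB u (1 / (2 * Real.sqrt (L w))) with hBs
  have hA1 : ∀ w c z' y, NN e c z' y ≤ ∑ t : Fin 2, A w t *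
      ∫⁻ u in Bs w (z' w), NN e (fun j => (m w t j : ℂ) * c j) (update z' w u) y := by
    intro w c z' y
    rw [Fin.sum_univ_two]
    have key := loc_complex (e := fun j u => f j (update (glue p y.1 z') w u) y0 y.2) (lam := fun j => lam j w)
      (fun j => hE j w (glue p y.1 z') y.2) (hL w) c (z' w)
    simp only [update_glue_Q, update_eq_self] at key
    simp only [hA, hm, if_true, one_ne_zero, if_false, Complex.ofReal_one, one_mul]
    exact key
  have hC1 : ∀ (w : WQ p) (j : J), ∑ t : Fin 2, A w t * ENNReal.ofReal (m w t j ^ 2) ≤ ENNReal.ofReal (17 * L w) := by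
    intro w j
    have hLw := hL w
    have hl := hlam2 j w w.2
    have hsq : lam j w ^ 2 ≤ L w ^ 2 := by
      rw [← sq_abs (lam j w)]
      gcongr
    rw [Fin.sum_univ_two]
    simp only [hA, hm, if_true, one_ne_zero, if_false, one_pow, ENNReal.ofReal_one, mul_one]
    rw [← ENNReal.ofReal_mul (by positivity), ← ENNReal.ofReal_add (by positivity) (by positivity)]
    apply ENNReal.ofReal_le_ofReal
    have h5 : 1 / L w * lam j w ^ 2 ≤ L w := by
      rw [div_mul_eq_mul_div, one_mul, div_le_iff₀ (by linarith)]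
      nlinarith
    linarith
  obtain ⟨ι, hι, A', m', hb, hmain⟩ := all_places (volume : Measure ℍ) e A m Bs
    (fun w _ => ENNReal.ofReal (17 * L w)) hA1 hC1 hmeas
  set zP : WP p → ℍ := fun w => z w with hzP
  set zQ : WQ p → ℍ := fun w => z w with hzQ
  have hmkz : glue p zP zQ = z := glue_eta p z
  set UP : WP p → ℝ := fun w => U w with hUP
  set LQ : WQ p → ℝ := fun w => L w with hLQ
  set B0 : Set (WP p → ℍ) := BP UP zP with hB0
  have hB0m : MeasurableSet B0 := MeasurableSet.univ_pi fun w => measurableSet_BD _ (rr_lt (hU1 w))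
  set K0 : WP p → Set ℍ := fun w => Metric.closedBall (zP w) (rad (UP w)) with hK0
  have hK0c : ∀ w, IsCompact (K0 w) := fun w => ProperSpace.isCompact_closedBall _ _
  have hB0c : ∀ w, BD (zP w) (rr (UP w)) ⊆ K0 w := fun w => BD_sub (hU1 w) _
  have hB0sub : B0 ⊆ univ.pi K0 := Set.pi_mono fun w _ => hB0c w
  have hKPc : IsCompact (univ.pi K0) := isCompact_univ_pi hK0c
  set B : Set ((WP p → ℍ) × Y) := B0 ×ˢ (Bl : Set Y) with hB
  have hBm : MeasurableSet B := hB0m.prod Bl.measurableSet
  have hBfin : ((volume : Measure (WP p → ℍ)).prod (Measure.count : Measure Y)) B ≠ ∞ := by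
    rw [hB, Measure.prod_prod]
    refine ENNReal.mul_ne_top ((measure_mono hB0sub).trans_lt hKPc.measure_lt_top).ne ?_
    rw [Measure.count_apply_finset]
    exact ENNReal.natCast_ne_top _
  set E : Set (WQ p → ℍ) := EQ LQ zQ with hEdef
  have hEm : MeasurableSet E := MeasurableSet.univ_pi fun w => (Pool.Agent.T2H31.isClosed_EB _ _).measurableSet
  set E1 : Set (WQ p → ℍ) := univ.pi fun w : WQ p => Metric.closedBall (z w) 1 with hE1
  have hE1c : IsCompact E1 := isCompact_univ_pi fun w => ProperSpace.isCompact_closedBall _ _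
  have hEsub : E ⊆ E1 := by
    intro z' hz' w _
    have hs : 1 ≤ Real.sqrt (L w) := Real.one_le_sqrt.2 (hL w)
    have hρ0 : 0 ≤ 1 / (2 * Real.sqrt (L w)) := by positivity
    have hρ : 1 / (2 * Real.sqrt (L w)) ≤ 1 / 2 := by
      gcongr
      linarith
    have a1 := Pool.Agent.T2H31.dist_of_EB hρ0 hρ (hz' w (mem_univ _))
    rw [Metric.mem_closedBall]
    linarith
  have hEfin : (volume : Measure (WQ p → ℍ)) E ≠ ∞ := ((measure_mono hEsub).trans_lt hE1c.measure_lt_top).ne
  -- the weight function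
  set T1 : G → (WP p → ℍ) × Y → (WP p → ℍ) × Y := fun γ t => ((fun w => r w γ • t.1 w), γ • t.2) with hT1
  set T2 : G → (WQ p → ℍ) → (WQ p → ℍ) := fun γ z' w => r w γ • z' w with hT2
  have h11 : ∀ u, T1 1 u = u := fun u => by
    refine Prod.ext ?_ (one_smul G u.2)
    funext w
    simp only [hT1, map_one, one_smul]
  have h12 : ∀ γ δ u, T1 (γ * δ) u = T1 γ (T1 δ u) := fun γ δ u => by
    refine Prod.ext ?_ (mul_smul γ δ u.2)
    funext w
    simp only [hT1, map_mul, mul_smul]
  have hsmP : ∀ γ : G, MeasurePreserving (fun (u : WP p → ℍ) (w : WP p) => r w γ • u w) (volume : Measure (WP p → ℍ)) volume := fun γ =>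
    measurePreserving_pi _ _ fun w : WP p =>
      measurePreserving_smul ((r w γ : SL(2, ℝ)) : GL (Fin 2) ℝ) (volume : Measure ℍ)
  have hsmY : ∀ γ : G, MeasurePreserving (fun y : Y => γ • y) (Measure.count : Measure Y) Measure.count := fun γ => by
    refine ⟨measurable_of_countable _, ?_⟩
    ext s hs
    rw [Measure.map_apply (measurable_of_countable _) hs, Measure.count_apply hs,
      Measure.count_apply (measurable_of_countable (fun y : Y => γ • y) hs)]
    have : (fun y : Y => γ • y) ⁻¹' s = (fun y : Y => γ⁻¹ • y) '' s := by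
      ext y
      constructor
      · intro hy
        exact ⟨γ • y, hy, inv_smul_smul γ y⟩
      · rintro ⟨y', hy', rfl⟩
        show γ • γ⁻¹ • y' ∈ s
        rwa [smul_inv_smul]
    rw [this]
    congr 1
    exact (MulAction.injective γ⁻¹).encard_image s
  have h13 : ∀ γ, MeasurePreserving (T1 γ) ((volume : Measure (WP p → ℍ)).prod (Measure.count : Measure Y))
      ((volume : Measure (WP p → ℍ)).prod (Measure.count : Measure Y)) := fun γ => (hsmP γ).prod (hsmY γ)
  have h21 : ∀ z', T2 1 z' = z' := fun z' => by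
    funext w
    simp only [hT2, map_one, one_smul]
  have h22 : ∀ γ δ z', T2 (γ * δ) z' = T2 γ (T2 δ z') := fun γ δ z' => by
    funext w
    simp only [hT2, map_mul, mul_smul]
  have h23 : ∀ γ, MeasurePreserving (T2 γ) (volume : Measure (WQ p → ℍ)) volume := fun γ =>
    measurePreserving_pi _ _ fun w : WQ p =>
      measurePreserving_smul ((r w γ : SL(2, ℝ)) : GL (Fin 2) ℝ) (volume : Measure ℍ)
  have hmkT : ∀ γ (t : ((WP p → ℍ) × Y) × (WQ p → ℍ)), rea p (T1 γ t.1, T2 γ t.2) =
      ((fun w => r w γ • (rea p t).1 w), γ • (rea p t).2) := by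
    intro γ t
    refine Prod.ext ?_ rfl
    funext w
    by_cases h : p w
    · simp only [rea, glue, dif_pos h, hT1]
    · simp only [rea, glue, dif_neg h, hT2]
  set F' : Set (((WP p → ℍ) × Y) × (WQ p → ℍ)) := rea p ⁻¹' F with hF'
  have hF'm : MeasurableSet F' := (mp_rea (Y := Y) p).measurable hF
  obtain ⟨ω, hω, hω1, hω2⟩ := exists_omega
    (((volume : Measure (WP p → ℍ)).prod (Measure.count : Measure Y)).prod (volume : Measure (WQ p → ℍ)))
    (fun (γ : G) t => (T1 γ t.1, T2 γ t.2))
    (fun γ δ t => by simp only [h12, h22]) (fun t => by simp only [h11, h21])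
    (fun γ => ((h13 γ).prod (h23 γ)).measurable) hF'm (by
      have h1 := (mp_rea (Y := Y) p).quasiMeasurePreserving.ae hcov
      filter_upwards [h1] with t ht
      have e1 : ∀ γ : G, ((T1 γ t.1, T2 γ t.2) ∈ F') = (((fun w => r w γ • (rea p t).1 w), γ • (rea p t).2) ∈ F) := by
        intro γ
        show (rea p (T1 γ t.1, T2 γ t.2) ∈ F) = _
        rw [hmkT γ t]
      simp only [e1]
      exact ht)
  -- the linear identity and duality
  have hkey : ∀ c : J → ℂ, ∫⁻ z' in E, NN e c z' (zP, xx) ≤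
      ENNReal.ofReal S * ENNReal.ofReal (∑ j, ‖((hT' j)⁻¹ : ℂ) * c j‖ ^ 2) := by
    intro c
    set d : J → ℂ := fun j => ((hT' j)⁻¹ : ℂ) * c j with hd
    set g : ((WP p → ℍ) × Y) × (WQ p → ℍ) → (V → S3) → ℂ := fun t y => ∑ j, d j * f j (glue p t.1.1 t.2) t.1.2 (fun v => (y v : Quaternion ℝ)) with hg
    have hfp : ∀ j y, Continuous fun t : ((WP p → ℍ) × (WQ p → ℍ)) × (V → S3) =>
        f j (glue p t.1.1 t.1.2) y (fun v => (t.2 v : Quaternion ℝ)) := by
      intro j y
      have h1 : Continuous fun t : ((WP p → ℍ) × (WQ p → ℍ)) × (V → S3) =>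
          (glue p t.1.1 t.1.2, fun v => (t.2 v : Quaternion ℝ)) :=
        (hcm.comp continuous_fst).prodMk (hval.comp continuous_snd)
      exact (hfc j y).comp h1
    set g0 : (((WP p → ℍ) × (WQ p → ℍ)) × (V → S3)) × Y → ℂ := fun t =>
      ∑ j, d j * f j (glue p t.1.1.1 t.1.1.2) t.2 (fun v => (t.1.2 v : Quaternion ℝ)) with hg0
    have hg0c : ∀ y, Continuous fun t => g0 (t, y) := fun y =>
      continuous_finsetSum _ fun j _ => continuous_const.mul (hfp j y)
    have hg0m : Measurable g0 := measurable_from_prod_countable_left fun y => (hg0c y).measurable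
    have hgm : Measurable (uncurry g) := by
      have h1 : Measurable fun t : (((WP p → ℍ) × Y) × (WQ p → ℍ)) × (V → S3) =>
          ((((t.1.1.1, t.1.2), t.2), t.1.1.2) : (((WP p → ℍ) × (WQ p → ℍ)) × (V → S3)) × Y) :=
        (((measurable_fst.comp (measurable_fst.comp measurable_fst)).prodMk (measurable_snd.comp measurable_fst)).prodMk
          measurable_snd).prodMk (measurable_snd.comp (measurable_fst.comp measurable_fst))
      exact hg0m.comp h1
    have hgc : ∀ t, Continuous (g t) := fun t => by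
      have h := (hg0c t.1.2).comp (continuous_const.prodMk continuous_id :
        Continuous fun y : V → S3 => ((t.1.1, t.2), y))
      exact h
    have hharm : ∀ t : ((WP p → ℍ) × Y) × (WQ p → ℍ),
        (fun y : V → Quaternion ℝ => ∑ j, d j * f j (glue p t.1.1 t.2) t.1.2 y) ∈ harm n := by
      intro t
      have : (fun y : V → Quaternion ℝ => ∑ j, d j * f j (glue p t.1.1 t.2) t.1.2 y) =
          ∑ j, d j • f j (glue p t.1.1 t.2) t.1.2 := by
        funext y
        simp
      rw [this]
      exact Submodule.sum_mem _ fun j _ => Submodule.smul_mem _ _ (hn j _ _)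
    have hrep : ∀ t y, ∫ c, g t (y * c) * ((TH n c : ℝ) : ℂ) ∂(sgV V) = g t y := fun t y => repr_harm (hharm t) y
    have hgi : ∀ (γ : G) t y, g (T1 γ t.1, T2 γ t.2) (sS σ hσ γ * y) = g t y := by
      intro γ t y
      simp only [hg]
      refine Finset.sum_congr rfl fun j _ => ?_
      congr 1
      have h1 : glue p (T1 γ t.1).1 (T2 γ t.2) = fun w => r w γ • glue p t.1.1 t.2 w := congrArg Prod.fst (hmkT γ t)
      rw [h1]
      exact hinv j γ (glue p t.1.1 t.2) t.1.2 (fun v => (y v : Quaternion ℝ))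
    obtain ⟨k, hk⟩ : ∃ k, ∀ y ∈ Bl, ∀ q ∈ univ.pi K0 ×ˢ E1, ‖g ((q.1, y), q.2) x‖ ≤ k := by
      have h1 : ∀ y, ∃ k, ∀ q ∈ univ.pi K0 ×ˢ E1, ‖g ((q.1, y), q.2) x‖ ≤ k := by
        intro y
        refine (hKPc.prod hE1c).exists_bound_of_continuousOn ?_
        have h : Continuous fun q : (WP p → ℍ) × (WQ p → ℍ) => g ((q.1, y), q.2) x :=
          (hg0c y).comp (continuous_id.prodMk continuous_const :
            Continuous fun q : (WP p → ℍ) × (WQ p → ℍ) => (q, x))
        exact h.continuousOn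
      choose k hk using h1
      refine ⟨∑ y ∈ Bl, |k y|, fun y hy q hq => (hk y q hq).trans ((le_abs_self _).trans ?_)⟩
      exact Finset.single_le_sum (f := fun y => |k y|) (fun _ _ => abs_nonneg _) hy
    have hsmul : ∀ g h : G, sS σ hσ (g * h) = sS σ hσ g * sS σ hσ h := by
      intro a b
      funext v
      apply Subtype.ext
      exact map_mul (σ v) a b
    have hBint : ∀ δ : G, ((volume : Measure (WP p → ℍ)).prod (Measure.count : Measure Y)) (B ∩ (T1 δ) ⁻¹' B) =
        (volume : Measure (WP p → ℍ)) (B0 ∩ (fun (u : WP p → ℍ) (w : WP p) => r w δ • u w) ⁻¹' B0) *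
        (Measure.count : Measure Y) ((Bl : Set Y) ∩ (fun y => δ • y) ⁻¹' Bl) := by
      intro δ
      rw [← Measure.prod_prod]
      congr 1
      ext t
      simp only [hB, hT1, mem_inter_iff, mem_prod, mem_preimage]
      tauto
    have key := dual_main ((volume : Measure (WP p → ℍ)).prod (Measure.count : Measure Y))
      (volume : Measure (WQ p → ℍ)) T1 T2 h11 h12 h13 h21 h22 h23
      (sS σ hσ) hsmul g n hgc hrep hgi hgm hF'm hω hω1 hω2 hBm hBfin hEm hEfin (k := k) x
      (fun u hu z' hz' => hk u.2 hu.2 (u.1, z') ⟨hB0sub hu.1, hEsub hz'⟩) (S := ENNReal.ofReal S) (by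
        simp_rw [hBint]
        exact hS)
    have hlin : ∀ z' : WQ p → ℍ, ∫ u in B, g (u, z') x ∂((volume : Measure (WP p → ℍ)).prod (Measure.count : Measure Y)) =
        ∑ j, c j * e j z' (zP, xx) := by
      intro z'
      have hcg : ∀ y, Continuous fun u : WP p → ℍ => g ((u, y), z') x := fun y =>
        (hg0c y).comp ((continuous_id.prodMk continuous_const).prodMk continuous_const :
          Continuous fun u : WP p → ℍ => ((u, z'), x))
      rw [hB, int_finset (volume : Measure (WP p → ℍ)) B0 Bl (fun t => g (t, z') x)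
        (fun y => ((hcg y).continuousOn.integrableOn_compact hKPc).mono_set hB0sub)
        (measurable_from_prod_countable_left fun y => (hcg y).measurable)]
      have e1 : ∀ u : WP p → ℍ, ∑ y ∈ Bl, g ((u, y), z') x = ∑ j, d j * ((h' j : ℂ) * f j (glue p u z') y0 xx) := by
        intro u
        simp only [hg]
        rw [Finset.sum_comm]
        refine Finset.sum_congr rfl fun j _ => ?_
        rw [← Finset.mul_sum, ← hball j (glue p u z') xx]
      simp_rw [e1]
      have hcu : ∀ j, Continuous fun u : WP p → ℍ => f j (glue p u z') y0 xx := fun j =>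
        (hfc j y0).comp ((hcm.comp (continuous_id.prodMk continuous_const)).prodMk continuous_const :
          Continuous fun u : WP p → ℍ => (glue p u z', xx))
      rw [integral_finsetSum]
      · refine Finset.sum_congr rfl fun j _ => ?_
        rw [integral_const_mul, integral_const_mul]
        have h1 := pi_mean (Fintype.card (WP p)) (WP p) rfl (fun w => BD (zP w) (rr (UP w))) K0
          (fun w => measurableSet_BD _ (rr_lt (hU1 w))) hK0c hB0c (fun w => (hT (U w) (sp (lam j w)) : ℂ)) zP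
          (fun u => f j (glue p u z') y0 xx) (hcu j) (fun w u => by
            have h2 := mean_linear (hE j w (glue p u z') xx)
              (by have := hlam j w w.2; have := sq_nonneg (ϑ j w); linarith) (hU1 w) (z w)
            simp only [update_glue_P] at h2
            exact h2)
        rw [show (∫ u in B0, f j (glue p u z') y0 xx) =
          ∫ u in univ.pi fun w => BD (zP w) (rr (UP w)), f j (glue p u z') y0 xx from rfl, h1]
        simp only [hd, he, hhT']
        have h2 : ((((∏ w : WP p, hT (U w) (sp (lam j w))) * h' j : ℝ)) : ℂ) ≠ 0 := by exact_mod_cast (hh0 j).ne'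
        have h3 : (∏ w : WP p, (hT (U w) (sp (lam j w)) : ℂ)) * (h' j : ℂ) =
            ((((∏ w : WP p, hT (U w) (sp (lam j w))) * h' j : ℝ)) : ℂ) := by push_cast; rfl
        calc _ = ((((∏ w : WP p, hT (U w) (sp (lam j w))) * h' j : ℝ)) : ℂ)⁻¹ *
              ((∏ w : WP p, (hT (U w) (sp (lam j w)) : ℂ)) * (h' j : ℂ)) * (c j * f j (glue p zP z') y0 xx) := by
                ring
          _ = _ := by rw [h3, inv_mul_cancel₀ h2, one_mul]
      · intro j _
        exact ((((hcu j).const_mul _).const_mul _).continuousOn.integrableOn_compact hKPc).mono_set hB0sub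
    simp_rw [hlin] at key
    refine key.trans ?_
    rw [mul_comm]
    refine mul_le_mul' le_rfl (le_of_eq ?_)
    -- orthonormality
    set Ψ : (W → ℍ) × Y → ℝ≥0∞ := fun q =>
      ∫⁻ y, ENNReal.ofReal (‖∑ j, d j * f j q.1 q.2 (fun v => (y v : Quaternion ℝ))‖ ^ 2) ∂(sgV V) with hΨ
    have hmf : ∀ j, Measurable fun q : ((W → ℍ) × Y) × (V → S3) => f j q.1.1 q.1.2 (fun v => (q.2 v : Quaternion ℝ)) := by
      intro j
      have h1 : Measurable fun t : ((W → ℍ) × (V → S3)) × Y => f j t.1.1 t.2 (fun v => (t.1.2 v : Quaternion ℝ)) := by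
        refine measurable_from_prod_countable_left fun y => ?_
        have h3 : Continuous fun q : (W → ℍ) × (V → S3) => (q.1, fun v => (q.2 v : Quaternion ℝ)) :=
          continuous_fst.prodMk (hval.comp continuous_snd)
        exact ((hfc j y).comp h3).measurable
      have h2 : Measurable fun q : ((W → ℍ) × Y) × (V → S3) => (((q.1.1, q.2), q.1.2) : ((W → ℍ) × (V → S3)) × Y) :=
        ((measurable_fst.comp measurable_fst).prodMk measurable_snd).prodMk (measurable_snd.comp measurable_fst)
      exact h1.comp h2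
    have hmy : Measurable fun q : ((W → ℍ) × Y) × (V → S3) =>
        ENNReal.ofReal (‖∑ j, d j * f j q.1.1 q.1.2 (fun v => (q.2 v : Quaternion ℝ))‖ ^ 2) :=
      (((Finset.measurable_sum _ fun j _ => (hmf j).const_mul (d j)).norm).pow_const 2).ennreal_ofReal
    have hΨm : Measurable Ψ := hmy.lintegral_prod_right'
    have e1 : ∀ t : ((WP p → ℍ) × Y) × (WQ p → ℍ), ENNReal.ofReal (∫ c, ‖g t c‖ ^ 2 ∂(sgV V)) = Ψ (rea p t) := by
      intro t
      have hint : Integrable (fun y => ‖g t y‖ ^ 2) (sgV V) :=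
        ((hgc t).norm.pow 2).integrable_of_hasCompactSupport (HasCompactSupport.of_compactSpace _)
      rw [ofReal_integral_eq_lintegral_ofReal hint (Filter.Eventually.of_forall fun y => sq_nonneg _)]
      rfl
    simp_rw [e1]
    have e2 := (mp_rea (Y := Y) p).setLIntegral_comp_preimage hF hΨm
    rw [e2, hΨ, ← lintegral_prod _ hmy.aemeasurable]
    exact orth_sum _ (fun j (q : ((W → ℍ) × Y) × (V → S3)) => f j q.1.1 q.1.2 (fun v => q.2 v))
      (fun j => (hmf j).aestronglyMeasurable) ho d
  -- everything together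
  set M : ℝ := ∏ w : WQ p, (17 * L w) with hM
  have hM0 : 0 ≤ M := Finset.prod_nonneg fun w _ => by
    have := hLpos w
    positivity
  set z₁ : J → ℂ := fun j => f j z y0 xx with hz₁
  have hall : ∀ c : J → ℂ, ENNReal.ofReal (‖∑ j, c j * z₁ j‖ ^ 2) ≤
      ENNReal.ofReal S * ENNReal.ofReal (M * ∑ j, ‖((hT' j)⁻¹ : ℂ) * c j‖ ^ 2) := by
    intro c
    have h0 : ENNReal.ofReal (‖∑ j, c j * z₁ j‖ ^ 2) = NN e c zQ (zP, xx) := by
      simp only [NN, he, hmkz, hz₁]
    calc ENNReal.ofReal (‖∑ j, c j * z₁ j‖ ^ 2) = NN e c zQ (zP, xx) := h0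
      _ ≤ ∑ i, A' i * ∫⁻ z' in E, NN e (fun j => (m' i j : ℂ) * c j) z' (zP, xx) := hmain c zQ (zP, xx)
      _ ≤ ∑ i, A' i * (ENNReal.ofReal S *
          ENNReal.ofReal (∑ j, ‖((hT' j)⁻¹ : ℂ) * ((m' i j : ℂ) * c j)‖ ^ 2)) :=
          Finset.sum_le_sum fun i _ => mul_le_mul' le_rfl (hkey _)
      _ = ENNReal.ofReal S * ∑ j, (∑ i, A' i * ENNReal.ofReal (m' i j ^ 2)) *
          ENNReal.ofReal (‖((hT' j)⁻¹ : ℂ) * c j‖ ^ 2) := by
          simp_rw [Finset.sum_mul]
          rw [Finset.sum_comm, Finset.mul_sum]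
          refine Finset.sum_congr rfl fun i _ => ?_
          rw [ENNReal.ofReal_sum_of_nonneg (fun j _ => sq_nonneg _), Finset.mul_sum, Finset.mul_sum, Finset.mul_sum]
          refine Finset.sum_congr rfl fun j _ => ?_
          rw [show ((hT' j)⁻¹ : ℂ) * ((m' i j : ℂ) * c j) =
            (m' i j : ℂ) * (((hT' j)⁻¹ : ℂ) * c j) by ring,
            norm_mul (m' i j : ℂ), mul_pow, Complex.norm_real, Real.norm_eq_abs, sq_abs, ENNReal.ofReal_mul (sq_nonneg _)]
          ring
      _ ≤ ENNReal.ofReal S * ∑ j, ENNReal.ofReal M *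
          ENNReal.ofReal (‖((hT' j)⁻¹ : ℂ) * c j‖ ^ 2) := by
          refine mul_le_mul' le_rfl (Finset.sum_le_sum fun j _ => mul_le_mul' ?_ le_rfl)
          rw [hM, ENNReal.ofReal_prod_of_nonneg (fun w _ => by have := hLpos w; positivity)]
          exact hb j
      _ = _ := by
          rw [← Finset.mul_sum, ← ENNReal.ofReal_sum_of_nonneg (fun j _ => sq_nonneg _), ENNReal.ofReal_mul hM0]
  -- duality in the coefficients
  set D : J → ℝ := fun j => (∏ w : WP p, U w ^ (1 + 2 * ϑ j w)) * h' j ^ 2 with hD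
  have hD0 : ∀ j, 0 < D j := fun j => mul_pos (Finset.prod_pos fun w _ => by
    have := hU0 w
    positivity) (by have := hh'0 j; positivity)
  set T : ℝ := ∑ j, D j * ‖f j z y0 xx‖ ^ 2 with hT
  have hT0 : 0 ≤ T := Finset.sum_nonneg fun j _ => mul_nonneg (hD0 j).le (sq_nonneg _)
  have hdual := hall (fun j => ((D j : ℝ) : ℂ) * conj (f j z y0 xx))
  have e2 : ENNReal.ofReal (‖∑ j, ((D j : ℝ) : ℂ) * conj (f j z y0 xx) * z₁ j‖ ^ 2) = ENNReal.ofReal (T ^ 2) := by
    congr 2
    have : ∑ j, ((D j : ℝ) : ℂ) * conj (f j z y0 xx) * z₁ j = ((T : ℝ) : ℂ) := by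
      rw [hT]
      push_cast
      refine Finset.sum_congr rfl fun j _ => ?_
      rw [mul_assoc, mul_comm (conj (f j z y0 xx)), hz₁, Complex.mul_conj, Complex.normSq_eq_norm_sq]
      push_cast
      rfl
    rw [this, Complex.norm_real, Real.norm_of_nonneg hT0]
  have e3 : ∑ j, ‖((hT' j)⁻¹ : ℂ) * (((D j : ℝ) : ℂ) * conj (f j z y0 xx))‖ ^ 2 ≤ T := by
    rw [hT]
    refine Finset.sum_le_sum fun j _ => ?_
    have hUp := hD0 j
    have h1 := hh j
    have h2 := hh0 j
    have h3 : D j = ((∏ w : WP p, U w ^ (1 / 2 + ϑ j w)) * h' j) ^ 2 := by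
      rw [mul_pow, hD, ← Finset.prod_pow]
      simp only
      congr 1
      refine Finset.prod_congr rfl fun w _ => ?_
      rw [← Real.rpow_natCast, ← Real.rpow_mul (hU0 w).le]
      congr 1
      push_cast
      ring
    have h4 : D j ≤ hT' j ^ 2 := by
      rw [h3]
      have h5 : 0 ≤ (∏ w : WP p, U w ^ (1 / 2 + ϑ j w)) * h' j :=
        (mul_pos (Finset.prod_pos fun w _ => hh10 j w) (hh'0 j)).le
      gcongr
    rw [norm_mul, norm_mul, RCLike.norm_conj, Complex.norm_real, Real.norm_of_nonneg hUp.le, norm_inv,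
      Complex.norm_real, Real.norm_of_nonneg h2.le, mul_pow, mul_pow, inv_pow]
    rw [inv_mul_le_iff₀ (by positivity)]
    have h5 : 0 ≤ ‖f j z y0 xx‖ ^ 2 := sq_nonneg _
    calc D j ^ 2 * ‖f j z y0 xx‖ ^ 2 = D j * (D j * ‖f j z y0 xx‖ ^ 2) := by ring
      _ ≤ hT' j ^ 2 * (D j * ‖f j z y0 xx‖ ^ 2) :=
          mul_le_mul_of_nonneg_right h4 (mul_nonneg hUp.le h5)
  rw [e2, ← ENNReal.ofReal_mul hS0] at hdual
  have hdual2 := (ENNReal.ofReal_le_ofReal_iff (mul_nonneg hS0 (mul_nonneg hM0
    (Finset.sum_nonneg fun j _ => sq_nonneg _)))).1 hdual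
  rcases hT0.eq_or_lt with h | h
  · rw [← h]
    exact mul_nonneg hM0 hS0
  · have h7 : T * T ≤ (M * S) * T := by
      calc T * T = T ^ 2 := by ring
        _ ≤ _ := hdual2
        _ ≤ S * (M * T) := by gcongr
        _ = _ := by ring
    exact le_of_mul_le_mul_right h7 h

end core

end Pool.Agent.H496.R7
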