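import Pool.Agent.H496.R7.Loc2

/-! Counting cosets with denominators at several primes. -/

set_option autoImplicit false

namespace Pool.Agent.H496.R7

open Matrix Quaternion
open scoped NumberField

section kin
variable {K : Type*} [Field K]

/-- being in the ideal -/
def KI (𝔫 : Ideal (𝓞 K)) (x : K) : Prop := ∃ t ∈ 𝔫, (t : K) = x

variable {𝔫 𝔪 : Ideal (𝓞 K)}

theorem KI.add {x y : K} (hx : KI 𝔫 x) (hy : KI 𝔫 y) : KI 𝔫 (x + y) := by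
  obtain ⟨s, hs, rfl⟩ := hx
  obtain ⟨t, ht, rfl⟩ := hy
  exact ⟨s + t, 𝔫.add_mem hs ht, by push_cast; rfl⟩

theorem KI.neg {x : K} (hx : KI 𝔫 x) : KI 𝔫 (-x) := by
  obtain ⟨s, hs, rfl⟩ := hx
  exact ⟨-s, 𝔫.neg_mem hs, by push_cast; rfl⟩

theorem KI.sub {x y : K} (hx : KI 𝔫 x) (hy : KI 𝔫 y) : KI 𝔫 (x - y) := by
  rw [sub_eq_add_neg]
  exact hx.add hy.neg

theorem KI.mulI {x y : K} (hx : KI 𝔪 x) (hy : KI 𝔫 y) : KI (𝔪 * 𝔫) (x * y) := by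
  obtain ⟨s, hs, rfl⟩ := hx
  obtain ⟨t, ht, rfl⟩ := hy
  exact ⟨s * t, Ideal.mul_mem_mul hs ht, by push_cast; rfl⟩

theorem KI.mono (h : 𝔪 ≤ 𝔫) {x : K} (hx : KI 𝔪 x) : KI 𝔫 x := by
  obtain ⟨s, hs, rfl⟩ := hx
  exact ⟨s, h hs, rfl⟩

theorem KI.mul {x y : K} (hx : KI (⊤ : Ideal (𝓞 K)) x) (hy : KI 𝔫 y) : KI 𝔫 (x * y) := by
  obtain ⟨s, hs, rfl⟩ := hx
  obtain ⟨t, ht, rfl⟩ := hy
  exact ⟨s * t, 𝔫.mul_mem_left s ht, by push_cast; rfl⟩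

theorem KI.mul' {x y : K} (hx : KI 𝔫 x) (hy : KI (⊤ : Ideal (𝓞 K)) y) : KI 𝔫 (x * y) := by
  rw [mul_comm]
  exact hy.mul hx

theorem KI.coe (t : 𝓞 K) : KI (⊤ : Ideal (𝓞 K)) (t : K) := ⟨t, Submodule.mem_top, rfl⟩

theorem KI.zero : KI 𝔫 (0 : K) := ⟨0, 𝔫.zero_mem, by push_cast; rfl⟩

/-- all coordinates in the ideal -/
def KIn {a b : K} (𝔫 : Ideal (𝓞 K)) (x : ℍ[K,a,b]) : Prop :=
  (∃ t ∈ 𝔫, (t : K) = x.re) ∧ (∃ t ∈ 𝔫, (t : K) = x.imI) ∧ (∃ t ∈ 𝔫, (t : K) = x.imJ) ∧ (∃ t ∈ 𝔫, (t : K) = x.imK)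

/-- the norm -/
def kn {a b : K} (x : ℍ[K,a,b]) : K := x.re ^ 2 - a * x.imI ^ 2 - b * x.imJ ^ 2 + a * b * x.imK ^ 2

/-- the conjugate -/
def kbar {a b : K} (x : ℍ[K,a,b]) : ℍ[K,a,b] := ⟨x.re, -x.imI, -x.imJ, -x.imK⟩

section gen
variable {a b : K}

theorem KIn.add {x y : ℍ[K,a,b]} (hx : KIn 𝔫 x) (hy : KIn 𝔫 y) : KIn 𝔫 (x + y) :=
  ⟨KI.add hx.1 hy.1, KI.add hx.2.1 hy.2.1, KI.add hx.2.2.1 hy.2.2.1, KI.add hx.2.2.2 hy.2.2.2⟩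

theorem KIn.sub {x y : ℍ[K,a,b]} (hx : KIn 𝔫 x) (hy : KIn 𝔫 y) : KIn 𝔫 (x - y) :=
  ⟨KI.sub hx.1 hy.1, KI.sub hx.2.1 hy.2.1, KI.sub hx.2.2.1 hy.2.2.1, KI.sub hx.2.2.2 hy.2.2.2⟩

theorem KIn.mono (h : 𝔪 ≤ 𝔫) {x : ℍ[K,a,b]} (hx : KIn 𝔪 x) : KIn 𝔫 x :=
  ⟨KI.mono h hx.1, KI.mono h hx.2.1, KI.mono h hx.2.2.1, KI.mono h hx.2.2.2⟩

theorem KIn.bar {x : ℍ[K,a,b]} (hx : KIn 𝔫 x) : KIn 𝔫 (kbar x) := by
  obtain ⟨h0, h1, h2, h3⟩ := hx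
  exact ⟨h0, KI.neg h1, KI.neg h2, KI.neg h3⟩

theorem KIn.smulI {x : ℍ[K,a,b]} {t : K} (ht : KI 𝔪 t) (hx : KIn 𝔫 x) : KIn (𝔪 * 𝔫) (t • x) :=
  ⟨KI.mulI ht hx.1, KI.mulI ht hx.2.1, KI.mulI ht hx.2.2.1, KI.mulI ht hx.2.2.2⟩

theorem KIn.smul {x : ℍ[K,a,b]} {t : K} (ht : KI (⊤ : Ideal (𝓞 K)) t) (hx : KIn 𝔫 x) : KIn 𝔫 (t • x) :=
  ⟨KI.mul ht hx.1, KI.mul ht hx.2.1, KI.mul ht hx.2.2.1, KI.mul ht hx.2.2.2⟩

theorem KIn.smul' {x : ℍ[K,a,b]} {t : K} (ht : KI 𝔫 t) (hx : KIn (⊤ : Ideal (𝓞 K)) x) : KIn 𝔫 (t • x) :=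
  ⟨KI.mul' ht hx.1, KI.mul' ht hx.2.1, KI.mul' ht hx.2.2.1, KI.mul' ht hx.2.2.2⟩

theorem kbar_smul (t : K) (x : ℍ[K,a,b]) : kbar (t • x) = t • kbar x := by
  ext
  · simp [kbar]
  · simp [kbar]
  · simp [kbar]
  · simp [kbar]

theorem kbar_mul (x y : ℍ[K,a,b]) : kbar (x * y) = kbar y * kbar x := by
  obtain ⟨x0, x1, x2, x3⟩ := x
  obtain ⟨y0, y1, y2, y3⟩ := y
  simp only [kbar, QuaternionAlgebra.mk_mul_mk]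
  ext
  · ring
  · ring
  · ring
  · ring

theorem kbar_kbar (x : ℍ[K,a,b]) : kbar (kbar x) = x := by
  ext <;> simp [kbar]

theorem kn_smul (t : K) (x : ℍ[K,a,b]) : kn (t • x) = t ^ 2 * kn x := by
  simp only [kn, QuaternionAlgebra.re_smul, QuaternionAlgebra.imI_smul, QuaternionAlgebra.imJ_smul,
    QuaternionAlgebra.imK_smul, smul_eq_mul]
  ring

theorem kn_bar (x : ℍ[K,a,b]) : kn (kbar x) = kn x := by
  simp only [kn, kbar]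
  ring

end gen

variable {a b : 𝓞 K}

theorem KIn.mul {x y : ℍ[K,(a : K),(b : K)]} (hx : KIn (⊤ : Ideal (𝓞 K)) x) (hy : KIn 𝔫 y) :
    KIn 𝔫 (x * y) := by
  obtain ⟨x0, x1, x2, x3⟩ := x
  obtain ⟨y0, y1, y2, y3⟩ := y
  obtain ⟨h0, h1, h2, h3⟩ := hx
  obtain ⟨k0, k1, k2, k3⟩ := hy
  change KI ⊤ x0 at h0
  change KI ⊤ x1 at h1
  change KI ⊤ x2 at h2
  change KI ⊤ x3 at h3
  change KI 𝔫 y0 at k0
  change KI 𝔫 y1 at k1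
  change KI 𝔫 y2 at k2
  change KI 𝔫 y3 at k3
  have ha := KI.coe (K := K) a
  have hb := KI.coe (K := K) b
  rw [QuaternionAlgebra.mk_mul_mk]
  simp only [zero_mul, add_zero]
  refine ⟨?_, ?_, ?_, ?_⟩
  · exact (((h0.mul k0).add ((ha.mul h1).mul k1)).add ((hb.mul h2).mul k2)).sub (((ha.mul hb).mul h3).mul k3)
  · exact (((h0.mul k1).add (h1.mul k0)).sub ((hb.mul h2).mul k3)).add ((hb.mul h3).mul k2)
  · exact (((h0.mul k2).add ((ha.mul h1).mul k3)).add (h2.mul k0)).sub ((ha.mul h3).mul k1)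
  · exact (((h0.mul k3).add (h1.mul k2)).sub (h2.mul k1)).add (h3.mul k0)

theorem KIn.mul' {x y : ℍ[K,(a : K),(b : K)]} (hx : KIn 𝔫 x) (hy : KIn (⊤ : Ideal (𝓞 K)) y) : KIn 𝔫 (x * y) := by
  have h := (KIn.mul hy.bar hx.bar).bar
  rwa [kbar_mul, kbar_kbar, kbar_kbar] at h

/-- the ideal of denominators -/
def den {a b : K} (x : ℍ[K,a,b]) : Ideal (𝓞 K) where
  carrier := {t | KIn ⊤ ((t : K) • x)}
  add_mem' := by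
    intro s t hs ht
    show KIn ⊤ (((s + t : 𝓞 K) : K) • x)
    have : ((s + t : 𝓞 K) : K) = (s : K) + (t : K) := rfl
    rw [this, add_smul]
    exact KIn.add hs ht
  zero_mem' := by
    show KIn ⊤ (((0 : 𝓞 K) : K) • x)
    have : ((0 : 𝓞 K) : K) = 0 := rfl
    rw [this, zero_smul]
    exact ⟨KI.zero, KI.zero, KI.zero, KI.zero⟩
  smul_mem' := by
    intro c t ht
    show KIn ⊤ (((c * t : 𝓞 K) : K) • x)
    have : ((c * t : 𝓞 K) : K) = (c : K) * (t : K) := rfl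
    rw [this, mul_smul]
    exact KIn.smul (KI.coe c) ht

theorem mem_den {a b : K} {x : ℍ[K,a,b]} {t : 𝓞 K} : t ∈ den x ↔ KIn ⊤ ((t : K) • x) := Iff.rfl

/-- the embedding of the order -/
def kmap (X : ℍ[𝓞 K,a,b]) : ℍ[K,(a : K),(b : K)] := ⟨X.re, X.imI, X.imJ, X.imK⟩

theorem kmap_mul (X Y : ℍ[𝓞 K,a,b]) : kmap (X * Y) = kmap X * kmap Y := by
  obtain ⟨x0, x1, x2, x3⟩ := X
  obtain ⟨y0, y1, y2, y3⟩ := Y
  simp only [kmap, QuaternionAlgebra.mk_mul_mk]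
  ext
  · push_cast
    ring
  · push_cast
    ring
  · push_cast
    ring
  · push_cast
    ring

theorem kmap_qbar (X : ℍ[𝓞 K,a,b]) : kmap (qbar X) = kbar (kmap X) := by
  ext <;> simp [kmap, qbar, kbar]

theorem coe_qn (X : ℍ[𝓞 K,a,b]) : ((qn X : 𝓞 K) : K) = kn (kmap X) := by
  simp only [qn, kn, kmap]
  push_cast
  rfl

theorem KI_coe {t : 𝓞 K} : KI 𝔫 (t : K) ↔ t ∈ 𝔫 := by
  constructor
  · rintro ⟨s, hs, h⟩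
    have : s = t := NumberField.RingOfIntegers.ext h
    rwa [← this]
  · intro h
    exact ⟨t, h, rfl⟩

theorem KIn_kmap {X : ℍ[𝓞 K,a,b]} : KIn 𝔫 (kmap X) ↔ AI 𝔫 X :=
  ⟨fun ⟨h0, h1, h2, h3⟩ => ⟨KI_coe.1 h0, KI_coe.1 h1, KI_coe.1 h2, KI_coe.1 h3⟩,
    fun ⟨h0, h1, h2, h3⟩ => ⟨KI_coe.2 h0, KI_coe.2 h1, KI_coe.2 h2, KI_coe.2 h3⟩⟩

theorem exists_kmap {x : ℍ[K,(a : K),(b : K)]} (h : KIn ⊤ x) : ∃ X : ℍ[𝓞 K,a,b], kmap X = x := by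
  obtain ⟨⟨t0, -, e0⟩, ⟨t1, -, e1⟩, ⟨t2, -, e2⟩, ⟨t3, -, e3⟩⟩ := h
  exact ⟨⟨t0, t1, t2, t3⟩, by ext <;> assumption⟩

theorem clear {a b : K} {ϖ : 𝓞 K} (hϖ : ϖ ≠ 0) {I J : Ideal (𝓞 K)} (hIJ : Ideal.span {ϖ} = I * J) {x : ℍ[K,a,b]}
    (hx : KIn I ((ϖ : K) • x)) {s : 𝓞 K} (hs : s ∈ J) : KIn ⊤ ((s : K) • x) := by
  have hϖK : (ϖ : K) ≠ 0 := by
    intro h0
    exact hϖ (NumberField.RingOfIntegers.ext h0)
  have key : ∀ y : K, KI I ((ϖ : K) * y) → KI ⊤ ((s : K) * y) := by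
    rintro y ⟨u, hu, huy⟩
    have h1 : u * s ∈ Ideal.span {ϖ} := by
      rw [hIJ]
      exact Ideal.mul_mem_mul hu hs
    obtain ⟨v, hv⟩ := Ideal.mem_span_singleton'.1 h1
    refine ⟨v, Submodule.mem_top, ?_⟩
    have h2 : (v : K) * ϖ = (u : K) * s := by
      have := congrArg (fun t : 𝓞 K => (t : K)) hv
      push_cast at this
      exact this
    apply mul_right_cancel₀ hϖK
    rw [h2, huy]
    ring
  exact ⟨key _ hx.1, key _ hx.2.1, key _ hx.2.2.1, key _ hx.2.2.2⟩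

end kin

section ideals
variable {R : Type*} [CommRing R] [IsDedekindDomain R]

theorem exists_uni {𝔭 𝔯 : Ideal R} (hp : 𝔭.IsPrime) (hp0 : 𝔭 ≠ ⊥) (hr : ¬ 𝔯 ≤ 𝔭) (k : ℕ) :
    ∃ π ∈ 𝔭 ^ k * 𝔯, π ∉ 𝔭 ^ (k + 1) ∧ ∃ 𝔟, Ideal.span {π} = 𝔭 ^ k * 𝔯 * 𝔟 ∧ ¬ 𝔟 ≤ 𝔭 := by
  have hpp : Prime 𝔭 := Ideal.prime_of_isPrime hp0 hp
  have h1 : ¬ 𝔭 ^ k * 𝔯 ≤ 𝔭 ^ (k + 1) := by
    intro h
    rw [← Ideal.dvd_iff_le, pow_succ] at h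
    have := (mul_dvd_mul_iff_left (pow_ne_zero k hp0)).1 h
    exact hr (Ideal.dvd_iff_le.1 this)
  obtain ⟨π, hπ, hπ2⟩ := SetLike.not_le_iff_exists.1 h1
  refine ⟨π, hπ, hπ2, ?_⟩
  obtain ⟨𝔟, h𝔟⟩ := Ideal.dvd_iff_le.2 ((Ideal.span_singleton_le_iff_mem _).2 hπ)
  refine ⟨𝔟, h𝔟, fun h => hπ2 ?_⟩
  obtain ⟨𝔠, h𝔠⟩ := Ideal.dvd_iff_le.2 h
  have h2 : Ideal.span {π} ≤ 𝔭 ^ (k + 1) := by
    rw [← Ideal.dvd_iff_le, h𝔟, h𝔠]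
    exact ⟨𝔯 * 𝔠, by rw [pow_succ]; ring⟩
  exact h2 (Ideal.mem_span_singleton_self π)

theorem exists_exp {ι : Type*} (𝔭 : ι → Ideal R) (hp : ∀ l, Prime (𝔭 l)) (k : ι → ℕ) (s : Finset ι) :
    ∀ I : Ideal R, I ∣ ∏ l ∈ s, 𝔭 l ^ k l → ∃ i : ι → ℕ, (∀ l, i l ≤ k l) ∧ I = ∏ l ∈ s, 𝔭 l ^ i l := by
  classical
  induction s using Finset.induction_on with
  | empty =>
    intro I hI
    rw [Finset.prod_empty] at hI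
    refine ⟨fun _ => 0, fun _ => Nat.zero_le _, ?_⟩
    rw [Finset.prod_empty]
    exact isUnit_iff_eq_one.1 (isUnit_of_dvd_one hI)
  | insert l s hl ih =>
    intro I hI
    rw [Finset.prod_insert hl] at hI
    obtain ⟨I1, I2, h1, h2, rfl⟩ := exists_dvd_and_dvd_of_dvd_mul hI
    obtain ⟨i, hi, rfl⟩ := ih I2 h2
    obtain ⟨j, hj, hj2⟩ := (dvd_prime_pow (hp l) (k l)).1 h1
    rw [associated_iff_eq] at hj2
    refine ⟨Function.update i l j, fun l' => ?_, ?_⟩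
    · by_cases h : l' = l
      · subst h
        rwa [Function.update_self]
      · rw [Function.update_of_ne h]
        exact hi l'
    · rw [Finset.prod_insert hl, Function.update_self, ← hj2]
      congr 1
      refine Finset.prod_congr rfl fun l' hl' => ?_
      rw [Function.update_of_ne]
      rintro rfl
      exact hl hl'

theorem not_le_prod {ι : Type*} [Fintype ι] [DecidableEq ι] {𝔭 : ι → Ideal R} (hp : ∀ l, (𝔭 l).IsPrime)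
    (hp0 : ∀ l, 𝔭 l ≠ ⊥) (hinj : Function.Injective 𝔭) (k : ι → ℕ) (l : ι) :
    ¬ ∏ l' ∈ Finset.univ.erase l, 𝔭 l' ^ k l' ≤ 𝔭 l := by
  intro h
  rw [Ideal.IsPrime.prod_le (hp l)] at h
  obtain ⟨l', hl', h'⟩ := h
  have h2 : 𝔭 l' ≤ 𝔭 l := by
    have := hp l
    exact Ideal.IsPrime.le_of_pow_le h'
  have hmax : (𝔭 l').IsMaximal := (hp l').isMaximal (hp0 l')
  have h3 := hmax.eq_of_le (hp l).ne_top h2
  exact (Finset.ne_of_mem_erase hl') (hinj h3)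

end ideals

end Pool.Agent.H496.R7
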