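import Pool.Agent.H496.R7.Ded

/-! Counting cosets with denominators at several primes, continued. -/

set_option autoImplicit false

namespace Pool.Agent.H496.R7

open Matrix Quaternion
open scoped NumberField

theorem mem_left {R : Type*} [CommRing R] {I J : Ideal R} {x : R} (h : x ∈ I * J) : x ∈ I := by
  have h1 : I * J ≤ I := Ideal.mul_le_left
  exact h1 h

theorem mem_pow2 {R : Type*} [CommRing R] {I : Ideal R} {x : R} {m : ℕ} (h : x ∈ I ^ m) : x ^ 2 ∈ I ^ (2 * m) := by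
  have h3 := Ideal.pow_mem_pow h 2
  rwa [← pow_mul, mul_comm m 2] at h3

section balls
variable {K : Type*} [Field K] [NumberField K] {a b : 𝓞 K} {ι : Type*} [Fintype ι] [DecidableEq ι]
  {𝔭 : ι → Ideal (𝓞 K)} (hp : ∀ l, (𝔭 l).IsPrime) (hp0 : ∀ l, 𝔭 l ≠ ⊥) (hinj : Function.Injective 𝔭)

omit [NumberField K] in
theorem KI_kn {𝔫 : Ideal (𝓞 K)} {x : ℍ[K,(a : K),(b : K)]} (h : KIn 𝔫 x) : KI 𝔫 (kn x) := by
  obtain ⟨h0, h1, h2, h3⟩ := h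
  have t : ∀ {y : K}, KI 𝔫 y → KI ⊤ y := fun h => KI.mono le_top h
  rw [kn]
  have e0 : KI 𝔫 (x.re ^ 2) := by rw [sq]; exact KI.mul (t h0) h0
  have e1 : KI 𝔫 ((a : K) * x.imI ^ 2) := by rw [sq]; exact KI.mul (KI.coe a) (KI.mul (t h1) h1)
  have e2 : KI 𝔫 ((b : K) * x.imJ ^ 2) := by rw [sq]; exact KI.mul (KI.coe b) (KI.mul (t h2) h2)
  have e3 : KI 𝔫 ((a : K) * (b : K) * x.imK ^ 2) := by
    rw [sq]
    exact KI.mul (KI.mul (KI.coe a) (KI.coe b)) (KI.mul (t h3) h3)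
  exact ((e0.sub e1).sub e2).add e3

include hp hp0 hinj

theorem exists_prim {x : ℍ[K,(a : K),(b : K)]} (hx : kn x = 1) {i : ι → ℕ} (hi : den x = ∏ l, 𝔭 l ^ i l) (l : ι) :
    ∃ ϖ : 𝓞 K, ϖ ∈ 𝔭 l ^ i l ∧ ϖ ∈ den x ∧ ¬ KIn (𝔭 l) ((ϖ : K) • x) := by
  have hr := not_le_prod hp hp0 hinj i l
  rw [← Finset.mul_prod_erase Finset.univ _ (Finset.mem_univ l)] at hi
  set 𝔯 : Ideal (𝓞 K) := ∏ l' ∈ Finset.univ.erase l, 𝔭 l' ^ i l' with h𝔯
  have h𝔯0 : 𝔯 ≠ 0 := Finset.prod_ne_zero_iff.2 fun l' _ => pow_ne_zero _ (hp0 l')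
  obtain ⟨π, hπ, hπ2, 𝔟, h𝔟, h𝔟2⟩ := exists_uni (hp l) (hp0 l) hr (i l)
  refine ⟨π, mem_left hπ, by rw [hi]; exact hπ, fun hcon => ?_⟩
  rcases Nat.eq_zero_or_pos (i l) with h0 | hpos
  · rw [h0, zero_add, pow_one] at hπ2
    apply hπ2
    have h1 := KI_kn hcon
    rw [kn_smul, hx, mul_one] at h1
    have h2 : ((π ^ 2 : 𝓞 K) : K) = (π : K) ^ 2 := by push_cast; rfl
    rw [← h2, KI_coe] at h1
    exact (hp l).mem_of_pow_mem 2 h1
  · obtain ⟨k, hk⟩ : ∃ k, i l = k + 1 := ⟨i l - 1, by omega⟩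
    rw [hk] at h𝔟 hi hπ2
    have hπ0 : π ≠ 0 := by
      rintro rfl
      exact hπ2 (Ideal.zero_mem _)
    have h1 : ¬ 𝔭 l ^ k * 𝔯 * 𝔟 ≤ 𝔭 l ^ (k + 1) * 𝔯 := by
      intro h
      rw [← Ideal.dvd_iff_le, pow_succ, mul_assoc (𝔭 l ^ k), mul_comm (𝔭 l), ← mul_assoc] at h
      have h2 := (mul_dvd_mul_iff_left (mul_ne_zero (pow_ne_zero k (hp0 l)) h𝔯0)).1 h
      exact h𝔟2 (Ideal.dvd_iff_le.1 h2)
    obtain ⟨s, hs, hs2⟩ := SetLike.not_le_iff_exists.1 h1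
    apply hs2
    rw [← hi, mem_den]
    refine clear hπ0 (I := 𝔭 l) (J := 𝔭 l ^ k * 𝔯 * 𝔟) ?_ hcon hs
    rw [h𝔟, pow_succ]
    ring

omit hinj [DecidableEq ι] in
theorem den_top {x : ℍ[K,(a : K),(b : K)]} {k : ι → ℕ} (hk : ∏ l, 𝔭 l ^ k l ≤ den x) (h : ∀ l, ¬ den x ≤ 𝔭 l) :
    KIn ⊤ x := by
  obtain ⟨i, -, hi⟩ := exists_exp 𝔭 (fun l => Ideal.prime_of_isPrime (hp0 l) (hp l)) k Finset.univ (den x)
    (Ideal.dvd_iff_le.2 hk)
  have h0 : ∀ l, i l = 0 := by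
    intro l
    by_contra hne
    apply h l
    rw [hi, ← Ideal.dvd_iff_le]
    exact (dvd_pow_self _ hne).trans (Finset.dvd_prod_of_mem _ (Finset.mem_univ l))
  have h1 : den x = 1 := by
    rw [hi]
    exact Finset.prod_eq_one fun l _ => by rw [h0 l, pow_zero]
  have h2 : (1 : 𝓞 K) ∈ den x := by
    rw [h1, Ideal.one_eq_top]
    exact Submodule.mem_top
  rw [mem_den] at h2
  have h3 : ((1 : 𝓞 K) : K) = 1 := rfl
  rwa [h3, one_smul] at h2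

theorem ball_key (h2 : ∀ l, (2 : 𝓞 K) ∉ 𝔭 l) (ha : ∀ l, a ∉ 𝔭 l) (hb : ∀ l, b ∉ 𝔭 l) (m : ι → ℕ) {κ : Type*}
    (g : κ → ℍ[K,(a : K),(b : K)]) (hg1 : ∀ j, kn (g j) = 1) (hg : ∀ j, ∏ l, 𝔭 l ^ m l ≤ den (g j))
    {δ : ℍ[K,(a : K),(b : K)]} (hδ1 : kn δ = 1) (hδg : ∀ j, ∏ l, 𝔭 l ^ m l ≤ den (δ * g j)) {i : ι → ℕ}
    (hi : den δ = ∏ l, 𝔭 l ^ i l) :
    ∃ key : κ → (∀ l, Fin (∑ k ∈ Finset.range (2 * m l + 1 - i l), Ideal.absNorm (𝔭 l) ^ k)),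
      ∀ j j', key j = key j' → ∀ l, ¬ den (kbar (g j') * g j) ≤ 𝔭 l := by
  have key : ∀ l, ∃ key : κ → Fin (∑ k ∈ Finset.range (2 * m l + 1 - i l), Ideal.absNorm (𝔭 l) ^ k),
      ∀ j j', key j = key j' → ¬ den (kbar (g j') * g j) ≤ 𝔭 l := by
    intro l
    have hmax : (𝔭 l).IsMaximal := (hp l).isMaximal (hp0 l)
    have hpp : Prime (𝔭 l) := Ideal.prime_of_isPrime (hp0 l) (hp l)
    have hr := not_le_prod hp hp0 hinj m l
    rw [← Finset.mul_prod_erase Finset.univ _ (Finset.mem_univ l)] at hg hδg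
    set 𝔯 : Ideal (𝓞 K) := ∏ l' ∈ Finset.univ.erase l, 𝔭 l' ^ m l' with h𝔯
    obtain ⟨π, hπ, hπ2, 𝔟, h𝔟, h𝔟2⟩ := exists_uni (hp l) (hp0 l) hr (m l)
    obtain ⟨ϖ, hϖ1, hϖ2, hϖ3⟩ := exists_prim hp hp0 hinj hδ1 hi l
    have hπ0 : π ≠ 0 := by
      rintro rfl
      exact hπ2 (Ideal.zero_mem _)
    have hX : ∀ j, ∃ X : ℍ[𝓞 K,a,b], kmap X = (π : K) • kbar (g j) := by
      intro j
      apply exists_kmap
      rw [← kbar_smul]
      exact KIn.bar (mem_den.1 (hg j hπ))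
    choose X hX using hX
    obtain ⟨Δ, hΔ⟩ : ∃ Δ : ℍ[𝓞 K,a,b], kmap Δ = (ϖ : K) • kbar δ := by
      apply exists_kmap
      rw [← kbar_smul]
      exact KIn.bar (mem_den.1 hϖ2)
    have hsp2 : Ideal.span {π ^ 2} = 𝔭 l ^ (2 * m l) * (𝔯 * 𝔟) ^ 2 := by
      rw [← Ideal.span_singleton_pow, h𝔟, mul_assoc, mul_pow, ← pow_mul, mul_comm (m l) 2]
    have hrb : ¬ (𝔯 * 𝔟) ^ 2 ≤ 𝔭 l := by
      intro h
      have := hp l
      have h1 : 𝔯 * 𝔟 ≤ 𝔭 l := Ideal.IsPrime.le_of_pow_le h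
      rcases (Ideal.IsPrime.mul_le (hp l)).1 h1 with h | h
      · exact hr h
      · exact h𝔟2 h
    have hqn : ∀ j, qn (X j) = π ^ 2 := by
      intro j
      apply NumberField.RingOfIntegers.ext
      rw [coe_qn, hX, kn_smul, kn_bar, hg1, mul_one]
      push_cast
      rfl
    obtain ⟨key, hkey⟩ := quat_key (hp0 l) (h2 l) (ha l) (hb l) (q := Ideal.absNorm (𝔭 l)) (fun n => by
      have h0 : 𝔭 l ^ n ≠ ⊥ := pow_ne_zero n (hp0 l)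
      refine ⟨Ideal.finiteQuotientOfFreeOfNeBot _ h0, le_of_eq ?_⟩
      rw [← map_pow, Ideal.absNorm_apply, Submodule.cardQuot_apply]) (n := 2 * m l) (i := i l) X (fun j => by
      rw [hqn]
      constructor
      · exact mem_pow2 (mem_left hπ)
      · intro h
        apply hrb
        have h1 : Ideal.span {π ^ 2} ≤ 𝔭 l ^ (2 * m l + 1) := (Ideal.span_singleton_le_iff_mem _).2 h
        rw [← Ideal.dvd_iff_le, hsp2, pow_succ] at h1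
        exact Ideal.dvd_iff_le.1 ((mul_dvd_mul_iff_left (pow_ne_zero _ (hp0 l))).1 h1)) Δ (fun h => by
      apply hϖ3
      rw [← KIn_kmap, hΔ, ← kbar_smul] at h
      have h1 := KIn.bar h
      rwa [kbar_kbar] at h1) (fun j => by
      rw [← KIn_kmap, kmap_mul, hX, hΔ]
      have e : (π : K) • kbar (g j) * (ϖ : K) • kbar δ = (ϖ : K) • kbar ((π : K) • (δ * g j)) := by
        rw [kbar_smul, kbar_mul, smul_mul_assoc, mul_smul_comm, smul_comm]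
      rw [e]
      exact KIn.smul' (KI_coe.2 hϖ1) (KIn.bar (mem_den.1 (hδg j hπ))))
    refine ⟨key, fun j j' hjj => ?_⟩
    have h1 := hkey j j' hjj
    rw [← KIn_kmap, kmap_mul, kmap_qbar, hX, hX, kbar_smul, kbar_kbar] at h1
    have e : (π : K) • kbar (g j') * (π : K) • g j = ((π ^ 2 : 𝓞 K) : K) • (kbar (g j') * g j) := by
      have h3 : ((π ^ 2 : 𝓞 K) : K) = (π : K) * π := by
        push_cast
        ring
      rw [h3, smul_mul_assoc, mul_smul_comm, smul_smul]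
    rw [e] at h1
    intro hle
    obtain ⟨s, hs, hs2⟩ := SetLike.not_le_iff_exists.1 hrb
    exact hs2 (hle (mem_den.2 (clear (pow_ne_zero 2 hπ0) hsp2 h1 hs)))
  choose key hkey using key
  exact ⟨fun j l => key l j, fun j j' h l => hkey l j j' (congrFun h l)⟩

end balls

end Pool.Agent.H496.R7
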