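import Pool.Agent.H496.R7.CoreZ

/-! The group with denominators acting on the product with a discrete quotient. -/

set_option autoImplicit false

namespace Pool.Agent.H496.R7

open MeasureTheory Set Function
open UpperHalfPlane hiding I
open scoped ENNReal NNReal ComplexConjugate MatrixGroups
open Pool.Agent.H496 Pool.Agent.H496.R4 Pool.Agent.H496.R6
open Pool.Agent.T2H31 (rad EB)

theorem harm_left {V : Type*} [Fintype V] {n : V → ℕ} {P : (V → Quaternion ℝ) → ℂ} (hP : P ∈ harm n)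
    (q : V → Quaternion ℝ) : (fun x => P (fun v => q v * x v)) ∈ harm n := by
  set Φ : ((V → Quaternion ℝ) → ℂ) →ₗ[ℂ] ((V → Quaternion ℝ) → ℂ) :=
    LinearMap.funLeft ℂ ℂ (fun (x : V → Quaternion ℝ) v => q v * x v) with hΦ
  have h : harm n ≤ (harm n).comap Φ := by
    refine Submodule.span_le.2 ?_
    rintro _ ⟨l, hl, rfl⟩
    refine Submodule.subset_span ⟨fun v => (l v).comp (LinearMap.mulLeft ℝ (q v)), fun v => ?_, rfl⟩
    obtain ⟨X, hX, hX2⟩ := hl v
    refine ⟨X, hX, fun x => ?_⟩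
    show l v (q v * (x * X)) = Complex.I * l v (q v * x)
    rw [← mul_assoc]
    exact hX2 _
  exact h hP

theorem meas_yy {W V Y : Type*} [Fintype W] [Fintype V] [MeasurableSpace Y] [MeasurableSingletonClass Y] [Countable Y]
    (g : (W → ℍ) → Y → (V → Quaternion ℝ) → ℂ) (hg : ∀ y, Continuous (uncurry fun z x => g z y x)) :
    Measurable fun q : ((W → ℍ) × Y) × (V → S3) => g q.1.1 q.1.2 (fun v => (q.2 v : Quaternion ℝ)) := by
  have hval : Continuous fun y : V → S3 => fun v => (y v : Quaternion ℝ) :=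
    continuous_pi fun v => continuous_subtype_val.comp (continuous_apply v)
  have h1 : Measurable fun t : ((W → ℍ) × (V → S3)) × Y => g t.1.1 t.2 (fun v => (t.1.2 v : Quaternion ℝ)) := by
    refine measurable_from_prod_countable_left fun y => ?_
    have h3 : Continuous fun q : (W → ℍ) × (V → S3) => (q.1, fun v => (q.2 v : Quaternion ℝ)) :=
      continuous_fst.prodMk (hval.comp continuous_snd)
    exact ((hg y).comp h3).measurable
  have h2 : Measurable fun q : ((W → ℍ) × Y) × (V → S3) => (((q.1.1, q.2), q.1.2) : ((W → ℍ) × (V → S3)) × Y) :=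
    ((measurable_fst.comp measurable_fst).prodMk measurable_snd).prodMk (measurable_snd.comp measurable_fst)
  exact h1.comp h2

section quot
variable {W : Type} {V J G κ : Type*} [Fintype W] [DecidableEq W] [Fintype V] [Fintype J] [DecidableEq J]
  [Group G] [Countable G] (H : Subgroup G)
  (r : W → G →* SL(2, ℝ)) (σ : V → G →* Quaternion ℝ) (hσ : ∀ v γ, ‖σ v γ‖ = 1)
  (f : J → (W → ℍ) → (V → Quaternion ℝ) → ℂ) {lam : J → W → ℝ} {n : V → ℕ} {F : Set (W → ℍ)}

/-- the function on the product -/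
noncomputable def ft (j : J) (z : W → ℍ) (y : G ⧸ H) (x : V → Quaternion ℝ) : ℂ :=
  f j (fun w => r w (Quotient.out y)⁻¹ • z w) (fun v => σ v (Quotient.out y)⁻¹ * x v)

omit [Fintype W] [DecidableEq W] [Fintype V] [Fintype J] [DecidableEq J] [Countable G] in
theorem ft_mk (hinv : ∀ j, ∀ γ ∈ H, ∀ z x, f j (fun w => r w γ • z w) (fun v => σ v γ * x v) = f j z x)
    (j : J) (z : W → ℍ) (g : G) (x : V → Quaternion ℝ) :
    ft H r σ f j z (g : G ⧸ H) x = f j (fun w => r w g⁻¹ • z w) (fun v => σ v g⁻¹ * x v) := by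
  obtain ⟨h, hh⟩ := QuotientGroup.mk_out_eq_mul H g
  have e : Quotient.out (g : G ⧸ H) = g * h := hh
  rw [ft, e, ← hinv j h h.2 (fun w => r w (g * (h : G))⁻¹ • z w) (fun v => σ v (g * (h : G))⁻¹ * x v)]
  congr 1
  · funext w
    rw [← mul_smul, ← map_mul]
    congr 3
    group
  · funext v
    rw [← mul_assoc, ← map_mul]
    congr 2
    group

theorem ae_prod_count {X Y : Type*} [MeasurableSpace X] [MeasurableSpace Y] (μ : Measure X) (ν : Measure Y) [SigmaFinite ν]
    {P : X → Prop} (h : ∀ᵐ x ∂μ, P x) : ∀ᵐ q ∂(μ.prod ν), P q.1 :=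
  Measure.quasiMeasurePreserving_fst.ae h

omit [Fintype W] [DecidableEq W] [Fintype V] [Fintype J] [DecidableEq J] [Countable G] in
theorem ft_cont (hfc : ∀ j, Continuous (uncurry (f j))) (j : J) (y : G ⧸ H) :
    Continuous (uncurry fun z x => ft H r σ f j z y x) := by
  have h1 : Continuous fun t : (W → ℍ) × (V → Quaternion ℝ) =>
      ((fun w => r w (Quotient.out y)⁻¹ • t.1 w), (fun v => σ v (Quotient.out y)⁻¹ * t.2 v)) := by
    refine Continuous.prodMk (continuous_pi fun w => ?_) (continuous_pi fun v => ?_)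
    · exact (continuous_const_smul (r w (Quotient.out y)⁻¹)).comp ((continuous_apply w).comp continuous_fst)
    · exact continuous_const.mul ((continuous_apply v).comp continuous_snd)
  exact (hfc j).comp h1

end quot

section coreH
variable {W : Type} {V J G κ : Type*} [Fintype W] [DecidableEq W] [Fintype V] [DecidableEq V] [Fintype J] [DecidableEq J]
  [Group G] [Countable G] (H : Subgroup G) (p : W → Prop) [DecidablePred p]
  (r : W → G →* SL(2, ℝ)) (σ : V → G →* Quaternion ℝ) (hσ : ∀ v γ, ‖σ v γ‖ = 1)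
  {U L : W → ℝ}
  (f : J → (W → ℍ) → (V → Quaternion ℝ) → ℂ) {lam : J → W → ℝ} {n : V → ℕ} {F : Set (W → ℍ)}

open Classical in
include hσ in
theorem coreH (hU : ∀ w, 6 ≤ U w) (hL : ∀ w, 1 ≤ L w)
    (hF : MeasurableSet F) (hcov : ∀ᵐ z : W → ℍ, {γ : H | (fun w => r w (γ : G) • z w) ∈ F}.Finite ∧
      ∃ γ : H, (fun w => r w (γ : G) • z w) ∈ F)
    (hfc : ∀ j, Continuous (uncurry (f j)))
    (hinv : ∀ j, ∀ γ ∈ H, ∀ z x, f j (fun w => r w γ • z w) (fun v => σ v γ * x v) = f j z x)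
    (hE : ∀ j w z x, Eig (fun u => f j (update z w u) x) (lam j w))
    (hn : ∀ j z, f j z ∈ harm n)
    (ho : ∀ i j, ∫ q : (W → ℍ) × (V → S3), f i q.1 (fun v => q.2 v) * conj (f j q.1 (fun v => q.2 v))
      ∂((volume.restrict F).prod (sgV V)) = if i = j then 1 else 0)
    (hlam2 : ∀ j, ∀ w, ¬ p w → |lam j w| ≤ L w)
    {ϑ : J → W → ℝ} (hϑ : ∀ j w, p w → 0 ≤ ϑ j w) (hϑ2 : ∀ j w, p w → ϑ j w ≤ 1 / 2)
    (hlam : ∀ j w, p w → lam j w ≤ 1 / 4 - ϑ j w ^ 2)
    (Bl : Finset (G ⧸ H)) {h' : J → ℝ} (hh'0 : ∀ j, 0 < h' j)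
    (hball : ∀ j z x, ∑ y ∈ Bl, f j (fun w => r w (Quotient.out y)⁻¹ • z w)
      (fun v => σ v (Quotient.out y)⁻¹ * x v) = (h' j : ℂ) * f j z x)
    (z : W → ℍ) (I : Finset κ) {Lv : κ → G → Prop} {Z : ℝ} {q1 q2 bb : κ → ℝ} (hZ : 0 ≤ Z)
    (hq1 : ∀ i, 0 ≤ q1 i) (hq2 : ∀ i, 0 ≤ q2 i) (hbb : ∀ i, 0 ≤ bb i)
    (hcount : ∀ i ∈ I, CountHyp2 (fun w : WP p => r w) (fun w : WQ p => r w) σ (fun w => z w) (fun w => z w)
      (Lv i) (fun w : WP p => U w) Z (q1 i) (q2 i))
    (hbc : ∀ δ : G, (∀ y ∈ Bl, δ • y ∉ Bl) ∨ ∃ i ∈ I, Lv i δ ∧ ((Bl.filter fun y => δ • y ∈ Bl).card : ℝ) ≤ bb i)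
    (x : V → S3) :
    ∑ j, ((∏ w : WP p, U w ^ (1 + 2 * ϑ j w)) * h' j ^ 2) * ‖f j z (fun v => (x v : Quaternion ℝ))‖ ^ 2 ≤
      (∏ w : WQ p, (17 * L w)) * ∑ i ∈ I, bb i * KB2 V (fun w : WP p => U w) Z (q1 i) (q2 i) n := by
  have hU1 : ∀ w, 1 ≤ U w := fun w => by linarith [hU w]
  let _ : MeasurableSpace (G ⧸ H) := ⊤
  have hsing : MeasurableSingletonClass (G ⧸ H) := ⟨fun _ => trivial⟩
  have hct : Countable (G ⧸ H) := Function.Surjective.countable (QuotientGroup.mk_surjective (s := H))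
  have hval : Continuous fun y : V → S3 => fun v => (y v : Quaternion ℝ) :=
    continuous_pi fun v => continuous_subtype_val.comp (continuous_apply v)
  have hone : ∀ j z x, ft H r σ f j z ((1 : G) : G ⧸ H) x = f j z x := by
    intro j z x
    rw [ft_mk H r σ f hinv j z 1 x]
    simp only [inv_one, map_one, one_smul, one_mul]
  have hKB0 : ∀ i ∈ I, 0 ≤ KB2 V (fun w : WP p => U w) Z (q1 i) (q2 i) n := by
    intro i _
    unfold KB2
    have h1 : 0 ≤ ∏ v, ((n v : ℝ) + 1) := Finset.prod_nonneg fun v _ => by positivity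
    have h2 : 0 ≤ ∏ w : WP p, U w := Finset.prod_nonneg fun w _ => by linarith [hU1 w]
    have h3 := hq1 i
    have h4 := hq2 i
    positivity
  have hS0 : 0 ≤ ∑ i ∈ I, bb i * KB2 V (fun w : WP p => U w) Z (q1 i) (q2 i) n :=
    Finset.sum_nonneg fun i hi => mul_nonneg (hbb i) (hKB0 i hi)
  have hmf : ∀ j, Measurable fun q : ((W → ℍ) × (G ⧸ H)) × (V → S3) =>
      ft H r σ f j q.1.1 q.1.2 (fun v => (q.2 v : Quaternion ℝ)) := by
    intro j
    exact meas_yy (ft H r σ f j) (ft_cont H r σ f hfc j)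
  have hsing1 : MeasurableSet ({((1 : G) : G ⧸ H)} : Set (G ⧸ H)) := measurableSet_singleton _
  have hsm : ∀ g : G, MeasurePreserving (fun (z : W → ℍ) w => r w g • z w) (volume : Measure (W → ℍ)) volume := fun g =>
    measurePreserving_pi _ _ fun w => measurePreserving_smul ((r w g : SL(2, ℝ)) : GL (Fin 2) ℝ) (volume : Measure ℍ)
  have hcovF : ∀ᵐ q ∂((volume : Measure (W → ℍ)).prod (Measure.count : Measure (G ⧸ H))),
      {γ : G | ((fun w => r w γ • q.1 w), γ • q.2) ∈ F ×ˢ ({((1 : G) : G ⧸ H)} : Set (G ⧸ H))}.Finite ∧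
      ∃ γ : G, ((fun w => r w γ • q.1 w), γ • q.2) ∈ F ×ˢ ({((1 : G) : G ⧸ H)} : Set (G ⧸ H)) := by
    have h1 : ∀ᵐ z : W → ℍ, ∀ g : G, {γ : H | (fun w => r w (γ : G) • r w g • z w) ∈ F}.Finite ∧
        ∃ γ : H, (fun w => r w (γ : G) • r w g • z w) ∈ F := by
      rw [ae_all_iff]
      intro g
      have h2 := (hsm g).quasiMeasurePreserving.ae hcov
      exact h2
    filter_upwards [ae_prod_count (volume : Measure (W → ℍ)) (Measure.count : Measure (G ⧸ H)) h1] with q hq
    obtain ⟨g, hg⟩ := QuotientGroup.mk_surjective q.2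
    obtain ⟨hfin, ⟨γ₀, hγ₀⟩⟩ := hq g⁻¹
    constructor
    · refine (hfin.image fun γ : H => (γ : G) * g⁻¹).subset ?_
      rintro γ ⟨h2, h3⟩
      have h4 : γ * g ∈ H := by
        have h5 : ((γ * g : G) : G ⧸ H) = ((1 : G) : G ⧸ H) := by
          have := h3
          simp only [← hg] at this
          exact this
        rw [QuotientGroup.eq] at h5
        have h6 := H.inv_mem h5
        simpa using h6
      refine ⟨⟨γ * g, h4⟩, ?_, ?_⟩
      · show (fun w => r w (γ * g) • r w g⁻¹ • q.1 w) ∈ F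
        have h5 : (fun w => r w (γ * g) • r w g⁻¹ • q.1 w) = fun w => r w γ • q.1 w := by
          funext w
          rw [← mul_smul, ← map_mul, mul_inv_cancel_right]
        rw [h5]
        exact h2
      · show γ * g * g⁻¹ = γ
        rw [mul_inv_cancel_right]
    · refine ⟨γ₀ * g⁻¹, ?_, ?_⟩
      · show (fun w => r w ((γ₀ : G) * g⁻¹) • q.1 w) ∈ F
        have h5 : (fun w => r w ((γ₀ : G) * g⁻¹) • q.1 w) = fun w => r w (γ₀ : G) • r w g⁻¹ • q.1 w := by
          funext w
          rw [← mul_smul, ← map_mul]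
        rw [h5]
        exact hγ₀
      · show ((γ₀ : G) * g⁻¹) • q.2 = _
        rw [← hg]
        show (((γ₀ : G) * g⁻¹ * g : G) : G ⧸ H) = ((1 : G) : G ⧸ H)
        rw [inv_mul_cancel_right, QuotientGroup.eq]
        simp
  have hinvF : ∀ j γ z (y : G ⧸ H) x, ft H r σ f j (fun w => r w γ • z w) (γ • y) (fun v => σ v γ * x v) =
      ft H r σ f j z y x := by
    intro j γ z y x
    obtain ⟨g, rfl⟩ := QuotientGroup.mk_surjective y
    have h1 : γ • (g : G ⧸ H) = ((γ * g : G) : G ⧸ H) := rfl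
    rw [h1, ft_mk H r σ f hinv, ft_mk H r σ f hinv]
    congr 1
    · funext w
      rw [← mul_smul, ← map_mul]
      congr 2
      group
    · funext v
      rw [← mul_assoc, ← map_mul]
      congr 2
      group
  have hoF : ∀ i j, ∫ q : ((W → ℍ) × (G ⧸ H)) × (V → S3), ft H r σ f i q.1.1 q.1.2 (fun v => q.2 v) *
      conj (ft H r σ f j q.1.1 q.1.2 (fun v => q.2 v))
      ∂((((volume : Measure (W → ℍ)).prod (Measure.count : Measure (G ⧸ H))).restrict
        (F ×ˢ ({((1 : G) : G ⧸ H)} : Set (G ⧸ H)))).prod (sgV V)) = if i = j then 1 else 0 := by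
    intro i j
    have h1 : ((volume : Measure (W → ℍ)).prod (Measure.count : Measure (G ⧸ H))).restrict
        (F ×ˢ ({((1 : G) : G ⧸ H)} : Set (G ⧸ H))) =
        Measure.map (fun z => (z, ((1 : G) : G ⧸ H))) (volume.restrict F) := by
      rw [← Measure.prod_restrict, Measure.restrict_singleton, Measure.count_singleton, one_smul, Measure.prod_dirac]
    have hme : Measurable fun z : W → ℍ => (z, ((1 : G) : G ⧸ H)) := measurable_id.prodMk measurable_const
    have h2 : (Measure.map (fun z => (z, ((1 : G) : G ⧸ H))) (volume.restrict F)).prod (sgV V) =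
        Measure.map (Prod.map (fun z : W → ℍ => (z, ((1 : G) : G ⧸ H))) id) ((volume.restrict F).prod (sgV V)) := by
      rw [← Measure.map_prod_map _ _ hme measurable_id, Measure.map_id]
    set Φ : ((W → ℍ) × (G ⧸ H)) × (V → S3) → ℂ := fun q => ft H r σ f i q.1.1 q.1.2 (fun v => q.2 v) *
      conj (ft H r σ f j q.1.1 q.1.2 (fun v => q.2 v)) with hΦ
    have hΦm : Measurable Φ := (hmf i).mul (Complex.continuous_conj.measurable.comp (hmf j))
    have h3 := integral_map (μ := (volume.restrict F).prod (sgV V)) (hme.prodMap measurable_id).aemeasurable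
      (f := Φ) hΦm.aestronglyMeasurable
    rw [h1, h2, h3, ← ho i j]
    refine integral_congr_ae (Filter.Eventually.of_forall fun q => ?_)
    show ft H r σ f i q.1 ((1 : G) : G ⧸ H) (fun v => q.2 v) * conj (ft H r σ f j q.1 ((1 : G) : G ⧸ H) (fun v => q.2 v)) = _
    rw [hone, hone]
  have hnF : ∀ j z (y : G ⧸ H), ft H r σ f j z y ∈ harm n := fun j z y => harm_left (hn j _) _
  have hSS : ∑' δ : G, ENNReal.ofReal |TH n (sS σ hσ δ)| *
      (((volume : Measure (WP p → ℍ)) (BP (fun w : WP p => U w) (fun w => z w) ∩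
        (fun (u : WP p → ℍ) (w : WP p) => r w δ • u w) ⁻¹' BP (fun w : WP p => U w) (fun w => z w)) *
        (Measure.count : Measure (G ⧸ H)) ((Bl : Set (G ⧸ H)) ∩ (fun y => δ • y) ⁻¹' Bl)) *
      {δ : G | ∃ z' ∈ EQ (fun w : WQ p => L w) (fun w => z w), (fun w : WQ p => r w δ • z' w) ∈
        EQ (fun w : WQ p => L w) (fun w => z w)}.indicator 1 δ) ≤
      ENNReal.ofReal (∑ i ∈ I, bb i * KB2 V (fun w : WP p => U w) Z (q1 i) (q2 i) n) := by
    refine kernel_tsum2 (fun w : WP p => r w) (fun w : WQ p => r w) σ hσ (fun w => z w) (fun w => z w) I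
      (fun w => hU1 w) hZ hq1 hq2 hbb (fun w => hL w) hcount n _ fun δ => ?_
    have hc : (Measure.count : Measure (G ⧸ H)) ((Bl : Set (G ⧸ H)) ∩ (fun y => δ • y) ⁻¹' Bl) =
        ((Bl.filter fun y => δ • y ∈ Bl).card : ℝ≥0∞) := by
      rw [← Measure.count_apply_finset]
      congr 1
      ext y
      simp
    rw [hc]
    rcases hbc δ with h | ⟨i, hi, hL1, hb⟩
    · left
      have : Bl.filter (fun y => δ • y ∈ Bl) = ∅ := by
        rw [Finset.filter_eq_empty_iff]
        exact fun y hy => h y hy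
      rw [this, Finset.card_empty, Nat.cast_zero]
    · right
      refine ⟨i, hi, hL1, ?_⟩
      rw [← ENNReal.ofReal_natCast]
      exact ENNReal.ofReal_le_ofReal hb
  have key := coreZ (Y := G ⧸ H) p r σ hσ (U := U) (L := L) (ft H r σ f) (lam := lam) (n := n)
    (F := F ×ˢ ({((1 : G) : G ⧸ H)} : Set (G ⧸ H))) hU hL (hF.prod hsing1) hcovF (ft_cont H r σ f hfc) hinvF
    ((1 : G) : G ⧸ H) (fun j w z x => by
      have h1 : (fun u => ft H r σ f j (update z w u) ((1 : G) : G ⧸ H) x) = fun u => f j (update z w u) x := by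
        funext u
        exact hone _ _ _
      rw [h1]
      exact hE j w z x) hnF hoF hlam2 hϑ hϑ2 hlam Bl hh'0 (fun j z x => by
      rw [hone]
      exact hball j z x) z hS0 hSS x
  simp only [hone] at key
  exact key

end coreH

end Pool.Agent.H496.R7
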