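import Pool.Agent.H496.R6.Core

/-! Product mean values and the kernel sum with several exceptional places and denominators. -/

set_option autoImplicit false

namespace Pool.Agent.H496.R7

open MeasureTheory Set Function
open UpperHalfPlane hiding I
open scoped ENNReal NNReal MatrixGroups
open Pool.Agent.H496 Pool.Agent.H496.R4 Pool.Agent.H496.R6
open Pool.Agent.T2H31 (rad EB)

/-- the mean value property on a product -/
theorem pi_mean : ∀ (N : ℕ) (P : Type) [Fintype P] [DecidableEq P], Fintype.card P = N →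
    ∀ (B K : P → Set ℍ), (∀ w, MeasurableSet (B w)) → (∀ w, IsCompact (K w)) → (∀ w, B w ⊆ K w) →
    ∀ (h : P → ℂ) (z : P → ℍ) (e : (P → ℍ) → ℂ), Continuous e →
    (∀ w u, ∫ x in B w, e (update u w x) = h w * e (update u w (z w))) →
    ∫ u in univ.pi B, e u = (∏ w, h w) * e z := by
  intro N
  induction N with
  | zero =>
    intro P _ _ hP B K hB hK hBK h z e he hmean
    have : IsEmpty P := Fintype.card_eq_zero_iff.1 hP
    have h1 : (univ.pi B : Set (P → ℍ)) = univ := by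
      ext u
      simp
    rw [h1, Measure.restrict_univ, Finset.univ_eq_empty, Finset.prod_empty, one_mul]
    have h2 : (volume : Measure (P → ℍ)) = Measure.dirac z := by
      rw [volume_pi, Measure.pi_of_empty (fun _ => (volume : Measure ℍ)) z]
    rw [h2, integral_dirac]
  | succ N ih =>
    intro P _ _ hP B K hB hK hBK h z e he hmean
    have hne : Nonempty P := Fintype.card_pos_iff.1 (by omega)
    obtain ⟨w₀⟩ := hne
    have hcard : Fintype.card (Oth w₀) = N := by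
      have h1 : Fintype.card {w : P // ¬ w = w₀} = Fintype.card P - Fintype.card {w : P // w = w₀} :=
        Fintype.card_subtype_compl _
      rw [h1, Fintype.card_subtype_eq, hP]
      omega
    set B' : Oth w₀ → Set ℍ := fun w => B w with hB'
    have hpre : (fun p : ℍ × (Oth w₀ → ℍ) => mk w₀ p.1 p.2) ⁻¹' (univ.pi B) = B w₀ ×ˢ univ.pi B' := by
      ext p
      constructor
      · intro hp
        refine ⟨?_, fun w _ => ?_⟩
        · have := hp w₀ (mem_univ _)
          simp only [mk_self] at this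
          exact this
        · have := hp w (mem_univ _)
          simp only [mk_oth] at this
          exact this
      · rintro ⟨h1, h2⟩ w _
        by_cases hw : w = w₀
        · subst hw
          simp only [mk_self]
          exact h1
        · have := h2 ⟨w, hw⟩ (mem_univ _)
          have e1 : mk w₀ p.1 p.2 w = p.2 ⟨w, hw⟩ := mk_oth w₀ p.1 p.2 ⟨w, hw⟩
          show mk w₀ p.1 p.2 w ∈ B w
          rw [e1]
          exact this
    have hBm : MeasurableSet (univ.pi B) := MeasurableSet.univ_pi hB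
    have hcm := continuous_mk (W := P) w₀
    have e1 : ∫ u in univ.pi B, e u = ∫ p in B w₀ ×ˢ univ.pi B', e (mk w₀ p.1 p.2)
        ∂((volume : Measure ℍ).prod (volume : Measure (Oth w₀ → ℍ))) := by
      rw [← hpre]
      have h1 := (mp_symm (W := P) w₀)
      have h2 := h1.restrict_preimage hBm
      have h3 := integral_map (μ := ((volume : Measure ℍ).prod (volume : Measure (Oth w₀ → ℍ))).restrict
        ((fun p : ℍ × (Oth w₀ → ℍ) => mk w₀ p.1 p.2) ⁻¹' (univ.pi B))) h2.measurable.aemeasurable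
        (f := e) he.aestronglyMeasurable
      rw [h2.map_eq] at h3
      exact h3
    have hK' : IsCompact (K w₀ ×ˢ univ.pi fun w : Oth w₀ => K w) := (hK w₀).prod (isCompact_univ_pi fun w => hK w)
    have hsub : B w₀ ×ˢ univ.pi B' ⊆ K w₀ ×ˢ univ.pi fun w : Oth w₀ => K w :=
      Set.prod_mono (hBK w₀) (Set.pi_mono fun w _ => hBK w)
    have hfc : Continuous fun p : ℍ × (Oth w₀ → ℍ) => e (mk w₀ p.1 p.2) := he.comp hcm
    have hint : IntegrableOn (fun p : ℍ × (Oth w₀ → ℍ) => e (mk w₀ p.1 p.2)) (B w₀ ×ˢ univ.pi B')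
        ((volume : Measure ℍ).prod (volume : Measure (Oth w₀ → ℍ))) :=
      (hfc.continuousOn.integrableOn_compact hK').mono_set hsub
    rw [e1, setIntegral_prod _ hint]
    have e2 : ∀ x, ∫ y in univ.pi B', e (mk w₀ x y) = (∏ w : Oth w₀, h w) * e (mk w₀ x fun w => z w) := by
      intro x
      refine ih (Oth w₀) hcard B' (fun w => K w) (fun w => hB w) (fun w => hK w) (fun w => hBK w) (fun w => h w)
        (fun w => z w) (fun y => e (mk w₀ x y)) (he.comp (hcm.comp (continuous_const.prodMk continuous_id))) ?_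
      intro w u
      have := hmean w (mk w₀ x u)
      simp only [update_mk_oth] at this
      exact this
    simp_rw [e2]
    rw [integral_const_mul]
    have e3 := hmean w₀ (mk w₀ (z w₀) fun w => z w)
    simp only [update_mk_self] at e3
    rw [e3, mk_eta, ← Finset.mul_prod_erase Finset.univ _ (Finset.mem_univ w₀)]
    have e4 : ∏ w ∈ Finset.univ.erase w₀, h w = ∏ w : Oth w₀, h w :=
      Finset.prod_subtype (Finset.univ.erase w₀) (fun w => by simp) h
    rw [e4]
    ring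

/-- the intersection of two translates of a disc -/
theorem vol_BD_inter {U : ℝ} (hU : 1 ≤ U) (z : ℍ) (g : SL(2, ℝ)) :
    ((volume : Measure ℍ) (BD z (rr U) ∩ (fun u => g • u) ⁻¹' BD z (rr U)) ≤
      ENNReal.ofReal (16 * U / Real.cosh (dist z (g • z) / 2))) ∧
    (¬ Real.cosh (dist z (g • z) / 2) ≤ 2 * U →
      (volume : Measure ℍ) (BD z (rr U) ∩ (fun u => g • u) ⁻¹' BD z (rr U)) = 0) := by
  have hd : dist z (g⁻¹ • z) = dist z (g • z) := by
    rw [← dist_smul g z (g⁻¹ • z), smul_inv_smul, dist_comm]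
  have hsub : BD z (rr U) ∩ (fun u => g • u) ⁻¹' BD z (rr U) ⊆
      Metric.closedBall z (rad U) ∩ Metric.closedBall (g⁻¹ • z) (rad U) := by
    rintro u ⟨u1, u2⟩
    refine ⟨BD_sub hU _ u1, ?_⟩
    have u3 := BD_sub hU _ u2
    rw [Metric.mem_closedBall] at u3 ⊢
    rw [← dist_smul g u, smul_inv_smul]
    exact u3
  constructor
  · refine (measure_mono hsub).trans ?_
    have h3 := vol_inter hU z (g⁻¹ • z)
    rw [hd] at h3
    exact h3
  · intro h2
    have h3 : BD z (rr U) ∩ (fun u => g • u) ⁻¹' BD z (rr U) = ∅ := by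
      rw [Set.eq_empty_iff_forall_notMem]
      intro u hu
      obtain ⟨u1, u2⟩ := hsub hu
      have h4 := cosh_half_le hU u1 u2
      rw [hd] at h4
      exact h2 h4
    rw [h3, measure_empty]

section kern
variable {P Q V G : Type*} [Fintype P] [DecidableEq P] [Fintype Q] [Fintype V] [DecidableEq V] [Group G]
  (rP : P → G →* SL(2, ℝ)) (rQ : Q → G →* SL(2, ℝ)) (σ : V → G →* Quaternion ℝ) (hσ : ∀ v γ, ‖σ v γ‖ = 1)
  (zP : P → ℍ) (zQ : Q → ℍ)

/-- the counting hypothesis -/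
def CountHyp2 (Lv : G → Prop) (U : P → ℝ) (Z q1 q2 : ℝ) : Prop :=
  ∀ T : P → ℝ, (∀ w, 1 ≤ T w) → (∀ w, T w ≤ 4 * U w) → ∀ s : V → ℝ, (∀ v, 0 < s v) → (∀ v, s v ≤ 1) →
    ∀ A : Finset G,
    (∀ γ ∈ A, Lv γ ∧ (∀ w, cd rP zP w γ ≤ T w) ∧ (∀ w, cd rQ zQ w γ ≤ 2) ∧ ∀ v, sn (σ v γ) ≤ s v) →
    (A.card : ℝ) ≤ Z * ((1 + (∏ w, T w) * (∏ v, s v ^ 2) * q2) * (1 + (∏ w, T w) * (∏ v, s v) * q1))

/-- the bound of the kernel sum -/
noncomputable def KB2 (V : Type*) [Fintype V] (U : P → ℝ) (Z q1 q2 : ℝ) (n : V → ℕ) : ℝ :=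
  ((∏ w, (nsc (U w) : ℝ)) * ∏ v, ((scl (n v) : ℝ) + 1)) *
    (32 ^ Fintype.card P * 2 ^ Fintype.card V * (∏ w, U w) * (∏ v, ((n v : ℝ) + 1)) * Z *
    (2 ^ Fintype.card V * (∏ v, ((n v : ℝ) + 1)) + q2 + q1 + 4 ^ Fintype.card P * (∏ w, U w) * (q1 * q2)))

omit [Fintype Q] in
theorem kernel_sum2 {Lv : G → Prop} {U : P → ℝ} {Z q1 q2 : ℝ} (hU : ∀ w, 1 ≤ U w) (hZ : 0 ≤ Z) (hq1 : 0 ≤ q1)
    (hq2 : 0 ≤ q2) (hcount : CountHyp2 rP rQ σ zP zQ Lv U Z q1 q2) (n : V → ℕ) (A : Finset G)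
    (hA : ∀ γ ∈ A, Lv γ ∧ (∀ w, cd rP zP w γ ≤ 2 * U w) ∧ ∀ w, cd rQ zQ w γ ≤ 2) :
    ∑ γ ∈ A, |TH n (sS σ hσ γ)| * (∏ w, (16 * U w / cd rP zP w γ)) ≤ KB2 V U Z q1 q2 n := by
  classical
  set I := Fintype.piFinset fun v : V => Finset.range (scl (n v) + 1) with hI
  set I' := Fintype.piFinset fun w : P => Finset.range (nsc (U w)) with hI'
  set a : (P → ℕ) × (V → ℕ) → ℝ := fun i => (∏ v, (((n v : ℝ) + 1) * 2 ^ (i.2 v + 1))) * (∏ w, (16 * U w / 2 ^ i.1 w)) with ha
  set Pr : G → (P → ℕ) × (V → ℕ) → Prop := fun γ i => (∀ w, cd rP zP w γ ≤ 2 ^ (i.1 w + 1)) ∧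
    ∀ v, sn (σ v γ) ≤ (1 / 2 : ℝ) ^ (i.2 v) with hPr
  have hU0 : ∀ w, 0 < U w := fun w => by linarith [hU w]
  have ha0 : ∀ i, 0 ≤ a i := fun i => mul_nonneg (Finset.prod_nonneg fun v _ => by positivity)
    (Finset.prod_nonneg fun w _ => by have := hU0 w; positivity)
  set IJ := I' ×ˢ I with hIJ
  have h1 : ∀ γ ∈ A, |TH n (sS σ hσ γ)| * (∏ w, (16 * U w / cd rP zP w γ)) ≤ ∑ i ∈ IJ, if Pr γ i then a i else 0 := by
    intro γ hγ
    obtain ⟨i, hi, h2, h3⟩ := exists_scale σ hσ n γ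
    choose t ht h5 h6 using fun w => exists_t rP zP (w := w) ((hA γ hγ).2.1 w)
    have h7 : |TH n (sS σ hσ γ)| * (∏ w, (16 * U w / cd rP zP w γ)) ≤ a (t, i) := by
      have h8 : (∏ w, (16 * U w / cd rP zP w γ)) ≤ ∏ w, (16 * U w / 2 ^ t w) := by
        refine Finset.prod_le_prod (fun w _ => ?_) fun w _ => ?_
        · have := hU0 w
          have := one_le_cd rP zP w γ
          positivity
        · have := hU0 w
          have := h6 w
          gcongr
      have h9 : 0 ≤ ∏ w, (16 * U w / cd rP zP w γ) := Finset.prod_nonneg fun w _ => by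
        have := hU0 w
        have := one_le_cd rP zP w γ
        positivity
      exact mul_le_mul h3 h8 h9 (Finset.prod_nonneg fun v _ => by positivity)
    refine h7.trans ?_
    have h4 : (if Pr γ (t, i) then a (t, i) else 0) ≤ ∑ i ∈ IJ, if Pr γ i then a i else 0 :=
      Finset.single_le_sum (f := fun i => if Pr γ i then a i else 0) (fun j _ => by
        have := ha0 j
        split_ifs <;> simp [this]) (Finset.mem_product.2 ⟨Fintype.mem_piFinset.2 ht, hi⟩)
    rwa [if_pos (show Pr γ (t, i) from ⟨h5, h2⟩)] at h4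
  set PU : ℝ := ∏ w, U w with hPU
  have hPU1 : 1 ≤ PU := by
    calc (1 : ℝ) = ∏ _w : P, (1 : ℝ) := by simp
      _ ≤ _ := Finset.prod_le_prod (fun _ _ => zero_le_one) fun w _ => hU w
  have hPU0 : 0 < PU := by linarith
  have hterm : ∀ i ∈ IJ, a i * ((A.filter fun γ => Pr γ i).card : ℝ) ≤
      32 ^ Fintype.card P * 2 ^ Fintype.card V * PU * (∏ v, ((n v : ℝ) + 1)) * Z *
        (2 ^ Fintype.card V * (∏ v, ((n v : ℝ) + 1)) + q2 + q1 + 4 ^ Fintype.card P * PU * (q1 * q2)) := by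
    rintro ⟨t, i⟩ hti
    obtain ⟨ht, hi⟩ := Finset.mem_product.1 hti
    have ht' : ∀ w, (2 : ℝ) ^ t w ≤ 2 * U w := fun w => nsc_pow (hU w) (Fintype.mem_piFinset.1 ht w)
    set T : P → ℝ := fun w => 2 ^ (t w + 1) with hT
    have hT1 : ∀ w, 1 ≤ T w := fun w => one_le_pow₀ (by norm_num)
    have hT4 : ∀ w, T w ≤ 4 * U w := by
      intro w
      rw [hT]
      simp only
      rw [pow_succ]
      linarith [ht' w]
    set 𝒯 : ℝ := ∏ w, T w with h𝒯
    have h𝒯1 : 1 ≤ 𝒯 := by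
      calc (1 : ℝ) = ∏ _w : P, (1 : ℝ) := by simp
        _ ≤ _ := Finset.prod_le_prod (fun _ _ => zero_le_one) fun w _ => hT1 w
    have h𝒯4 : 𝒯 ≤ 4 ^ Fintype.card P * PU := by
      rw [hPU, ← Finset.card_univ, ← Finset.prod_const, ← Finset.prod_mul_distrib]
      exact Finset.prod_le_prod (fun w _ => by linarith [hT1 w]) fun w _ => hT4 w
    set Φ : ℝ := ∏ v, (1 / 2 : ℝ) ^ (i v) with hΦ
    have hΦ0 : 0 < Φ := Finset.prod_pos fun v _ => by positivity
    have hΦ1 : Φ ≤ 1 := Finset.prod_le_one (fun v _ => by positivity) fun v _ =>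
      pow_le_one₀ (by norm_num) (by norm_num)
    have hΦ2 : ∏ v, ((1 / 2 : ℝ) ^ (i v)) ^ 2 = Φ ^ 2 := by rw [hΦ, Finset.prod_pow]
    set PN : ℝ := ∏ v, ((n v : ℝ) + 1) with hPN
    have hPN0 : 0 < PN := Finset.prod_pos fun v _ => by positivity
    have hcnt := hcount T hT1 hT4 (fun v => (1 / 2 : ℝ) ^ (i v)) (fun v => by positivity)
      (fun v => pow_le_one₀ (by norm_num) (by norm_num)) (A.filter fun γ => Pr γ (t, i)) (fun γ hγ => by
        obtain ⟨g1, g2⟩ := Finset.mem_filter.1 hγ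
        exact ⟨(hA γ g1).1, g2.1, (hA γ g1).2.2, g2.2⟩)
    rw [hΦ2, ← hΦ, ← h𝒯] at hcnt
    have e1 : a (t, i) = 32 ^ Fintype.card P * 2 ^ Fintype.card V * PU * PN / (Φ * 𝒯) := by
      rw [ha]
      simp only
      have e2 : ∏ v, (((n v : ℝ) + 1) * 2 ^ (i v + 1)) = PN * (2 ^ Fintype.card V / Φ) := by
        rw [hΦ, hPN, ← Finset.card_univ, ← Finset.prod_const, ← Finset.prod_div_distrib, ← Finset.prod_mul_distrib]
        refine Finset.prod_congr rfl fun v _ => ?_
        rw [one_div, inv_pow, div_inv_eq_mul, pow_succ]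
        ring
      have e3 : ∏ w, (16 * U w / 2 ^ t w) = 32 ^ Fintype.card P * PU / 𝒯 := by
        rw [hPU, h𝒯, ← Finset.card_univ, ← Finset.prod_const, ← Finset.prod_mul_distrib, ← Finset.prod_div_distrib]
        refine Finset.prod_congr rfl fun w _ => ?_
        rw [hT]
        simp only
        rw [pow_succ]
        field_simp
        ring
      rw [e2, e3]
      field_simp
    have hΦinv : 1 / Φ ≤ 2 ^ Fintype.card V * PN := by
      rw [hΦ, hPN, ← Finset.card_univ, ← Finset.prod_const, ← Finset.prod_mul_distrib, one_div, ← Finset.prod_inv_distrib]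
      refine Finset.prod_le_prod (fun v _ => by positivity) fun v _ => ?_
      rw [one_div, inv_pow, inv_inv]
      have h2 := scl_le (n v)
      have h3 : i v ≤ scl (n v) := Nat.lt_succ_iff.1 (Finset.mem_range.1 (Fintype.mem_piFinset.1 hi v))
      exact (pow_le_pow_right₀ (by norm_num) h3).trans h2
    have h𝒯0 : 0 < 𝒯 := by linarith
    have hstep : (1 + 𝒯 * Φ ^ 2 * q2) * (1 + 𝒯 * Φ * q1) / (Φ * 𝒯) ≤
        2 ^ Fintype.card V * PN + q2 + q1 + 4 ^ Fintype.card P * PU * (q1 * q2) := by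
      have e3 : (1 + 𝒯 * Φ ^ 2 * q2) * (1 + 𝒯 * Φ * q1) / (Φ * 𝒯) =
          (1 / Φ) * (1 / 𝒯) + Φ * q2 + q1 + 𝒯 * Φ ^ 2 * (q1 * q2) := by
        field_simp
        ring
      rw [e3]
      have h2 : (1 / Φ) * (1 / 𝒯) ≤ 2 ^ Fintype.card V * PN := by
        calc (1 / Φ) * (1 / 𝒯) ≤ (1 / Φ) * 1 := by
              gcongr
              rw [div_le_one h𝒯0]
              exact h𝒯1
          _ ≤ _ := by rw [mul_one]; exact hΦinv
      have h3 : Φ * q2 ≤ q2 := mul_le_of_le_one_left hq2 hΦ1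
      have h4 : 𝒯 * Φ ^ 2 * (q1 * q2) ≤ 4 ^ Fintype.card P * PU * (q1 * q2) := by
        have h5 : 𝒯 * Φ ^ 2 ≤ 4 ^ Fintype.card P * PU := by
          have h6 : Φ ^ 2 ≤ 1 := pow_le_one₀ hΦ0.le hΦ1
          exact (mul_le_of_le_one_right h𝒯0.le h6).trans h𝒯4
        exact mul_le_mul_of_nonneg_right h5 (mul_nonneg hq1 hq2)
      linarith
    calc a (t, i) * ((A.filter fun γ => Pr γ (t, i)).card : ℝ) ≤
        a (t, i) * (Z * ((1 + 𝒯 * Φ ^ 2 * q2) * (1 + 𝒯 * Φ * q1))) := mul_le_mul_of_nonneg_left hcnt (ha0 _)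
      _ = 32 ^ Fintype.card P * 2 ^ Fintype.card V * PU * PN * Z *
          ((1 + 𝒯 * Φ ^ 2 * q2) * (1 + 𝒯 * Φ * q1) / (Φ * 𝒯)) := by
          rw [e1]
          ring
      _ ≤ _ := mul_le_mul_of_nonneg_left hstep (by positivity)
  calc ∑ γ ∈ A, |TH n (sS σ hσ γ)| * (∏ w, (16 * U w / cd rP zP w γ)) ≤ ∑ γ ∈ A, ∑ i ∈ IJ, if Pr γ i then a i else 0 :=
        Finset.sum_le_sum fun γ hγ => h1 γ hγ
    _ = ∑ i ∈ IJ, a i * ((A.filter fun γ => Pr γ i).card : ℝ) := by
        rw [Finset.sum_comm]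
        refine Finset.sum_congr rfl fun i _ => ?_
        rw [← Finset.sum_filter, Finset.sum_const, nsmul_eq_mul, mul_comm]
    _ ≤ ∑ _i ∈ IJ, 32 ^ Fintype.card P * 2 ^ Fintype.card V * PU * (∏ v, ((n v : ℝ) + 1)) * Z *
        (2 ^ Fintype.card V * (∏ v, ((n v : ℝ) + 1)) + q2 + q1 + 4 ^ Fintype.card P * PU * (q1 * q2)) :=
        Finset.sum_le_sum hterm
    _ = KB2 V U Z q1 q2 n := by
        rw [Finset.sum_const, nsmul_eq_mul, hIJ, Finset.card_product, hI', hI, Fintype.card_piFinset, Fintype.card_piFinset]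
        simp only [Finset.card_range]
        rw [KB2]
        push_cast
        rfl

/-- the product of the small balls at the other places -/
def EQ (L : Q → ℝ) (zQ : Q → ℍ) : Set (Q → ℍ) :=
  univ.pi fun w : Q => EB (zQ w) (1 / (2 * Real.sqrt (L w)))

/-- the product of the large discs at the exceptional places -/
def BP (U : P → ℝ) (zP : P → ℍ) : Set (P → ℍ) := univ.pi fun w : P => BD (zP w) (rr (U w))

theorem kernel_tsum2 [Countable G] {κ : Type*} (I : Finset κ) {Lv : κ → G → Prop} {U : P → ℝ} {Z : ℝ} {q1 q2 bb : κ → ℝ}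
    {L : Q → ℝ}
    (hU : ∀ w, 1 ≤ U w) (hZ : 0 ≤ Z) (hq1 : ∀ i, 0 ≤ q1 i) (hq2 : ∀ i, 0 ≤ q2 i) (hbb : ∀ i, 0 ≤ bb i)
    (hL : ∀ w, 1 ≤ L w) (hcount : ∀ i ∈ I, CountHyp2 rP rQ σ zP zQ (Lv i) U Z (q1 i) (q2 i)) (n : V → ℕ)
    (bc : G → ℝ≥0∞) (hbc : ∀ δ, bc δ = 0 ∨ ∃ i ∈ I, Lv i δ ∧ bc δ ≤ ENNReal.ofReal (bb i)) :
    ∑' δ : G, ENNReal.ofReal |TH n (sS σ hσ δ)| *
      (((volume : Measure (P → ℍ)) (BP U zP ∩ (fun u w => rP w δ • u w) ⁻¹' BP U zP) * bc δ) *
      {δ : G | ∃ z' ∈ EQ L zQ, (fun w => rQ w δ • z' w) ∈ EQ L zQ}.indicator 1 δ) ≤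
      ENNReal.ofReal (∑ i ∈ I, bb i * KB2 V U Z (q1 i) (q2 i) n) := by
  classical
  set Pr : κ → G → Prop := fun i δ => Lv i δ ∧ (∀ w, cd rP zP w δ ≤ 2 * U w) ∧ ∀ w, cd rQ zQ w δ ≤ 2 with hPr
  have hU0 : ∀ w, 0 < U w := fun w => by linarith [hU w]
  set X : G → ℝ := fun δ => |TH n (sS σ hσ δ)| * (∏ w, (16 * U w / cd rP zP w δ)) with hX
  have hX0 : ∀ δ, 0 ≤ X δ := fun δ => mul_nonneg (abs_nonneg _) (Finset.prod_nonneg fun w _ => by
    have := hU0 w
    have := one_le_cd rP zP w δ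
    positivity)
  have hterm : ∀ δ : G, ENNReal.ofReal |TH n (sS σ hσ δ)| *
      (((volume : Measure (P → ℍ)) (BP U zP ∩ (fun u w => rP w δ • u w) ⁻¹' BP U zP) * bc δ) *
      {δ : G | ∃ z' ∈ EQ L zQ, (fun w => rQ w δ • z' w) ∈ EQ L zQ}.indicator 1 δ) ≤
      ∑ i ∈ I, if Pr i δ then ENNReal.ofReal (bb i * X δ) else 0 := by
    intro δ
    by_cases h1 : ∃ z' ∈ EQ L zQ, (fun w => rQ w δ • z' w) ∈ EQ L zQ
    · rw [indicator_of_mem (show δ ∈ {δ : G | ∃ z' ∈ EQ L zQ, (fun w => rQ w δ • z' w) ∈ EQ L zQ} from h1),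
        Pi.one_apply, mul_one]
      obtain ⟨z', hz1, hz2⟩ := h1
      have hother : ∀ w, cd rQ zQ w δ ≤ 2 := by
        intro w
        have hs : 1 ≤ Real.sqrt (L w) := Real.one_le_sqrt.2 (hL w)
        have hρ0 : 0 ≤ 1 / (2 * Real.sqrt (L w)) := by positivity
        have hρ : 1 / (2 * Real.sqrt (L w)) ≤ 1 / 2 := by
          gcongr
          linarith
        have a1 := Pool.Agent.T2H31.dist_of_EB hρ0 hρ (hz1 w (mem_univ _))
        have a2 := Pool.Agent.T2H31.dist_of_EB hρ0 hρ (hz2 w (mem_univ _))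
        have a3 : dist (zQ w) (rQ w δ • zQ w) ≤ 2 := by
          have b1 := dist_triangle (zQ w) (rQ w δ • z' w) (rQ w δ • zQ w)
          rw [dist_smul] at b1
          rw [dist_comm (zQ w) (rQ w δ • z' w)] at b1
          linarith
        rw [cd]
        refine le_trans ?_ cosh_one_le
        rw [Real.cosh_le_cosh, abs_of_nonneg (by positivity), abs_of_nonneg (by norm_num)]
        linarith
      have hset : BP U zP ∩ (fun (u : P → ℍ) w => rP w δ • u w) ⁻¹' BP U zP =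
          univ.pi fun w => BD (zP w) (rr (U w)) ∩ (fun u => rP w δ • u) ⁻¹' BD (zP w) (rr (U w)) := by
        ext u
        simp only [BP, mem_inter_iff, mem_preimage, mem_univ_pi, forall_and]
      have hvol : (volume : Measure (P → ℍ)) (BP U zP ∩ (fun u w => rP w δ • u w) ⁻¹' BP U zP) =
          ∏ w, (volume : Measure ℍ) (BD (zP w) (rr (U w)) ∩ (fun u => rP w δ • u) ⁻¹' BD (zP w) (rr (U w))) := by
        rw [hset, volume_pi_pi]
      by_cases h2 : ∀ w, cd rP zP w δ ≤ 2 * U w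
      · rcases hbc δ with h0 | ⟨i, hi, hLi, hbi⟩
        · rw [h0, mul_zero, mul_zero]
          exact bot_le
        · have h3 : (volume : Measure (P → ℍ)) (BP U zP ∩ (fun u w => rP w δ • u w) ⁻¹' BP U zP) ≤
              ENNReal.ofReal (∏ w, (16 * U w / cd rP zP w δ)) := by
            rw [hvol, ENNReal.ofReal_prod_of_nonneg (fun w _ => by
              have := hU0 w
              have := one_le_cd rP zP w δ
              positivity)]
            exact Finset.prod_le_prod' fun w _ => (vol_BD_inter (hU w) (zP w) (rP w δ)).1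
          have h4 : ENNReal.ofReal |TH n (sS σ hσ δ)| *
              ((volume : Measure (P → ℍ)) (BP U zP ∩ (fun u w => rP w δ • u w) ⁻¹' BP U zP) * bc δ) ≤
              ENNReal.ofReal (bb i * X δ) := by
            calc _ ≤ ENNReal.ofReal |TH n (sS σ hσ δ)| *
                  (ENNReal.ofReal (∏ w, (16 * U w / cd rP zP w δ)) * ENNReal.ofReal (bb i)) := by gcongr
              _ = ENNReal.ofReal (bb i * X δ) := by
                  rw [← ENNReal.ofReal_mul (Finset.prod_nonneg fun w _ => by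
                    have := hU0 w
                    have := one_le_cd rP zP w δ
                    positivity), ← ENNReal.ofReal_mul (abs_nonneg _)]
                  congr 1
                  rw [hX]
                  ring
          refine h4.trans ?_
          have h5 := Finset.single_le_sum (f := fun i => if Pr i δ then ENNReal.ofReal (bb i * X δ) else 0)
            (fun _ _ => bot_le) hi
          rwa [if_pos (show Pr i δ from ⟨hLi, h2, hother⟩)] at h5
      · push Not at h2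
        obtain ⟨w, hw⟩ := h2
        have h3 := (vol_BD_inter (hU w) (zP w) (rP w δ)).2 (not_le.2 hw)
        rw [hvol, Finset.prod_eq_zero (Finset.mem_univ w) h3, zero_mul, mul_zero]
        exact bot_le
    · rw [indicator_of_notMem (show δ ∉ {δ : G | ∃ z' ∈ EQ L zQ, (fun w => rQ w δ • z' w) ∈ EQ L zQ} from h1),
        mul_zero, mul_zero]
      exact bot_le
  refine (ENNReal.tsum_le_tsum hterm).trans ?_
  rw [ENNReal.tsum_eq_iSup_sum]
  refine iSup_le fun A => ?_
  rw [Finset.sum_comm, ENNReal.ofReal_sum_of_nonneg (fun i _ => mul_nonneg (hbb i) (by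
    unfold KB2
    have h1 : 0 ≤ ∏ v, ((n v : ℝ) + 1) := Finset.prod_nonneg fun v _ => by positivity
    have h2 : 0 ≤ ∏ w, U w := Finset.prod_nonneg fun w _ => (hU0 w).le
    have h3 := hq1 i
    have h4 := hq2 i
    positivity))]
  refine Finset.sum_le_sum fun i hi => ?_
  rw [← Finset.sum_filter, ← ENNReal.ofReal_sum_of_nonneg (fun δ _ => mul_nonneg (hbb i) (hX0 δ)), ← Finset.mul_sum]
  apply ENNReal.ofReal_le_ofReal
  refine mul_le_mul_of_nonneg_left ?_ (hbb i)
  exact kernel_sum2 rP rQ σ hσ zP zQ hU hZ (hq1 i) (hq2 i) (hcount i hi) n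
    (A.filter (Pr i)) fun γ hγ => (Finset.mem_filter.1 hγ).2

end kern

end Pool.Agent.H496.R7
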