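import Mathlib

/-! Counting lattices: the local part. -/

set_option autoImplicit false

namespace Pool.Agent.H496.R7

open Matrix

section dvr
variable {A : Type*} [CommRing A] [IsDomain A] [IsDiscreteValuationRing A]

/-- row reduction over a discrete valuation ring -/
theorem row_reduce {ϖ : A} (hϖ : Irreducible ϖ) (N : Matrix (Fin 2) (Fin 2) A) {n : ℕ} {u : A} (hu : IsUnit u)
    (hdet : N.det = u * ϖ ^ n) {i : ℕ} (h0 : ϖ ^ i ∣ N 0 0) (h1 : ϖ ^ i ∣ N 1 0) :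
    ∃ (g : Matrix (Fin 2) (Fin 2) A) (α : ℕ) (β : A), i ≤ α ∧ α ≤ n ∧
      N = g * !![ϖ ^ α, β; 0, ϖ ^ (n - α)] := by
  have hϖ0 : ϖ ≠ 0 := hϖ.ne_zero
  rw [Matrix.det_fin_two] at hdet
  have hrhs : u * ϖ ^ n ≠ 0 := mul_ne_zero hu.ne_zero (pow_ne_zero n hϖ0)
  -- the general step
  have step : ∀ p t : A, p ∣ u * ϖ ^ n → p * t = u * ϖ ^ n → ϖ ^ i ∣ p → ∃ (v : Aˣ) (α : ℕ), i ≤ α ∧ α ≤ n ∧
      p = v * ϖ ^ α ∧ v * t = u * ϖ ^ (n - α) := by
    intro p t _ hpt hi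
    have hp0 : p ≠ 0 := by
      rintro rfl
      rw [zero_mul] at hpt
      exact hrhs hpt.symm
    obtain ⟨α, v, hv⟩ := IsDiscreteValuationRing.eq_unit_mul_pow_irreducible hp0 hϖ
    have hiα : i ≤ α := by
      rw [hv, Units.dvd_mul_left] at hi
      exact (pow_dvd_pow_iff hϖ0 hϖ.not_isUnit).1 hi
    have hαn : α ≤ n := by
      have h2 : ϖ ^ α ∣ u * ϖ ^ n := by
        rw [← hpt, hv, mul_assoc]
        exact Dvd.dvd.mul_left (Dvd.intro _ rfl) _
      rw [hu.dvd_mul_left] at h2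
      exact (pow_dvd_pow_iff hϖ0 hϖ.not_isUnit).1 h2
    refine ⟨v, α, hiα, hαn, hv, ?_⟩
    have h3 : ϖ ^ α * (v * t) = ϖ ^ α * (u * ϖ ^ (n - α)) := by
      calc ϖ ^ α * (v * t) = (v * ϖ ^ α) * t := by ring
        _ = u * ϖ ^ n := by rw [← hv, hpt]
        _ = u * (ϖ ^ α * ϖ ^ (n - α)) := by rw [← pow_add, Nat.add_sub_cancel' hαn]
        _ = _ := by ring
    exact mul_left_cancel₀ (pow_ne_zero α hϖ0) h3
  rcases ValuationRing.dvd_total (N 0 0) (N 1 0) with h | h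
  · obtain ⟨c, hc⟩ := h
    have e1 : N 0 0 * (N 1 1 - N 0 1 * c) = u * ϖ ^ n := by
      rw [← hdet, hc]
      ring
    obtain ⟨v, α, k1, k2, k3, k4⟩ := step _ _ (Dvd.intro _ e1) e1 h0
    have k5 : N 1 1 - N 0 1 * c = (↑v⁻¹ : A) * (u * ϖ ^ (n - α)) := by
      rw [← k4, ← mul_assoc, Units.inv_mul, one_mul]
    refine ⟨!![(v : A), 0; v * c, (↑v⁻¹ : A) * u], α, (↑v⁻¹ : A) * N 0 1, k1, k2, ?_⟩
    ext a b
    fin_cases a <;> fin_cases b
    · simp [Matrix.mul_apply, Fin.sum_univ_two, k3]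
    · simp [Matrix.mul_apply, Fin.sum_univ_two]
    · simp [Matrix.mul_apply, Fin.sum_univ_two, hc, k3]
      ring
    · simp only [Matrix.mul_apply, Fin.sum_univ_two, Fin.mk_one, Matrix.of_apply, Matrix.cons_val', Matrix.cons_val_zero,
        Matrix.cons_val_one, Matrix.cons_val_fin_one]
      have k6 : (v : A) * c * ((↑v⁻¹ : A) * N 0 1) = N 0 1 * c := by
        calc (v : A) * c * ((↑v⁻¹ : A) * N 0 1) = ((v : A) * ↑v⁻¹) * (N 0 1 * c) := by ring
          _ = _ := by rw [Units.mul_inv, one_mul]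
      rw [k6]
      linear_combination k5
  · obtain ⟨c, hc⟩ := h
    have e1 : N 1 0 * (c * N 1 1 - N 0 1) = u * ϖ ^ n := by
      rw [← hdet, hc]
      ring
    obtain ⟨v, α, k1, k2, k3, k4⟩ := step _ _ (Dvd.intro _ e1) e1 h1
    have k5 : c * N 1 1 - N 0 1 = (↑v⁻¹ : A) * (u * ϖ ^ (n - α)) := by
      rw [← k4, ← mul_assoc, Units.inv_mul, one_mul]
    refine ⟨!![v * c, -((↑v⁻¹ : A) * u); (v : A), 0], α, (↑v⁻¹ : A) * N 1 1, k1, k2, ?_⟩
    ext a b
    fin_cases a <;> fin_cases b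
    · simp [Matrix.mul_apply, Fin.sum_univ_two, hc, k3]
      ring
    · simp only [Matrix.mul_apply, Fin.sum_univ_two, Fin.mk_one, Fin.zero_eta, Matrix.of_apply, Matrix.cons_val',
        Matrix.cons_val_zero, Matrix.cons_val_one, Matrix.cons_val_fin_one]
      have k6 : (v : A) * c * ((↑v⁻¹ : A) * N 1 1) = c * N 1 1 := by
        calc (v : A) * c * ((↑v⁻¹ : A) * N 1 1) = ((v : A) * ↑v⁻¹) * (c * N 1 1) := by ring
          _ = _ := by rw [Units.mul_inv, one_mul]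
      rw [k6]
      linear_combination -k5
    · simp [Matrix.mul_apply, Fin.sum_univ_two, k3]
    · simp [Matrix.mul_apply, Fin.sum_univ_two]

/-- lattices of given index in a lattice, by their reduced bases -/
theorem exists_key {ϖ : A} (hϖ : Irreducible ϖ) {q : ℕ}
    (hq : ∀ n, Finite (A ⧸ Ideal.span {ϖ ^ n}) ∧ Nat.card (A ⧸ Ideal.span {ϖ ^ n}) ≤ q ^ n)
    {ι : Type*} (N : ι → Matrix (Fin 2) (Fin 2) A) {n : ℕ} (hdet : ∀ j, ∃ u, IsUnit u ∧ (N j).det = u * ϖ ^ n)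
    {c0 c1 : A} {i : ℕ} (hc : IsUnit c0 ∨ IsUnit c1)
    (hNc : ∀ j a, ϖ ^ i ∣ N j a 0 * c0 + N j a 1 * c1) :
    ∃ key : ι → Fin (∑ k ∈ Finset.range (n + 1 - i), q ^ k),
      ∀ j j', key j = key j' → ∀ a b, ϖ ^ n ∣ (N j' * (N j).adjugate) a b := by
  classical
  -- an invertible matrix with first column `c`
  obtain ⟨k1, hk1, hk10, hk11⟩ : ∃ k1 : Matrix (Fin 2) (Fin 2) A, IsUnit k1.det ∧ k1 0 0 = c0 ∧ k1 1 0 = c1 := by
    rcases hc with h | h
    · exact ⟨!![c0, 0; c1, 1], by simpa [Matrix.det_fin_two] using h, rfl, rfl⟩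
    · exact ⟨!![c0, -1; c1, 0], by simpa [Matrix.det_fin_two] using h, rfl, rfl⟩
  have hred : ∀ j, ∃ (g : Matrix (Fin 2) (Fin 2) A) (α : ℕ) (β : A), i ≤ α ∧ α ≤ n ∧
      N j * k1 = g * !![ϖ ^ α, β; 0, ϖ ^ (n - α)] := by
    intro j
    obtain ⟨u, hu, hd⟩ := hdet j
    refine row_reduce hϖ (N j * k1) (u := u * k1.det) (n := n) (hu.mul hk1) ?_ ?_ ?_
    · rw [Matrix.det_mul, hd]
      ring
    · have := hNc j 0
      rwa [Matrix.mul_apply, Fin.sum_univ_two, hk10, hk11]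
    · have := hNc j 1
      rwa [Matrix.mul_apply, Fin.sum_univ_two, hk10, hk11]
  choose g α β hα1 hα2 hg using hred
  -- the keys
  have hemb : ∀ k, ∃ e : (A ⧸ Ideal.span {ϖ ^ k}) → Fin (q ^ k), Function.Injective e := by
    intro k
    obtain ⟨hf, hcard⟩ := hq k
    letI := Fintype.ofFinite (A ⧸ Ideal.span {ϖ ^ k})
    have h1 : Fintype.card (A ⧸ Ideal.span {ϖ ^ k}) ≤ Fintype.card (Fin (q ^ k)) := by
      rwa [Fintype.card_fin, ← Nat.card_eq_fintype_card]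
    obtain ⟨e⟩ := Function.Embedding.nonempty_of_card_le h1
    exact ⟨e, e.injective⟩
  choose e he using hemb
  set m := n + 1 - i with hm
  have hcardS : Fintype.card (Σ k : Fin m, Fin (q ^ (k : ℕ))) = ∑ k ∈ Finset.range m, q ^ k := by
    rw [Fintype.card_sigma]
    simp only [Fintype.card_fin]
    rw [← Fin.sum_univ_eq_sum_range]
  set E := Fintype.equivFinOfCardEq hcardS with hE
  have hlt : ∀ j, n - α j < m := by
    intro j
    have := hα1 j
    have := hα2 j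
    omega
  refine ⟨fun j => E ⟨⟨n - α j, hlt j⟩, e (n - α j) (Ideal.Quotient.mk _ (β j))⟩, ?_⟩
  intro j j' hjj'
  have h1 := E.injective hjj'
  have h2 : n - α j = n - α j' := by
    have := congrArg (fun s : (Σ k : Fin m, Fin (q ^ (k : ℕ))) => (s.1 : ℕ)) h1
    exact this
  have h3 : α j = α j' := by
    have := hα2 j
    have := hα2 j'
    omega
  have h4 : ∀ (k k' : ℕ) (hk : k < m) (hk' : k' < m) (x : A) (y : A), k = k' →
      (⟨⟨k, hk⟩, e k (Ideal.Quotient.mk _ x)⟩ : (Σ k : Fin m, Fin (q ^ (k : ℕ)))) =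
        ⟨⟨k', hk'⟩, e k' (Ideal.Quotient.mk _ y)⟩ → ϖ ^ k ∣ x - y := by
    intro k k' hk hk' x y hkk h
    subst hkk
    have h5 := eq_of_heq (Sigma.mk.inj h).2
    have h6 := he k h5
    rw [Ideal.Quotient.eq, Ideal.mem_span_singleton] at h6
    exact h6
  have h5 := h4 _ _ (hlt j) (hlt j') (β j) (β j') h2 h1
  have hkey : ∀ a b, ϖ ^ n ∣ (!![ϖ ^ α j', β j'; 0, ϖ ^ (n - α j')] * (!![ϖ ^ α j, β j; 0, ϖ ^ (n - α j)]).adjugate) a b := by
    have e1 : ϖ ^ α j * ϖ ^ (n - α j) = ϖ ^ n := by rw [← pow_add, Nat.add_sub_cancel' (hα2 j)]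
    obtain ⟨w, hw⟩ := h5
    rw [← h3, Matrix.adjugate_fin_two_of]
    intro a b
    fin_cases a <;> fin_cases b
    · refine ⟨1, ?_⟩
      simp [Matrix.mul_apply, Fin.sum_univ_two]
      rw [← e1]
    · refine ⟨-w, ?_⟩
      simp [Matrix.mul_apply, Fin.sum_univ_two]
      rw [← e1]
      have : β j = β j' + ϖ ^ (n - α j) * w := by rw [← hw]; ring
      rw [this]
      ring
    · simp [Matrix.mul_apply, Fin.sum_univ_two]
    · refine ⟨1, ?_⟩
      simp [Matrix.mul_apply, Fin.sum_univ_two]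
      rw [← e1]
      ring
  have hk : (N j' * k1) * (N j * k1).adjugate = k1.det • (N j' * (N j).adjugate) := by
    rw [Matrix.adjugate_mul_distrib]
    calc N j' * k1 * (k1.adjugate * (N j).adjugate) = N j' * (k1 * k1.adjugate) * (N j).adjugate := by
          simp only [Matrix.mul_assoc]
      _ = _ := by
          rw [Matrix.mul_adjugate, Matrix.mul_smul, Matrix.mul_one, Matrix.smul_mul]
  have hdiv : ∀ a b, ϖ ^ n ∣ ((N j' * k1) * (N j * k1).adjugate) a b := by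
    intro a b
    rw [hg j', hg j, Matrix.adjugate_mul_distrib]
    have e1 : g j' * !![ϖ ^ α j', β j'; 0, ϖ ^ (n - α j')] *
        ((!![ϖ ^ α j, β j; 0, ϖ ^ (n - α j)]).adjugate * (g j).adjugate) =
        g j' * (!![ϖ ^ α j', β j'; 0, ϖ ^ (n - α j')] * (!![ϖ ^ α j, β j; 0, ϖ ^ (n - α j)]).adjugate) *
          (g j).adjugate := by simp only [Matrix.mul_assoc]
    rw [e1, Matrix.mul_apply]
    refine Finset.dvd_sum fun l _ => Dvd.dvd.mul_right ?_ _
    rw [Matrix.mul_apply]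
    exact Finset.dvd_sum fun l _ => Dvd.dvd.mul_left (hkey _ _) _
  intro a b
  have h6 := hdiv a b
  rw [hk, Matrix.smul_apply, smul_eq_mul, hk1.dvd_mul_left] at h6
  exact h6

end dvr

end Pool.Agent.H496.R7
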