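import Pool.Agent.H496.R7.Loc

/-! Counting lattices: Dedekind domains and quaternion orders. -/

set_option autoImplicit false

namespace Pool.Agent.H496.R7

open Matrix Quaternion

section ded
variable {R : Type*} [CommRing R] [IsDedekindDomain R] (𝔭 : Ideal R) [𝔭.IsMaximal]

omit [IsDedekindDomain R] in
theorem hensel (a b : R) (h2 : (2 : R) ∉ 𝔭) (ha : a ∉ 𝔭) (hb : b ∉ 𝔭) [Finite (R ⧸ 𝔭)] (k : ℕ) :
    ∃ x y : R, x ^ 2 - a * y ^ 2 - b ∈ 𝔭 ^ k := by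
  have base : ∃ x y : R, x ^ 2 - a * y ^ 2 - b ∈ 𝔭 := by
    let _ := Ideal.Quotient.field 𝔭
    let _ := Fintype.ofFinite (R ⧸ 𝔭)
    have ha' : (Ideal.Quotient.mk 𝔭 a) ≠ 0 := by rwa [Ne, Ideal.Quotient.eq_zero_iff_mem]
    have hodd : Fintype.card (R ⧸ 𝔭) % 2 = 1 := by
      apply FiniteField.odd_card_of_char_ne_two
      intro h
      apply h2
      rw [← Ideal.Quotient.eq_zero_iff_mem]
      have h3 : ((2 : ℕ) : R ⧸ 𝔭) = 0 := by
        rw [← h]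
        exact ringChar.Nat.cast_ringChar
      have h4 : Ideal.Quotient.mk 𝔭 ((2 : ℕ) : R) = ((2 : ℕ) : R ⧸ 𝔭) := map_natCast _ 2
      rw [show (2 : R) = ((2 : ℕ) : R) by norm_num, h4]
      exact h3
    obtain ⟨x, y, h⟩ := FiniteField.exists_root_sum_quadratic (R := R ⧸ 𝔭)
      (f := Polynomial.X ^ 2 - Polynomial.C (Ideal.Quotient.mk 𝔭 b))
      (g := Polynomial.C (-(Ideal.Quotient.mk 𝔭 a)) * Polynomial.X ^ 2)
      (Polynomial.degree_X_pow_sub_C (by norm_num) _)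
      (by rw [Polynomial.degree_C_mul_X_pow 2 (neg_ne_zero.2 ha')]; rfl) hodd
    obtain ⟨x, rfl⟩ := Ideal.Quotient.mk_surjective x
    obtain ⟨y, rfl⟩ := Ideal.Quotient.mk_surjective y
    refine ⟨x, y, ?_⟩
    rw [← Ideal.Quotient.eq_zero_iff_mem]
    simp only [Polynomial.eval_sub, Polynomial.eval_pow, Polynomial.eval_X, Polynomial.eval_C, Polynomial.eval_mul] at h
    rw [← h]
    simp only [map_sub, map_mul, map_pow]
    ring
  have step : ∀ k, 1 ≤ k → (∃ x y : R, x ^ 2 - a * y ^ 2 - b ∈ 𝔭 ^ k) → ∃ x y : R, x ^ 2 - a * y ^ 2 - b ∈ 𝔭 ^ (k + 1) := by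
    rintro k hk ⟨x, y, h⟩
    set c := x ^ 2 - a * y ^ 2 - b with hc
    have hprime : 𝔭.IsPrime := Ideal.IsMaximal.isPrime inferInstance
    have hc1 : c ∈ 𝔭 := by
      have := Ideal.pow_le_pow_right hk h
      rwa [pow_one] at this
    have inv : ∀ u : R, u ∉ 𝔭 → ∃ e, 1 - u * e ∈ 𝔭 := by
      intro u hu
      obtain ⟨e, i, hi, hei⟩ := Ideal.IsMaximal.exists_inv (I := 𝔭) inferInstance hu
      refine ⟨e, ?_⟩
      have : 1 - u * e = i := by linear_combination -hei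
      rwa [this]
    have hsq : c ^ 2 ∈ 𝔭 ^ (k + 1) := by
      have h1 : c ^ 2 ∈ (𝔭 ^ k) ^ 2 := Ideal.pow_mem_pow h 2
      rw [← pow_mul] at h1
      exact Ideal.pow_le_pow_right (by omega) h1
    by_cases hx : x ∈ 𝔭
    · have hy : y ∉ 𝔭 := by
        intro hy
        apply hb
        have : b = x ^ 2 - a * y ^ 2 - c := by rw [hc]; ring
        rw [this]
        refine 𝔭.sub_mem (𝔭.sub_mem ?_ ?_) hc1
        · rw [sq]
          exact 𝔭.mul_mem_left _ hx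
        · rw [sq]
          exact 𝔭.mul_mem_left _ (𝔭.mul_mem_left _ hy)
      have hu : 2 * a * y ∉ 𝔭 := by
        intro h
        rcases hprime.mem_or_mem h with h | h
        · rcases hprime.mem_or_mem h with h | h
          · exact h2 h
          · exact ha h
        · exact hy h
      obtain ⟨e, he⟩ := inv _ hu
      refine ⟨x, y + e * c, ?_⟩
      have e1 : x ^ 2 - a * (y + e * c) ^ 2 - b = c * (1 - 2 * a * y * e) - a * e ^ 2 * c ^ 2 := by rw [hc]; ring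
      rw [e1, pow_succ]
      refine Ideal.sub_mem _ (Ideal.mul_mem_mul h he) ?_
      rw [← pow_succ]
      exact Ideal.mul_mem_left _ _ hsq
    · have hu : 2 * x ∉ 𝔭 := by
        intro h
        rcases hprime.mem_or_mem h with h | h
        · exact h2 h
        · exact hx h
      obtain ⟨e, he⟩ := inv _ hu
      refine ⟨x - e * c, y, ?_⟩
      have e1 : (x - e * c) ^ 2 - a * y ^ 2 - b = c * (1 - 2 * x * e) + e ^ 2 * c ^ 2 := by rw [hc]; ring
      rw [e1, pow_succ]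
      refine Ideal.add_mem _ (Ideal.mul_mem_mul h he) ?_
      rw [← pow_succ]
      exact Ideal.mul_mem_left _ _ hsq
  rcases Nat.eq_zero_or_pos k with rfl | hk
  · exact ⟨0, 0, by simp⟩
  · induction k, hk using Nat.le_induction with
    | base => simpa using base
    | succ k hk ih => exact step k hk ih

theorem loc_key (h𝔭0 : 𝔭 ≠ ⊥) {q : ℕ} (hq : ∀ n, Finite (R ⧸ 𝔭 ^ n) ∧ Nat.card (R ⧸ 𝔭 ^ n) ≤ q ^ n) {ι : Type*}
    (N : ι → Matrix (Fin 2) (Fin 2) R) {n : ℕ}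
    (hdet : ∀ j, (N j).det ∈ 𝔭 ^ n ∧ (N j).det ∉ 𝔭 ^ (n + 1)) {c0 c1 : R} {i : ℕ} (hc : c0 ∉ 𝔭 ∨ c1 ∉ 𝔭)
    (hNc : ∀ j a, N j a 0 * c0 + N j a 1 * c1 ∈ 𝔭 ^ i) :
    ∃ key : ι → Fin (∑ k ∈ Finset.range (n + 1 - i), q ^ k),
      ∀ j j', key j = key j' → ∀ a b, (N j' * (N j).adjugate) a b ∈ 𝔭 ^ n := by
  have hprime : 𝔭.IsPrime := Ideal.IsMaximal.isPrime inferInstance
  set A := Localization.AtPrime 𝔭 with hA
  have hdvr : IsDiscreteValuationRing A := IsLocalization.AtPrime.isDiscreteValuationRing_of_dedekind_domain R h𝔭0 A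
  set f := algebraMap R A with hf
  obtain ⟨ϖ, hϖ⟩ := IsDiscreteValuationRing.exists_irreducible A
  have hmax : ∀ k, IsLocalRing.maximalIdeal A ^ k = Ideal.span {ϖ ^ k} := by
    intro k
    rw [hϖ.maximalIdeal_eq, Ideal.span_singleton_pow]
  have hmem : ∀ (k : ℕ) (t : R), ϖ ^ k ∣ f t ↔ t ∈ 𝔭 ^ k := by
    intro k t
    rw [← Ideal.mem_span_singleton, ← hmax, ← IsLocalization.AtPrime.under_maximalIdeal_pow 𝔭 A k]
    rfl
  have hunit : ∀ t : R, t ∉ 𝔭 → IsUnit (f t) := by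
    intro t ht
    exact IsLocalization.map_units A (⟨t, ht⟩ : 𝔭.primeCompl)
  have hqA : ∀ k, Finite (A ⧸ Ideal.span {ϖ ^ k}) ∧ Nat.card (A ⧸ Ideal.span {ϖ ^ k}) ≤ q ^ k := by
    intro k
    obtain ⟨h1, h2⟩ := hq k
    set F : R ⧸ 𝔭 ^ k →+* A ⧸ Ideal.span {ϖ ^ k} := Ideal.Quotient.lift (𝔭 ^ k) ((Ideal.Quotient.mk (Ideal.span {ϖ ^ k})).comp f) (by
      intro t ht
      rw [RingHom.comp_apply, Ideal.Quotient.eq_zero_iff_mem, Ideal.mem_span_singleton]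
      exact (hmem k t).2 ht) with hF
    have hsurj : Function.Surjective F := by
      intro z
      obtain ⟨z, rfl⟩ := Ideal.Quotient.mk_surjective z
      obtain ⟨x, s, rfl⟩ := IsLocalization.exists_mk'_eq 𝔭.primeCompl z
      obtain ⟨e, i, hi, hei⟩ := Ideal.IsMaximal.exists_inv_pow 𝔭 s.2 k
      refine ⟨Ideal.Quotient.mk _ (x * e), ?_⟩
      rw [hF, Ideal.Quotient.lift_mk, RingHom.comp_apply, Ideal.Quotient.eq, Ideal.mem_span_singleton]
      have hs : IsUnit (f (s : R)) := hunit s s.2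
      rw [← hs.dvd_mul_left]
      have e1 : f (s : R) * (f (x * e) - IsLocalization.mk' A x s) = f (x * (e * s) - x) := by
        rw [mul_sub, ← map_mul, IsLocalization.mul_mk'_eq_mk'_of_mul, IsLocalization.mk'_mul_cancel_left, ← map_sub]
        congr 1
        ring
      rw [e1, hmem]
      have e2 : x * (e * s) - x = -(x * i) := by linear_combination x * hei
      rw [e2]
      exact neg_mem (Ideal.mul_mem_left _ _ hi)
    exact ⟨Finite.of_surjective F hsurj, (Nat.card_le_card_of_surjective F hsurj).trans h2⟩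
  have hdetA : ∀ j, ∃ u, IsUnit u ∧ (f.mapMatrix (N j)).det = u * ϖ ^ n := by
    intro j
    obtain ⟨h1, h2⟩ := hdet j
    rw [← RingHom.map_det]
    obtain ⟨u, hu⟩ := (hmem n _).2 h1
    refine ⟨u, ?_, by rw [hu, mul_comm]⟩
    by_contra hnu
    apply h2
    rw [← hmem]
    have h3 : u ∈ IsLocalRing.maximalIdeal A := (IsLocalRing.mem_maximalIdeal u).2 hnu
    rw [hϖ.maximalIdeal_eq, Ideal.mem_span_singleton] at h3
    obtain ⟨w, hw⟩ := h3
    exact ⟨w, by rw [hu, hw, pow_succ]; ring⟩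
  obtain ⟨key, hkey⟩ := exists_key hϖ hqA (fun j => f.mapMatrix (N j)) hdetA (c0 := f c0) (c1 := f c1) (i := i)
    (hc.imp (hunit c0) (hunit c1)) (fun j a => by
      have := (hmem i _).2 (hNc j a)
      rw [map_add, map_mul, map_mul] at this
      exact this)
  refine ⟨key, fun j j' hjj a b => ?_⟩
  have h1 := hkey j j' hjj a b
  rw [← RingHom.map_adjugate, ← map_mul, RingHom.mapMatrix_apply, Matrix.map_apply] at h1
  exact (hmem n _).1 h1

end ded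

section quat
variable {R : Type*} [CommRing R] {a b : R}

/-- all coordinates in an ideal -/
def AI (I : Ideal R) (X : ℍ[R,a,b]) : Prop := X.re ∈ I ∧ X.imI ∈ I ∧ X.imJ ∈ I ∧ X.imK ∈ I

/-- the conjugate -/
def qbar (X : ℍ[R,a,b]) : ℍ[R,a,b] := ⟨X.re, -X.imI, -X.imJ, -X.imK⟩

/-- the reduced norm -/
def qn (X : ℍ[R,a,b]) : R := X.re ^ 2 - a * X.imI ^ 2 - b * X.imJ ^ 2 + a * b * X.imK ^ 2

/-- the approximate splitting -/
def nmat (x y : R) (X : ℍ[R,a,b]) : Matrix (Fin 2) (Fin 2) R :=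
  !![X.re + x * X.imJ + a * y * X.imK, a * (X.imI - y * X.imJ - x * X.imK);
     X.imI + y * X.imJ + x * X.imK, X.re - x * X.imJ - a * y * X.imK]

theorem nmat_mul {I : Ideal R} {x y : R} (h : x ^ 2 - a * y ^ 2 - b ∈ I) (X Y : ℍ[R,a,b]) (i j : Fin 2) :
    (nmat x y X * nmat x y Y) i j - nmat x y (X * Y) i j ∈ I := by
  have key : ∃ w, (nmat x y X * nmat x y Y) i j - nmat x y (X * Y) i j = (x ^ 2 - a * y ^ 2 - b) * w := by
    obtain ⟨X0, X1, X2, X3⟩ := X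
    obtain ⟨Y0, Y1, Y2, Y3⟩ := Y
    rw [QuaternionAlgebra.mk_mul_mk]
    fin_cases i <;> fin_cases j
    · refine ⟨X2 * Y2 - a * X3 * Y3, ?_⟩
      simp [nmat, Matrix.mul_apply, Fin.sum_univ_two]
      ring
    · refine ⟨a * (X3 * Y2 - X2 * Y3), ?_⟩
      simp [nmat, Matrix.mul_apply, Fin.sum_univ_two]
      ring
    · refine ⟨X3 * Y2 - X2 * Y3, ?_⟩
      simp [nmat, Matrix.mul_apply, Fin.sum_univ_two]
      ring
    · refine ⟨X2 * Y2 - a * X3 * Y3, ?_⟩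
      simp [nmat, Matrix.mul_apply, Fin.sum_univ_two]
      ring
  obtain ⟨w, hw⟩ := key
  rw [hw]
  exact I.mul_mem_right _ h

theorem nmat_adj (x y : R) (X : ℍ[R,a,b]) : (nmat x y X).adjugate = nmat x y (qbar X) := by
  rw [nmat, Matrix.adjugate_fin_two_of, nmat, qbar]
  ext i j
  fin_cases i <;> fin_cases j <;> simp <;> ring

theorem nmat_det {I : Ideal R} {x y : R} (h : x ^ 2 - a * y ^ 2 - b ∈ I) (X : ℍ[R,a,b]) :
    (nmat x y X).det - qn X ∈ I := by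
  have e : (nmat x y X).det - qn X = (x ^ 2 - a * y ^ 2 - b) * (-(X.imJ ^ 2 - a * X.imK ^ 2)) := by
    rw [nmat, Matrix.det_fin_two_of, qn]
    ring
  rw [e]
  exact I.mul_mem_right _ h

theorem nmat_mem {𝔭 : Ideal R} [𝔭.IsMaximal] (h2 : (2 : R) ∉ 𝔭) (ha : a ∉ 𝔭) (hb : b ∉ 𝔭) {n : ℕ} {x y : R}
    (h : x ^ 2 - a * y ^ 2 - b ∈ 𝔭 ^ n) {X : ℍ[R,a,b]} (hX : ∀ i j, nmat x y X i j ∈ 𝔭 ^ n) : AI (𝔭 ^ n) X := by
  have hprime : 𝔭.IsPrime := Ideal.IsMaximal.isPrime inferInstance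
  have m00 : X.re + x * X.imJ + a * y * X.imK ∈ 𝔭 ^ n := hX 0 0
  have m01 : a * (X.imI - y * X.imJ - x * X.imK) ∈ 𝔭 ^ n := hX 0 1
  have m10 : X.imI + y * X.imJ + x * X.imK ∈ 𝔭 ^ n := hX 1 0
  have m11 : X.re - x * X.imJ - a * y * X.imK ∈ 𝔭 ^ n := hX 1 1
  have h2a : 2 * a ∉ 𝔭 := fun h => (hprime.mem_or_mem h).elim h2 ha
  have h2ab : 2 * a * b ∉ 𝔭 := fun h => (hprime.mem_or_mem h).elim h2a hb
  have cancel : ∀ {u t : R}, u ∉ 𝔭 → u * t ∈ 𝔭 ^ n → t ∈ 𝔭 ^ n := fun hu ht =>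
    (Ideal.IsMaximal.mul_mem_pow 𝔭 ht).resolve_left hu
  refine ⟨cancel h2 ?_, cancel h2a ?_, cancel h2ab ?_, cancel h2ab ?_⟩
  · have e : 2 * X.re = (X.re + x * X.imJ + a * y * X.imK) + (X.re - x * X.imJ - a * y * X.imK) := by ring
    rw [e]
    exact Ideal.add_mem _ m00 m11
  · have e : 2 * a * X.imI = a * (X.imI + y * X.imJ + x * X.imK) + a * (X.imI - y * X.imJ - x * X.imK) := by ring
    rw [e]
    exact Ideal.add_mem _ (Ideal.mul_mem_left _ _ m10) m01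
  · have e : 2 * a * b * X.imJ = a * x * ((X.re + x * X.imJ + a * y * X.imK) - (X.re - x * X.imJ - a * y * X.imK)) -
        a * y * (a * (X.imI + y * X.imJ + x * X.imK) - a * (X.imI - y * X.imJ - x * X.imK)) -
        2 * a * X.imJ * (x ^ 2 - a * y ^ 2 - b) := by ring
    rw [e]
    refine Ideal.sub_mem _ (Ideal.sub_mem _ (Ideal.mul_mem_left _ _ (Ideal.sub_mem _ m00 m11)) ?_)
      (Ideal.mul_mem_left _ _ h)
    exact Ideal.mul_mem_left _ _ (Ideal.sub_mem _ (Ideal.mul_mem_left _ _ m10) m01)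
  · have e : 2 * a * b * X.imK = x * (a * (X.imI + y * X.imJ + x * X.imK) - a * (X.imI - y * X.imJ - x * X.imK)) -
        a * y * ((X.re + x * X.imJ + a * y * X.imK) - (X.re - x * X.imJ - a * y * X.imK)) -
        2 * a * X.imK * (x ^ 2 - a * y ^ 2 - b) := by ring
    rw [e]
    refine Ideal.sub_mem _ (Ideal.sub_mem _ (Ideal.mul_mem_left _ _ (Ideal.sub_mem _ (Ideal.mul_mem_left _ _ m10) m01)) ?_)
      (Ideal.mul_mem_left _ _ h)
    exact Ideal.mul_mem_left _ _ (Ideal.sub_mem _ m00 m11)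

theorem quat_key [IsDedekindDomain R] {𝔭 : Ideal R} [𝔭.IsMaximal] (h𝔭0 : 𝔭 ≠ ⊥) (h2 : (2 : R) ∉ 𝔭)
    (ha : a ∉ 𝔭) (hb : b ∉ 𝔭) {q : ℕ} (hq : ∀ n, Finite (R ⧸ 𝔭 ^ n) ∧ Nat.card (R ⧸ 𝔭 ^ n) ≤ q ^ n)
    {n i : ℕ} {ι : Type*} (X : ι → ℍ[R,a,b]) (hX : ∀ j, qn (X j) ∈ 𝔭 ^ n ∧ qn (X j) ∉ 𝔭 ^ (n + 1))
    (Δ : ℍ[R,a,b]) (hΔ : ¬ AI 𝔭 Δ) (hXΔ : ∀ j, AI (𝔭 ^ i) (X j * Δ)) :
    ∃ key : ι → Fin (∑ k ∈ Finset.range (n + 1 - i), q ^ k),
      ∀ j j', key j = key j' → AI (𝔭 ^ n) (X j' * qbar (X j)) := by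
  have hfin : Finite (R ⧸ 𝔭) := by
    have := (hq 1).1
    rwa [pow_one] at this
  obtain ⟨x, y, hxy⟩ := hensel 𝔭 a b h2 ha hb (n + 1 + i + 1)
  have hle : ∀ k, k ≤ n + 1 + i + 1 → x ^ 2 - a * y ^ 2 - b ∈ 𝔭 ^ k := fun k hk => Ideal.pow_le_pow_right hk hxy
  have hc : ∃ i0 j0, nmat x y Δ i0 j0 ∉ 𝔭 := by
    by_contra hcon
    push Not at hcon
    apply hΔ
    have := nmat_mem (n := 1) h2 ha hb (hle 1 (by omega)) (X := Δ) (fun i j => by rw [pow_one]; exact hcon i j)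
    rwa [pow_one] at this
  obtain ⟨i0, j0, hij⟩ := hc
  have hAIn : ∀ {k : ℕ} {Z : ℍ[R,a,b]}, AI (𝔭 ^ k) Z → ∀ i j, nmat x y Z i j ∈ 𝔭 ^ k := by
    rintro k Z ⟨z0, z1, z2, z3⟩ i j
    fin_cases i <;> fin_cases j
    · exact Ideal.add_mem _ (Ideal.add_mem _ z0 (Ideal.mul_mem_left _ _ z2)) (Ideal.mul_mem_left _ _ z3)
    · exact Ideal.mul_mem_left _ _ (Ideal.sub_mem _ (Ideal.sub_mem _ z1 (Ideal.mul_mem_left _ _ z2)) (Ideal.mul_mem_left _ _ z3))
    · exact Ideal.add_mem _ (Ideal.add_mem _ z1 (Ideal.mul_mem_left _ _ z2)) (Ideal.mul_mem_left _ _ z3)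
    · exact Ideal.sub_mem _ (Ideal.sub_mem _ z0 (Ideal.mul_mem_left _ _ z2)) (Ideal.mul_mem_left _ _ z3)
  obtain ⟨key, hkey⟩ := loc_key 𝔭 h𝔭0 hq (fun j => nmat x y (X j)) (n := n) (c0 := nmat x y Δ 0 j0)
    (c1 := nmat x y Δ 1 j0) (i := i) (fun j => by
      have h1 := nmat_det (hle (n + 1) (by omega)) (X j)
      obtain ⟨h3, h4⟩ := hX j
      constructor
      · have h5 : (nmat x y (X j)).det = ((nmat x y (X j)).det - qn (X j)) + qn (X j) := by ring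
        rw [h5]
        exact Ideal.add_mem _ (Ideal.pow_le_pow_right (Nat.le_succ n) h1) h3
      · intro h5
        apply h4
        have h6 : qn (X j) = (nmat x y (X j)).det - ((nmat x y (X j)).det - qn (X j)) := by ring
        rw [h6]
        exact Ideal.sub_mem _ h5 h1) (by
      fin_cases i0
      · exact Or.inl hij
      · exact Or.inr hij) (fun j a' => by
      have h1 := nmat_mul (hle i (by omega)) (X j) Δ a' j0
      have h3 := hAIn (hXΔ j) a' j0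
      rw [Matrix.mul_apply, Fin.sum_univ_two] at h1
      have h5 := Ideal.add_mem _ h1 h3
      rwa [sub_add_cancel] at h5)
  refine ⟨key, fun j j' hjj => ?_⟩
  refine nmat_mem h2 ha hb (hle n (by omega)) fun i' k' => ?_
  have h1 := hkey j j' hjj i' k'
  rw [nmat_adj] at h1
  have h3 := nmat_mul (hle n (by omega)) (X j') (qbar (X j)) i' k'
  have h4 := Ideal.sub_mem _ h1 h3
  rwa [sub_sub_cancel] at h4

end quat

end Pool.Agent.H496.R7
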