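import Pool.Agent.H496.R7.Hecke
import Mathlib.NumberTheory.NumberField.Ideal.Basic

/-! Numerical estimates. -/

set_option autoImplicit false

namespace Pool.Agent.H496.R7

open Set Function
open scoped NumberField
open Pool.Agent.H496 Pool.Agent.H496.R4 Pool.Agent.H496.R6

theorem succ_le_rpow {δ : ℝ} (hδ : 0 < δ) (k : ℕ) :
    (k : ℝ) + 1 ≤ (1 + 1 / ((2 : ℝ) ^ δ - 1)) * ((2 : ℝ) ^ k) ^ δ := by
  have h1 : 1 < (2 : ℝ) ^ δ := Real.one_lt_rpow (by norm_num) hδ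
  set x : ℝ := (2 : ℝ) ^ δ - 1 with hx
  have hx0 : 0 < x := by linarith
  have h2 : ((2 : ℝ) ^ k) ^ δ = (1 + x) ^ k := by
    rw [hx, add_sub_cancel, ← Real.rpow_natCast, ← Real.rpow_mul (by norm_num), ← Real.rpow_natCast,
      ← Real.rpow_mul (by norm_num), mul_comm]
  rw [h2]
  have h3 := one_add_mul_le_pow (a := x) (by linarith) k
  have h4 : (1 + 1 / x) * (1 + k * x) ≤ (1 + 1 / x) * (1 + x) ^ k := mul_le_mul_of_nonneg_left h3 (by positivity)
  refine le_trans ?_ h4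
  have h5 : (1 + 1 / x) * (1 + k * x) = 1 + k * x + 1 / x + k := by
    field_simp
    ring
  rw [h5]
  have : 0 ≤ k * x := by positivity
  have : 0 < 1 / x := by positivity
  linarith

/-- the constant of `succ_le_rpow` -/
noncomputable def LL (δ : ℝ) : ℝ := 1 + 1 / ((2 : ℝ) ^ δ - 1)

theorem one_le_LL {δ : ℝ} (hδ : 0 < δ) : 1 ≤ LL δ := by
  have h1 : 1 < (2 : ℝ) ^ δ := Real.one_lt_rpow (by norm_num) hδ
  have : 0 < 1 / ((2 : ℝ) ^ δ - 1) := by
    apply one_div_pos.2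
    linarith
  rw [LL]
  linarith

theorem nsc_le {δ : ℝ} (hδ : 0 < δ) {U : ℝ} (hU : 1 ≤ U) : (nsc U : ℝ) ≤ LL δ * (2 * U) ^ δ := by
  have h0 := one_le_LL hδ
  have h2 : (2 : ℝ) ^ Nat.log 2 ⌊2 * U⌋₊ ≤ 2 * U := nsc_pow hU (by rw [nsc]; simp)
  rw [nsc]
  push_cast
  refine (succ_le_rpow hδ _).trans ?_
  show LL δ * _ ≤ _
  gcongr

theorem nsc_prod_le {P : Type*} [Fintype P] {δ : ℝ} (hδ : 0 < δ) {U : P → ℝ} (hU : ∀ w, 1 ≤ U w) :
    ∏ w, (nsc (U w) : ℝ) ≤ LL δ ^ Fintype.card P * (2 ^ Fintype.card P * ∏ w, U w) ^ δ := by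
  have e : 2 ^ Fintype.card P * ∏ w, U w = ∏ w, (2 * U w) := by
    rw [← Finset.card_univ, ← Finset.prod_const, ← Finset.prod_mul_distrib]
  rw [e, ← Finset.card_univ, ← Finset.prod_const, ← Real.finsetProd_rpow _ _ (fun w _ => by
    have := hU w
    positivity), ← Finset.prod_mul_distrib]
  exact Finset.prod_le_prod (fun w _ => by positivity) fun w _ => nsc_le hδ (hU w)

theorem scl_prod_le {V : Type*} [Fintype V] {δ : ℝ} (hδ : 0 < δ) (n : V → ℕ) :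
    ∏ v, ((scl (n v) : ℝ) + 1) ≤ (LL δ * 2 ^ δ) ^ Fintype.card V * (∏ v, ((n v : ℝ) + 1)) ^ δ := by
  have h0 := one_le_LL hδ
  rw [← Finset.card_univ, ← Finset.prod_const, ← Real.finsetProd_rpow _ _ (fun v _ => by positivity),
    ← Finset.prod_mul_distrib]
  refine Finset.prod_le_prod (fun v _ => by positivity) fun v _ => ?_
  refine (succ_le_rpow hδ _).trans ?_
  show LL δ * _ ≤ _
  rw [mul_assoc, ← Real.mul_rpow (by norm_num) (by positivity)]
  have h2 := scl_le (n v)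
  gcongr

theorem div_bound (K : Type*) [Field K] [NumberField K] {δ : ℝ} (hδ : 0 < δ) : ∃ C : ℝ, 1 ≤ C ∧
    ∀ (ι : Type) [Fintype ι] (𝔭 : ι → Ideal (𝓞 K)), (∀ l, 𝔭 l ≠ ⊥ ∧ 𝔭 l ≠ ⊤) → Injective 𝔭 → ∀ m : ι → ℕ,
      ∏ l, (2 * (m l : ℝ) + 1) ^ 3 ≤ C * (∏ l, (Ideal.absNorm (𝔭 l) : ℝ) ^ (2 * m l)) ^ δ := by
  classical
  have hδ3 : 0 < δ / 3 := by positivity
  set B : ℕ := ⌈(27 : ℝ) ^ (1 / δ)⌉₊ with hB
  have hfin : {I : Ideal (𝓞 K) | Ideal.absNorm I ≤ B}.Finite := Ideal.finite_setOfPred_absNorm_le B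
  set T : Finset (Ideal (𝓞 K)) := hfin.toFinset with hT
  set c : ℝ := LL (δ / 3) ^ 3 with hc
  have hc1 : 1 ≤ c := one_le_pow₀ (one_le_LL hδ3)
  refine ⟨c ^ T.card, one_le_pow₀ hc1, ?_⟩
  intro ι _ 𝔭 hp hinj m
  have hN1 : ∀ l, (2 : ℝ) ≤ (Ideal.absNorm (𝔭 l) : ℝ) := by
    intro l
    have h0 : Ideal.absNorm (𝔭 l) ≠ 0 := by
      rw [Ne, Ideal.absNorm_eq_zero_iff]
      exact (hp l).1
    have h1 : Ideal.absNorm (𝔭 l) ≠ 1 := by
      rw [Ne, Ideal.absNorm_eq_one_iff]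
      exact (hp l).2
    have : 2 ≤ Ideal.absNorm (𝔭 l) := by omega
    exact_mod_cast this
  have hterm : ∀ l, (2 * (m l : ℝ) + 1) ^ 3 ≤ (if 𝔭 l ∈ T then c else 1) * ((Ideal.absNorm (𝔭 l) : ℝ) ^ (2 * m l)) ^ δ := by
    intro l
    have hN := hN1 l
    split_ifs with h
    · have h1 := succ_le_rpow hδ3 (2 * m l)
      push_cast at h1
      have h2 : ((2 : ℝ) ^ (2 * m l)) ^ (δ / 3) ≤ ((Ideal.absNorm (𝔭 l) : ℝ) ^ (2 * m l)) ^ (δ / 3) := by gcongr
      have h3 : 2 * (m l : ℝ) + 1 ≤ LL (δ / 3) * ((Ideal.absNorm (𝔭 l) : ℝ) ^ (2 * m l)) ^ (δ / 3) :=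
        h1.trans (mul_le_mul_of_nonneg_left h2 (by
          have := one_le_LL hδ3
          rw [LL] at this
          linarith))
      have h4 := pow_le_pow_left₀ (by positivity) h3 3
      rw [mul_pow, ← Real.rpow_natCast (((Ideal.absNorm (𝔭 l) : ℝ) ^ (2 * m l)) ^ (δ / 3)) 3,
        ← Real.rpow_mul (by positivity)] at h4
      have h5 : δ / 3 * ((3 : ℕ) : ℝ) = δ := by
        push_cast
        ring
      rw [h5] at h4
      exact h4
    · rw [one_mul]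
      have h1 : B < Ideal.absNorm (𝔭 l) := by
        by_contra hcon
        exact h (hfin.mem_toFinset.2 (not_lt.1 hcon))
      have h2 : (27 : ℝ) ^ (1 / δ) ≤ (Ideal.absNorm (𝔭 l) : ℝ) := by
        refine (Nat.le_ceil _).trans ?_
        exact_mod_cast h1.le
      have h3 : (27 : ℝ) ≤ (Ideal.absNorm (𝔭 l) : ℝ) ^ δ := by
        have h4 := Real.rpow_le_rpow (by positivity) h2 hδ.le
        rw [← Real.rpow_mul (by norm_num), one_div, inv_mul_cancel₀ hδ.ne', Real.rpow_one] at h4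
        exact h4
      have h4 : 2 * (m l : ℝ) + 1 ≤ 3 ^ m l := by
        have := one_add_mul_le_pow (a := (2 : ℝ)) (by norm_num) (m l)
        norm_num at this
        linarith
      have h5 : ((Ideal.absNorm (𝔭 l) : ℝ) ^ (2 * m l)) ^ δ = ((Ideal.absNorm (𝔭 l) : ℝ) ^ δ) ^ (2 * m l) := by
        rw [← Real.rpow_natCast, ← Real.rpow_mul (by positivity), ← Real.rpow_natCast, ← Real.rpow_mul (by positivity),
          mul_comm]
      rw [h5]
      calc (2 * (m l : ℝ) + 1) ^ 3 ≤ (3 ^ m l) ^ 3 := by gcongr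
        _ = 27 ^ m l := by rw [← pow_mul, mul_comm, pow_mul]; norm_num
        _ ≤ ((Ideal.absNorm (𝔭 l) : ℝ) ^ δ) ^ m l := by gcongr
        _ ≤ ((Ideal.absNorm (𝔭 l) : ℝ) ^ δ) ^ (2 * m l) := pow_le_pow_right₀ (by linarith) (by omega)
  have hprod : ∏ l, (if 𝔭 l ∈ T then c else 1) ≤ c ^ T.card := by
    rw [Finset.prod_ite, Finset.prod_const, Finset.prod_const_one, mul_one]
    refine pow_le_pow_right₀ hc1 ?_
    exact Finset.card_le_card_of_injOn 𝔭 (fun l hl => (Finset.mem_filter.1 hl).2) hinj.injOn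
  calc ∏ l, (2 * (m l : ℝ) + 1) ^ 3 ≤
      ∏ l, ((if 𝔭 l ∈ T then c else 1) * ((Ideal.absNorm (𝔭 l) : ℝ) ^ (2 * m l)) ^ δ) :=
        Finset.prod_le_prod (fun l _ => by positivity) fun l _ => hterm l
    _ = (∏ l, (if 𝔭 l ∈ T then c else 1)) * (∏ l, (Ideal.absNorm (𝔭 l) : ℝ) ^ (2 * m l)) ^ δ := by
        rw [Finset.prod_mul_distrib, Real.finsetProd_rpow _ _ (fun l _ => by positivity)]
    _ ≤ _ := by gcongr

/-- the number of cosets -/
theorem card_le {ι : Type*} [Fintype ι] {q m i : ι → ℕ} (hq : ∀ l, 1 ≤ q l) (hi : ∀ l, i l ≤ 2 * m l) :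
    ((∏ l, ∑ k ∈ Finset.range (2 * m l + 1 - i l), q l ^ k : ℕ) : ℝ) ≤
      (∏ l, (2 * (m l : ℝ) + 1)) * (∏ l, (q l : ℝ) ^ (2 * m l)) / ∏ l, (q l : ℝ) ^ i l := by
  have hq0 : ∀ l, (1 : ℝ) ≤ q l := fun l => by exact_mod_cast hq l
  push_cast
  rw [← Finset.prod_mul_distrib, ← Finset.prod_div_distrib]
  refine Finset.prod_le_prod (fun l _ => Finset.sum_nonneg fun k _ => by positivity) fun l _ => ?_
  have h1 : ∀ k ∈ Finset.range (2 * m l + 1 - i l), (q l : ℝ) ^ k ≤ (q l : ℝ) ^ (2 * m l - i l) := fun k hk =>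
    pow_le_pow_right₀ (hq0 l) (by have := Finset.mem_range.1 hk; omega)
  refine (Finset.sum_le_card_nsmul _ _ _ h1).trans ?_
  rw [Finset.card_range, nsmul_eq_mul]
  have hql : (0 : ℝ) < q l := by linarith [hq0 l]
  have h2 : (q l : ℝ) ^ (2 * m l - i l) = (q l : ℝ) ^ (2 * m l) / (q l : ℝ) ^ i l := by
    rw [eq_div_iff (by positivity), ← pow_add]
    congr 1
    have := hi l
    omega
  rw [h2, mul_div_assoc]
  refine mul_le_mul_of_nonneg_right ?_ (by positivity)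
  have : ((2 * m l + 1 - i l : ℕ) : ℝ) ≤ ((2 * m l + 1 : ℕ) : ℝ) := by
    exact_mod_cast Nat.sub_le _ _
  push_cast at this
  exact this

theorem sum_KB2 {P V κ : Type*} [Fintype P] [Fintype V] {U : P → ℝ} (hU : ∀ w, 1 ≤ U w) {Z N M2 D1 c6 : ℝ}
    (I : Finset κ) (NI : κ → ℝ) (hNI1 : ∀ i ∈ I, 1 ≤ NI i) (hNI2 : ∀ i ∈ I, NI i ≤ M2) (hI : (I.card : ℝ) ≤ D1)
    (n : V → ℕ) (hN : 1 ≤ N) (hZ : 0 ≤ Z) (hM2 : 1 ≤ M2)
    (hX : (∏ w, U w) * M2 ≤ c6 * (N ^ 3 * ∏ v, ((n v : ℝ) + 1))) :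
    ∑ i ∈ I, (D1 * M2 / NI i) * KB2 V U Z (NI i / N) (NI i / N ^ 2) n ≤
      ((∏ w, U w) * M2) * (D1 ^ 2 * (((∏ w, (nsc (U w) : ℝ)) * ∏ v, ((scl (n v) : ℝ) + 1)) *
        (32 ^ Fintype.card P * 2 ^ Fintype.card V) * (∏ v, ((n v : ℝ) + 1)) * Z *
        ((2 ^ Fintype.card V + 2 + 4 ^ Fintype.card P * c6) * ∏ v, ((n v : ℝ) + 1)))) := by
  set PU : ℝ := ∏ w, U w with hPU
  set PN : ℝ := ∏ v, ((n v : ℝ) + 1) with hPN
  set X1 : ℝ := (∏ w, (nsc (U w) : ℝ)) * ∏ v, ((scl (n v) : ℝ) + 1) with hX1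
  have hPU1 : 1 ≤ PU := by
    calc (1 : ℝ) = ∏ _w : P, (1 : ℝ) := by simp
      _ ≤ _ := Finset.prod_le_prod (fun _ _ => zero_le_one) fun w _ => hU w
  have hPN1 : 1 ≤ PN := by
    calc (1 : ℝ) = ∏ _v : V, (1 : ℝ) := by simp
      _ ≤ _ := Finset.prod_le_prod (fun _ _ => zero_le_one) fun v _ => by
        have : (0 : ℝ) ≤ n v := by positivity
        linarith
  have hX10 : 0 ≤ X1 := mul_nonneg (Finset.prod_nonneg fun w _ => by positivity) (Finset.prod_nonneg fun v _ => by positivity)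
  have hD10 : 0 ≤ D1 := le_trans (by positivity) hI
  have hN0 : 0 < N := by linarith
  have hterm : ∀ i ∈ I, (D1 * M2 / NI i) * KB2 V U Z (NI i / N) (NI i / N ^ 2) n ≤
      (PU * M2) * (D1 * (X1 * (32 ^ Fintype.card P * 2 ^ Fintype.card V) * PN * Z *
        ((2 ^ Fintype.card V + 2 + 4 ^ Fintype.card P * c6) * PN))) := by
    intro i hi
    have h1 := hNI1 i hi
    have h2 := hNI2 i hi
    have h0 : 0 < NI i := by linarith
    rw [KB2, ← hPU, ← hPN, ← hX1]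
    have e : (D1 * M2 / NI i) * (X1 * (32 ^ Fintype.card P * 2 ^ Fintype.card V * PU * PN * Z *
        (2 ^ Fintype.card V * PN + NI i / N ^ 2 + NI i / N + 4 ^ Fintype.card P * PU * (NI i / N * (NI i / N ^ 2))))) =
        (PU * M2) * (D1 * (X1 * (32 ^ Fintype.card P * 2 ^ Fintype.card V) * PN * Z *
          (2 ^ Fintype.card V * PN / NI i + 1 / N ^ 2 + 1 / N + 4 ^ Fintype.card P * (PU * NI i / N ^ 3)))) := by
      field_simp
    rw [e]
    have h3 : 2 ^ Fintype.card V * PN / NI i + 1 / N ^ 2 + 1 / N + 4 ^ Fintype.card P * (PU * NI i / N ^ 3) ≤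
        (2 ^ Fintype.card V + 2 + 4 ^ Fintype.card P * c6) * PN := by
      have a1 : 2 ^ Fintype.card V * PN / NI i ≤ 2 ^ Fintype.card V * PN := div_le_self (by positivity) h1
      have a2 : 1 / N ^ 2 ≤ 1 := by
        rw [div_le_one (by positivity)]
        exact one_le_pow₀ hN
      have a3 : 1 / N ≤ 1 := by
        rw [div_le_one hN0]
        exact hN
      have a4 : PU * NI i / N ^ 3 ≤ c6 * PN := by
        rw [div_le_iff₀ (by positivity)]
        calc PU * NI i ≤ PU * M2 := by gcongr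
          _ ≤ c6 * (N ^ 3 * PN) := hX
          _ = c6 * PN * N ^ 3 := by ring
      have a5 : 4 ^ Fintype.card P * (PU * NI i / N ^ 3) ≤ 4 ^ Fintype.card P * (c6 * PN) := by gcongr
      have : (2 ^ Fintype.card V + 2 + 4 ^ Fintype.card P * c6) * PN =
          2 ^ Fintype.card V * PN + 2 * PN + 4 ^ Fintype.card P * (c6 * PN) := by ring
      rw [this]
      linarith
    have hpre : 0 ≤ X1 * (32 ^ Fintype.card P * 2 ^ Fintype.card V) * PN * Z := by positivity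
    exact mul_le_mul_of_nonneg_left (mul_le_mul_of_nonneg_left (mul_le_mul_of_nonneg_left h3 hpre) hD10) (by positivity)
  refine (Finset.sum_le_card_nsmul I _ _ hterm).trans ?_
  rw [nsmul_eq_mul]
  have hc6 : 0 ≤ c6 := by
    by_contra hneg
    push Not at hneg
    have h1 : c6 * (N ^ 3 * PN) < 0 := mul_neg_of_neg_of_pos hneg (by positivity)
    have h2 : 0 < PU * M2 := by positivity
    linarith
  have hbig : 0 ≤ (PU * M2) * (D1 * (X1 * (32 ^ Fintype.card P * 2 ^ Fintype.card V) * PN * Z *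
        ((2 ^ Fintype.card V + 2 + 4 ^ Fintype.card P * c6) * PN))) := by positivity
  refine (mul_le_mul_of_nonneg_right hI hbig).trans (le_of_eq ?_)
  ring

end Pool.Agent.H496.R7
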